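import Mathlib

set_option autoImplicit false

namespace Pool.Agent.Lib.MP_28492a_gt

/-- The closed cube in `ℝⁿ` with lower corner `c` and side length `r`. -/
def Cube {n : ℕ} (c : EuclideanSpace ℝ (Fin n)) (r : ℝ) : Set (EuclideanSpace ℝ (Fin n)) :=
  {x | ∀ i, c i ≤ x i ∧ x i ≤ c i + r}

/-- Jordan (outer) measure zero: for every `ε > 0` the set is covered by finitely many cubes of
total volume less than `ε`. -/
def JordanNull {n : ℕ} (S : Set (EuclideanSpace ℝ (Fin n))) : Prop :=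
  ∀ ε : ℝ, 0 < ε → ∃ (m : ℕ) (c : Fin m → EuclideanSpace ℝ (Fin n)) (r : Fin m → ℝ),
    (∀ i, 0 ≤ r i) ∧ S ⊆ ⋃ i, Cube (c i) (r i) ∧ ∑ i, r i ^ n < ε

/-- The geometric bodies: bounded regular-open Jordan measurable sets. -/
structure IsBody {n : ℕ} (A : Set (EuclideanSpace ℝ (Fin n))) : Prop where
  bounded : Bornology.IsBounded A
  regular : A = interior (closure A)
  jordan : JordanNull (frontier A)

/-- The join of a finite family of sets: the interior of the closure of the union. -/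
def join {n m : ℕ} (P : Fin m → Set (EuclideanSpace ℝ (Fin n))) :
    Set (EuclideanSpace ℝ (Fin n)) :=
  interior (closure (⋃ i, P i))

/-- Equidecomposability as geometric bodies, with respect to all isometries of `ℝⁿ`. -/
def Equidec {n : ℕ} (A B : Set (EuclideanSpace ℝ (Fin n))) : Prop :=
  ∃ (m : ℕ) (P : Fin m → Set (EuclideanSpace ℝ (Fin n)))
    (g : Fin m → (EuclideanSpace ℝ (Fin n) ≃ᵢ EuclideanSpace ℝ (Fin n))),
    (∀ i, IsBody (P i)) ∧
    (∀ i j, i ≠ j → Disjoint (P i) (P j)) ∧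
    A = join P ∧
    (∀ i j, i ≠ j → Disjoint (g i '' P i) (g j '' P j)) ∧
    B = join (fun i => g i '' P i)

/-- `C` is a `k`-fold multiple of `A`: the join of `k` pairwise disjoint isometric copies of `A`. -/
def IsMultiple {n : ℕ} (k : ℕ) (A C : Set (EuclideanSpace ℝ (Fin n))) : Prop :=
  ∃ g : Fin k → (EuclideanSpace ℝ (Fin n) ≃ᵢ EuclideanSpace ℝ (Fin n)),
    (∀ i j, i ≠ j → Disjoint (g i '' A) (g j '' A)) ∧
    C = join (fun i => g i '' A)

/-- The cancellation law in `ℝⁿ`: if `kA ∼ kB` for some `k ≥ 1` then `A ∼ B`. -/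
def CancellationLaw (n : ℕ) : Prop :=
  ∀ k : ℕ, 1 ≤ k → ∀ A B : Set (EuclideanSpace ℝ (Fin n)), IsBody A → IsBody B →
    ∀ C D : Set (EuclideanSpace ℝ (Fin n)), IsMultiple k A C → IsMultiple k B D →
      Equidec C D → Equidec A B

end Pool.Agent.Lib.MP_28492a_gt
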