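import Pool.Agent.Lib.MP_28492a_gt.Cancel
import Pool.Agent.Lib.MP_28492a_gt.Defs

section

set_option autoImplicit false

open MeasureTheory Filter Topology

namespace Pool.Agent.Lib.MP_28492a_gt

noncomputable section

variable {n : ℕ}

/-- Periodic a.e. locally constant functions. -/
structure PLC {α : Type*} (F : E n → α) : Prop where
  lc : LC F
  per : ∀ x m, F (x + lat 1 m) = F x

theorem PLC.const {α : Type*} (a : α) : PLC (fun _ : E n => a) := ⟨LC.const a, fun _ _ => rfl⟩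

theorem PLC.comp {α β : Type*} {F : E n → α} (g : α → β) (h : PLC F) : PLC (fun x => g (F x)) :=
  ⟨h.lc.comp g, fun x m => by rw [h.per]⟩

theorem PLC.comp₂ {α β γ : Type*} {F : E n → α} {G : E n → β} (g : α → β → γ)
    (hF : PLC F) (hG : PLC G) : PLC (fun x => g (F x) (G x)) :=
  ⟨LC.comp₂ g hF.lc hG.lc, fun x m => by rw [hF.per, hG.per]⟩

theorem PLC.pi {ι : Type*} [Finite ι] {α : ι → Type*} {F : (i : ι) → E n → α i}
    (h : ∀ i, PLC (F i)) : PLC (fun x i => F i x) :=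
  ⟨LC.pi fun i => (h i).lc, fun x m => funext fun i => (h i).per x m⟩

theorem PLC.bind {α κ : Type*} [Countable κ] {r : E n → κ} {F : κ → E n → α}
    (hr : PLC r) (hF : ∀ c, PLC (F c)) : PLC (fun x => F (r x) x) :=
  ⟨LC.bind hr.lc fun c => (hF c).lc, fun x m => by rw [hr.per, (hF _).per]⟩

theorem PLC.add_right {α : Type*} {F : E n → α} (h : PLC F) (t : E n) :
    PLC (fun x => F (x + t)) :=
  ⟨h.lc.add_right t, fun x m => by rw [add_right_comm, h.per]⟩

theorem PLC.sub_right {α : Type*} {F : E n → α} (h : PLC F) (t : E n) :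
    PLC (fun x => F (x - t)) := by
  simpa [sub_eq_add_neg] using h.add_right (-t)

theorem PLC.finset_sum {ι α : Type*} [AddCommMonoid α] (s : Finset ι) {F : ι → E n → α}
    (h : ∀ i ∈ s, PLC (F i)) : PLC (fun x => ∑ i ∈ s, F i x) :=
  ⟨LC.finset_sum s fun i hi => (h i hi).lc, fun x m => Finset.sum_congr rfl fun i hi => (h i hi).per x m⟩

theorem PLC.add {α : Type*} [Add α] {F H : E n → α} (hF : PLC F) (hH : PLC H) :
    PLC (fun x => F x + H x) := PLC.comp₂ (· + ·) hF hH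

theorem PLC.sub {α : Type*} [Sub α] {F H : E n → α} (hF : PLC F) (hH : PLC H) :
    PLC (fun x => F x - H x) := PLC.comp₂ (· - ·) hF hH

theorem PLC.neg {α : Type*} [Neg α] {F : E n → α} (hF : PLC F) :
    PLC (fun x => - F x) := hF.comp (fun a => - a)

/-- rotation vectors -/
def sE (c₀ : Fin n) (l : Fin 3) : E n := ev c₀ (sl l)

/-- integer combinations of the rotation vectors -/
def smE (c₀ : Fin n) (δ : Fin 3 → ℕ) : E n := ∑ l, δ l • sE c₀ l

theorem smE_apply (c₀ : Fin n) (δ : Fin 3 → ℕ) :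
    ((smE c₀ δ c₀ : ℝ) : UnitAddCircle) = sm δ := by
  have h : smE c₀ δ c₀ = ∑ l, δ l • sl l := by
    unfold smE sE
    simp
  rw [h]
  unfold sm
  push_cast
  rfl

/-- The towers on `E n`. -/
def pj (c₀ : Fin n) (j : ℕ) (x : E n) : Fin 3 → ℕ := (PT j).1 ((x c₀ : ℝ) : UnitAddCircle)

theorem coe_int_eq_zero (k : ℤ) : (((k : ℝ)) : UnitAddCircle) = 0 := by
  rw [AddCircle.coe_eq_zero_iff]
  exact ⟨k, by simp⟩

theorem coe_coord_add_lat (c₀ : Fin n) (x : E n) (m : Fin n → ℤ) :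
    (((x + lat 1 m) c₀ : ℝ) : UnitAddCircle) = ((x c₀ : ℝ) : UnitAddCircle) := by
  rw [PiLp.add_apply, lat_apply, Nat.cast_one, div_one, AddCircle.coe_add, coe_int_eq_zero, add_zero]

theorem PLC.circle {α : Type*} (c₀ : Fin n) {F : UnitAddCircle → α}
    (h : ∀ᵐ y : ℝ, ∀ᶠ z : ℝ in 𝓝 y, F (z : UnitAddCircle) = F (y : UnitAddCircle)) :
    PLC (fun x : E n => F ((x c₀ : ℝ) : UnitAddCircle)) :=
  ⟨LC.coord (F := fun y : ℝ => F (y : UnitAddCircle)) c₀ h,
    fun x m => by rw [coe_coord_add_lat]⟩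

theorem PLC.q (c₀ : Fin n) (m : ℕ) : PLC (fun x : E n => q m ((x c₀ : ℝ) : UnitAddCircle)) := by
  refine PLC.pi (F := fun (l : Fin 3) (x : E n) => dig (3 * m + 2 + l) ((x c₀ : ℝ) : UnitAddCircle))
    fun l => ?_
  refine PLC.circle c₀ ?_
  have h := ae_floor ((3 * m + 2 + (l : ℕ) + 1).factorial : ℝ) 0 (by positivity)
  filter_upwards [h] with y hy
  filter_upwards [hy] with z hz
  simp only [add_zero] at hz
  rw [dig_coe, dig_coe]
  unfold digR
  rw [hz]

theorem PLC.pj (c₀ : Fin n) (j : ℕ) : PLC (pj c₀ j) := by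
  induction j with
  | zero => exact PLC.const 0
  | succ j ih =>
    have h1 : PLC (fun x : E n => (fun (δ : Fin 3 → ℕ) (x : E n) =>
        δ + Pool.Agent.Lib.MP_28492a_gt.q (stepIdx (PT j) j) (((x - smE c₀ δ) c₀ : ℝ) : UnitAddCircle))
          (Pool.Agent.Lib.MP_28492a_gt.pj c₀ j x) x) := by
      refine PLC.bind (F := fun (δ : Fin 3 → ℕ) (x : E n) =>
        δ + Pool.Agent.Lib.MP_28492a_gt.q (stepIdx (PT j) j) (((x - smE c₀ δ) c₀ : ℝ) : UnitAddCircle)) ih ?_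
      intro δ
      have := (PLC.q c₀ (stepIdx (PT j) j)).sub_right (smE c₀ δ)
      exact this.comp fun a => δ + a
    have e : Pool.Agent.Lib.MP_28492a_gt.pj c₀ (j + 1) = fun x : E n => (fun (δ : Fin 3 → ℕ) (x : E n) =>
        δ + Pool.Agent.Lib.MP_28492a_gt.q (stepIdx (PT j) j) (((x - smE c₀ δ) c₀ : ℝ) : UnitAddCircle))
          (Pool.Agent.Lib.MP_28492a_gt.pj c₀ j x) x := by
      funext x
      show (PT (j + 1)).1 _ = _
      rw [PT_succ]
      unfold stp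
      show _ = Pool.Agent.Lib.MP_28492a_gt.pj c₀ j x + _
      simp only [PiLp.sub_apply, AddCircle.coe_sub, smE_apply]
      rfl
    rw [e]; exact h1

/-- Good points. -/
def GdE (c₀ : Fin n) (j : ℕ) (x : E n) : Prop :=
  ∀ l : Fin 3, pj c₀ j (x + sE c₀ l) = pj c₀ j x + Pi.single l 1

theorem GdE_iff (c₀ : Fin n) (j : ℕ) (x : E n) :
    GdE c₀ j x ↔ Gd (PT j).1 ((x c₀ : ℝ) : UnitAddCircle) := by
  unfold GdE Gd pj sE
  simp only [PiLp.add_apply, ev_apply_self, AddCircle.coe_add]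

theorem GdE.succ {c₀ : Fin n} {j : ℕ} {x : E n} (h : GdE c₀ j x) : GdE c₀ (j + 1) x := by
  rw [GdE_iff] at h ⊢
  exact PT_good j h

theorem GdE.mono {c₀ : Fin n} {j k : ℕ} (hjk : j ≤ k) {x : E n} (h : GdE c₀ j x) : GdE c₀ k x := by
  induction hjk with
  | refl => exact h
  | step _ ih => exact ih.succ

theorem pj_mono (c₀ : Fin n) (j : ℕ) (x : E n) (l : Fin 3) : pj c₀ j x l ≤ pj c₀ (j + 1) x l := by
  show _ ≤ (PT (j + 1)).1 _ l
  rw [PT_succ]
  exact Nat.le_add_right _ _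

theorem GdE_ae (c₀ : Fin n) : ∀ᵐ x : E n, ∃ j, GdE c₀ j x := by
  have h1 : ∀ a : ℤ, ∀ᵐ y : ℝ, y ∈ Set.Ioc (a : ℝ) (a + 1) →
      ∃ j, Gd (PT j).1 (y : UnitAddCircle) := by
    intro a
    have := (UnitAddCircle.measurePreserving_mk (a : ℝ)).quasiMeasurePreserving.ae PT_ae
    rwa [ae_restrict_iff' measurableSet_Ioc] at this
  have h2 : ∀ᵐ y : ℝ, ∃ j, Gd (PT j).1 (y : UnitAddCircle) := by
    filter_upwards [ae_all_iff.mpr h1] with y hy
    refine hy (⌈y⌉ - 1) ⟨?_, ?_⟩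
    · push_cast
      have := Int.ceil_lt_add_one y
      linarith
    · push_cast
      have := Int.le_ceil y
      linarith
  filter_upwards [ae_coord c₀ h2] with x hx
  obtain ⟨j, hj⟩ := hx
  exact ⟨j, (GdE_iff c₀ j x).mpr hj⟩

theorem PLC.GdE (c₀ : Fin n) (j : ℕ) : PLC (GdE c₀ j) := by
  have h : PLC (fun x : E n => fun l : Fin 3 =>
      (Pool.Agent.Lib.MP_28492a_gt.pj c₀ j (x + sE c₀ l), Pool.Agent.Lib.MP_28492a_gt.pj c₀ j x)) :=
    PLC.pi (F := fun l x => (Pool.Agent.Lib.MP_28492a_gt.pj c₀ j (x + sE c₀ l),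
      Pool.Agent.Lib.MP_28492a_gt.pj c₀ j x)) fun l =>
      PLC.comp₂ Prod.mk ((PLC.pj c₀ j).add_right _) (PLC.pj c₀ j)
  exact h.comp (fun g : Fin 3 → (Fin 3 → ℕ) × (Fin 3 → ℕ) =>
    ∀ l, (g l).1 = (g l).2 + Pi.single l 1)

open Classical in
/-- Least number with a property. -/
def lvlP (P : ℕ → Prop) : ℕ := if h : ∃ j, P j then Nat.find h else 0

/-- First good level. -/
def lvl (c₀ : Fin n) (x : E n) : ℕ := lvlP fun j => GdE c₀ j x

theorem lvl_spec {c₀ : Fin n} {x : E n} (h : ∃ j, GdE c₀ j x) : GdE c₀ (lvl c₀ x) x := by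
  classical
  unfold lvl lvlP
  rw [dif_pos h]
  exact Nat.find_spec h

theorem lvl_le {c₀ : Fin n} {x : E n} {j : ℕ} (h : GdE c₀ j x) : lvl c₀ x ≤ j := by
  classical
  unfold lvl lvlP
  rw [dif_pos ⟨j, h⟩]
  exact Nat.find_min' _ h

theorem PLC.lvl (c₀ : Fin n) : PLC (lvl c₀) := by
  constructor
  · have h1 : ∀ᵐ x : E n, ∀ j, ∀ᶠ y in 𝓝 x, Pool.Agent.Lib.MP_28492a_gt.GdE c₀ j y
        = Pool.Agent.Lib.MP_28492a_gt.GdE c₀ j x := ae_all_iff.mpr fun j => (PLC.GdE c₀ j).lc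
    filter_upwards [h1, GdE_ae c₀] with x hx hex
    have h2 : ∀ᶠ y in 𝓝 x, ∀ j ∈ Finset.range (Pool.Agent.Lib.MP_28492a_gt.lvl c₀ x + 1),
        Pool.Agent.Lib.MP_28492a_gt.GdE c₀ j y = Pool.Agent.Lib.MP_28492a_gt.GdE c₀ j x := by
      rw [Filter.eventually_all_finset]
      exact fun j _ => hx j
    filter_upwards [h2] with y hy
    have g1 : Pool.Agent.Lib.MP_28492a_gt.GdE c₀ (Pool.Agent.Lib.MP_28492a_gt.lvl c₀ x) y := by
      rw [hy _ (Finset.mem_range.mpr (Nat.lt_succ_self _))]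
      exact lvl_spec hex
    refine le_antisymm (lvl_le g1) ?_
    have g2 := lvl_spec ⟨_, g1⟩
    have g3 := lvl_le g1
    rw [hy _ (Finset.mem_range.mpr (Nat.lt_succ_of_le g3))] at g2
    exact lvl_le g2
  · intro x m
    have h : ∀ j, Pool.Agent.Lib.MP_28492a_gt.GdE c₀ j (x + lat 1 m)
        = Pool.Agent.Lib.MP_28492a_gt.GdE c₀ j x := fun j => (PLC.GdE c₀ j).per x m
    exact congrArg lvlP (funext h)

/-- Glueing of local primitives. -/
theorem glue {A : Type*} [AddCommGroup A] (c₀ : Fin n) (l : Fin 3) {b a : ℕ → E n → A}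
    (hb : ∀ j, PLC (b j)) (ha : ∀ j, PLC (a j))
    (h : ∀ᵐ x, ∀ j, GdE c₀ j x → b (j + 1) x - b j x = a j (x + sE c₀ l) - a j x) :
    ∃ β : E n → A, PLC β ∧ ∀ᵐ x, ∀ J, GdE c₀ J x →
      β x = b J x - ∑ i ∈ Finset.range J, (a i (x + sE c₀ l) - a i x) := by
  refine ⟨fun x => b (lvl c₀ x) x - ∑ i ∈ Finset.range (lvl c₀ x), (a i (x + sE c₀ l) - a i x),
    ?_, ?_⟩
  · exact PLC.bind (F := fun J x => b J x - ∑ i ∈ Finset.range J, (a i (x + sE c₀ l) - a i x))
      (PLC.lvl c₀) fun J => (hb J).sub (PLC.finset_sum _ fun i _ => ((ha i).add_right _).sub (ha i))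
  · filter_upwards [h] with x hx J hJ
    have h1 : ∀ k, lvl c₀ x ≤ k → b k x - ∑ i ∈ Finset.range k, (a i (x + sE c₀ l) - a i x)
        = b (lvl c₀ x) x - ∑ i ∈ Finset.range (lvl c₀ x), (a i (x + sE c₀ l) - a i x) := by
      intro k hk
      induction hk with
      | refl => rfl
      | step hk ih =>
        rw [← ih, Finset.sum_range_succ, ← hx _ ((lvl_spec ⟨J, hJ⟩).mono hk)]
        abel
    exact (h1 J (lvl_le hJ)).symm

end

end Pool.Agent.Lib.MP_28492a_gt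
end

section

set_option autoImplicit false

open MeasureTheory Filter Topology

namespace Pool.Agent.Lib.MP_28492a_gt

noncomputable section

variable {n : ℕ}

theorem add_sub_succ (x S : E n) (i : ℕ) : x + S - (i + 1) • S = x - i • S := by
  rw [succ_nsmul]; abel

theorem sum_range_shift {A : Type*} [AddCommGroup A] (f : E n → A) (x S : E n) (k : ℕ) :
    ∑ i ∈ Finset.range (k + 1), f (x + S - (i + 1) • S)
      = ∑ i ∈ Finset.range k, f (x - (i + 1) • S) + f x := by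
  rw [Finset.sum_range_succ']
  congr 1
  · refine Finset.sum_congr rfl fun i _ => ?_
    rw [add_sub_succ]
  · rw [add_sub_succ]; simp

theorem sum_Ico_shift {A : Type*} [AddCommGroup A] (f : E n → A) (x S : E n) (a b : ℕ) :
    ∑ i ∈ Finset.Ico (a + 1) (b + 1), f (x + S - (i + 1) • S)
      = ∑ i ∈ Finset.Ico a b, f (x - (i + 1) • S) := by
  rw [← Finset.sum_Ico_add']
  refine Finset.sum_congr rfl fun i _ => ?_
  rw [add_sub_succ]

theorem GdE.self {c₀ : Fin n} {j : ℕ} {x : E n} (h : GdE c₀ j x) (l : Fin 3) :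
    pj c₀ j (x + sE c₀ l) l = pj c₀ j x l + 1 := by
  rw [h l]; simp

theorem GdE.other {c₀ : Fin n} {j : ℕ} {x : E n} (h : GdE c₀ j x) {l m : Fin 3} (hlm : m ≠ l) :
    pj c₀ j (x + sE c₀ l) m = pj c₀ j x m := by
  rw [h l]; simp [hlm]

theorem exists_GdE_all (c₀ : Fin n) : ∀ᵐ x : E n, ∃ J, GdE c₀ J x ∧ ∀ l, GdE c₀ J (x + sE c₀ l) := by
  have h1 : ∀ᵐ x : E n, ∀ l, ∃ j, GdE c₀ j (x + sE c₀ l) :=
    ae_all_iff.mpr fun l => ae_add (GdE_ae c₀) (sE c₀ l)
  filter_upwards [GdE_ae c₀, h1] with x hx hx'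
  obtain ⟨j, hj⟩ := hx
  choose k hk using hx'
  refine ⟨j + ∑ l, k l, hj.mono (Nat.le_add_right _ _), fun l => (hk l).mono ?_⟩
  exact (Finset.single_le_sum (f := k) (fun _ _ => Nat.zero_le _) (Finset.mem_univ l)).trans
    (Nat.le_add_left _ _)

/-- Every periodic function is a sum of two differences along the rotation vectors. -/
theorem div_aux {A : Type*} [AddCommGroup A] (c₀ : Fin n) {φ : E n → A} (hφ : PLC φ) :
    ∃ b0 b1 : E n → A, PLC b0 ∧ PLC b1 ∧
      ∀ᵐ x, φ x = (b1 (x + sE c₀ 0) - b1 x) - (b0 (x + sE c₀ 1) - b0 x) := by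
  let b : ℕ → E n → A := fun j x =>
    - ∑ i ∈ Finset.range (pj c₀ j x 1), φ (x - (i + 1) • sE c₀ 1)
  let a : ℕ → E n → A := fun j x =>
    - ∑ i' ∈ Finset.range (pj c₀ j x 0), ∑ i ∈ Finset.Ico (pj c₀ j x 1) (pj c₀ (j + 1) x 1),
      φ (x - (i' + 1) • sE c₀ 0 - (i + 1) • sE c₀ 1)
  have hb : ∀ j, PLC (b j) := fun j =>
    PLC.bind (F := fun (p : Fin 3 → ℕ) x => - ∑ i ∈ Finset.range (p 1), φ (x - (i + 1) • sE c₀ 1))
      (PLC.pj c₀ j) fun p => (PLC.finset_sum _ fun i _ => hφ.sub_right _).neg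
  have ha : ∀ j, PLC (a j) := fun j =>
    PLC.bind (F := fun (p : (Fin 3 → ℕ) × (Fin 3 → ℕ)) x =>
      - ∑ i' ∈ Finset.range (p.1 0), ∑ i ∈ Finset.Ico (p.1 1) (p.2 1),
        φ (x - (i' + 1) • sE c₀ 0 - (i + 1) • sE c₀ 1))
      (PLC.comp₂ Prod.mk (PLC.pj c₀ j) (PLC.pj c₀ (j + 1))) fun p =>
      (PLC.finset_sum _ fun i _ => PLC.finset_sum _ fun i' _ =>
        (hφ.sub_right _).sub_right _).neg
  have hdb : ∀ j x, GdE c₀ j x → b j (x + sE c₀ 1) - b j x = - φ x := by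
    intro j x hx
    simp only [b]
    rw [hx.self 1, sum_range_shift]
    abel
  have hd0 : ∀ j x, GdE c₀ j x → b (j + 1) x - b j x = a j (x + sE c₀ 0) - a j x := by
    intro j x hx
    simp only [b, a]
    rw [hx.self 0, hx.other (show (1 : Fin 3) ≠ 0 by decide),
      hx.succ.other (show (1 : Fin 3) ≠ 0 by decide)]
    rw [sum_range_shift (fun y => ∑ i ∈ Finset.Ico (pj c₀ j x 1) (pj c₀ (j + 1) x 1),
      φ (y - (i + 1) • sE c₀ 1))]
    rw [Finset.sum_Ico_eq_sub _ (pj_mono c₀ j x 1)]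
    abel
  have hd1 : ∀ j x, GdE c₀ j x → (0 : A) - 0 = a j (x + sE c₀ 1) - a j x := by
    intro j x hx
    simp only [a]
    rw [hx.self 1, hx.other (show (0 : Fin 3) ≠ 1 by decide), hx.succ.self 1]
    have : ∀ i' : ℕ, ∑ i ∈ Finset.Ico (pj c₀ j x 1 + 1) (pj c₀ (j + 1) x 1 + 1),
        φ (x + sE c₀ 1 - (i' + 1) • sE c₀ 0 - (i + 1) • sE c₀ 1)
        = ∑ i ∈ Finset.Ico (pj c₀ j x 1) (pj c₀ (j + 1) x 1),
        φ (x - (i' + 1) • sE c₀ 0 - (i + 1) • sE c₀ 1) := by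
      intro i'
      refine Eq.trans ?_ (sum_Ico_shift φ (x - (i' + 1) • sE c₀ 0) (sE c₀ 1) _ _)
      refine Finset.sum_congr rfl fun i _ => ?_
      congr 1
      abel
    simp only [this, sub_self]
  obtain ⟨β0, hβ0, h0⟩ := glue c₀ 0 hb ha (Eventually.of_forall fun x j hx => hd0 j x hx)
  obtain ⟨β1, hβ1, h1⟩ := glue c₀ 1 (b := fun _ _ => (0 : A)) (fun _ => PLC.const 0) ha
    (Eventually.of_forall fun x j hx => hd1 j x hx)
  refine ⟨β0, β1, hβ0, hβ1, ?_⟩
  filter_upwards [exists_GdE_all c₀, h0, h1, ae_add h0 (sE c₀ 1), ae_add h1 (sE c₀ 0)]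
    with x hx e0 e1 e0' e1'
  obtain ⟨J, hJ, hJl⟩ := hx
  rw [e0 J hJ, e1 J hJ, e0' J (hJl 1), e1' J (hJl 0)]
  have h2 := hdb J x hJ
  have h3 : ∑ i ∈ Finset.range J, (a i (x + sE c₀ 0 + sE c₀ 1) - a i (x + sE c₀ 0))
      - ∑ i ∈ Finset.range J, (a i (x + sE c₀ 1) - a i x)
      = ∑ i ∈ Finset.range J, (a i (x + sE c₀ 1 + sE c₀ 0) - a i (x + sE c₀ 1))
      - ∑ i ∈ Finset.range J, (a i (x + sE c₀ 0) - a i x) := by
    rw [← Finset.sum_sub_distrib, ← Finset.sum_sub_distrib]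
    refine Finset.sum_congr rfl fun i _ => ?_
    rw [add_right_comm x (sE c₀ 0) (sE c₀ 1)]
    abel
  have h4 : φ x = - (b J (x + sE c₀ 1) - b J x) := by rw [h2, neg_neg]
  rw [h4]
  simp only [zero_sub]
  have h5 := sub_eq_sub_iff_add_eq_add.mp h3
  have e : ∀ (P Q R S B B' : A), P + R = Q + S →
      -(B' - B) = -P - -S - (B' - Q - (B - R)) := by
    intro P Q R S B B' h
    have : Q = P + R - S := by rw [h]; abel
    rw [this]; abel
  exact e _ _ _ _ _ _ h5

section tor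

variable {A : Type*} [AddCommGroup A] (c₀ : Fin n)

/-- local primitive -/
def bs (f : E n → A) (p : Fin 3 → ℕ) (x : E n) : A :=
  - ∑ i ∈ Finset.range (p 2), f (x - (i + 1) • sE c₀ 2)

/-- difference of local primitives -/
def Hs (f : E n → A) (p q : Fin 3 → ℕ) (z : E n) : A :=
  - ∑ i ∈ Finset.Ico (p 2) (q 2), f (z - (i + 1) • sE c₀ 2)

/-- primitive of the difference -/
def as (f0 f1 : E n → A) (p q : Fin 3 → ℕ) (x : E n) : A :=
  ∑ i ∈ Finset.range (p 0), Hs c₀ f0 p q (x - (i + 1) • sE c₀ 0 - p 1 • sE c₀ 1)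
      + ∑ i ∈ Finset.range (p 1), Hs c₀ f1 p q (x - (i + 1) • sE c₀ 1)

variable {c₀}

theorem PLC.bs {f : E n → A} (hf : PLC f) (j : ℕ) :
    PLC (fun x => bs c₀ f (Pool.Agent.Lib.MP_28492a_gt.pj c₀ j x) x) :=
  PLC.bind (F := fun p x => Pool.Agent.Lib.MP_28492a_gt.bs c₀ f p x)
    (PLC.pj c₀ j) fun _ => (PLC.finset_sum _ fun _ _ => hf.sub_right _).neg

theorem PLC.Hs {f : E n → A} (hf : PLC f) (p q : Fin 3 → ℕ) :
    PLC (Hs c₀ f p q) :=
  (PLC.finset_sum _ fun _ _ => hf.sub_right _).neg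

theorem PLC.as' {f0 f1 : E n → A} (hf0 : PLC f0) (hf1 : PLC f1) (p q : Fin 3 → ℕ) :
    PLC (fun x => Pool.Agent.Lib.MP_28492a_gt.as c₀ f0 f1 p q x) := by
  refine PLC.add (F := fun x => ∑ i ∈ Finset.range (p 0),
    Pool.Agent.Lib.MP_28492a_gt.Hs c₀ f0 p q (x - (i + 1) • sE c₀ 0 - p 1 • sE c₀ 1))
    (H := fun x => ∑ i ∈ Finset.range (p 1),
    Pool.Agent.Lib.MP_28492a_gt.Hs c₀ f1 p q (x - (i + 1) • sE c₀ 1)) ?_ ?_
  · refine PLC.finset_sum _ fun i _ => ?_
    exact ((PLC.Hs (c₀ := c₀) hf0 p q).sub_right (p 1 • sE c₀ 1)).sub_right ((i + 1) • sE c₀ 0)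
  · refine PLC.finset_sum _ fun i _ => ?_
    exact (PLC.Hs (c₀ := c₀) hf1 p q).sub_right ((i + 1) • sE c₀ 1)

theorem PLC.as {f0 f1 : E n → A} (hf0 : PLC f0) (hf1 : PLC f1) (j : ℕ) :
    PLC (fun x => as c₀ f0 f1 (Pool.Agent.Lib.MP_28492a_gt.pj c₀ j x)
      (Pool.Agent.Lib.MP_28492a_gt.pj c₀ (j + 1) x) x) := by
  have h1 : PLC (fun x => (Pool.Agent.Lib.MP_28492a_gt.pj c₀ j x,
      Pool.Agent.Lib.MP_28492a_gt.pj c₀ (j + 1) x)) :=
    PLC.comp₂ Prod.mk (PLC.pj c₀ j) (PLC.pj c₀ (j + 1))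
  have h2 := PLC.bind (F := fun (p : (Fin 3 → ℕ) × (Fin 3 → ℕ)) x =>
      Pool.Agent.Lib.MP_28492a_gt.as c₀ f0 f1 p.1 p.2 x) h1
    fun p => PLC.as' hf0 hf1 p.1 p.2
  exact h2

theorem bs_diff (f : E n → A) {j : ℕ} {x : E n} (hx : GdE c₀ j x) :
    bs c₀ f (pj c₀ j (x + sE c₀ 2)) (x + sE c₀ 2) - bs c₀ f (pj c₀ j x) x = - f x := by
  unfold bs
  rw [hx.self 2, sum_range_shift]
  abel

theorem bs_step (f : E n → A) (j : ℕ) (x : E n) :
    bs c₀ f (pj c₀ (j + 1) x) x - bs c₀ f (pj c₀ j x) x = Hs c₀ f (pj c₀ j x) (pj c₀ (j + 1) x) x := by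
  unfold bs Hs
  rw [Finset.sum_Ico_eq_sub _ (pj_mono c₀ j x 2)]
  abel

theorem Hs_congr (f : E n → A) {p q p' q' : Fin 3 → ℕ} (hp : p 2 = p' 2) (hq : q 2 = q' 2) :
    Hs c₀ f p q = Hs c₀ f p' q' := by
  funext z
  unfold Hs
  rw [hp, hq]

theorem Hs_shift (f : E n → A) {p q p' q' : Fin 3 → ℕ} (hp : p' 2 = p 2 + 1) (hq : q' 2 = q 2 + 1)
    (z : E n) : Hs c₀ f p' q' z = Hs c₀ f p q (z - sE c₀ 2) := by
  have := sum_Ico_shift f (z - sE c₀ 2) (sE c₀ 2) (p 2) (q 2)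
  rw [sub_add_cancel] at this
  unfold Hs
  rw [hp, hq, this]

/-- Closedness on backward orbits. -/
def Cl (c₀ : Fin n) (f0 f1 : E n → A) (x : E n) : Prop :=
  ∀ m : Fin 3 → ℕ, f1 (x - smE c₀ m + sE c₀ 0) - f1 (x - smE c₀ m)
      = f0 (x - smE c₀ m + sE c₀ 1) - f0 (x - smE c₀ m)

theorem Cl_ae {f0 f1 : E n → A}
    (hcl : ∀ᵐ x, f1 (x + sE c₀ 0) - f1 x = f0 (x + sE c₀ 1) - f0 x) :
    ∀ᵐ x, Cl c₀ f0 f1 x := ae_all_iff.mpr fun m => ae_sub hcl (smE c₀ m)

theorem smE_vec (m i : ℕ) : smE c₀ ![0, m, i] = m • sE c₀ 1 + i • sE c₀ 2 := by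
  simp [smE, Fin.sum_univ_three]

theorem Cl.Hs {f0 f1 : E n → A} {x : E n} (hx : Cl c₀ f0 f1 x) (p q : Fin 3 → ℕ) (m : ℕ) :
    Hs c₀ f1 p q (x - m • sE c₀ 1 + sE c₀ 0) - Hs c₀ f1 p q (x - m • sE c₀ 1)
      = Hs c₀ f0 p q (x - m • sE c₀ 1 + sE c₀ 1) - Hs c₀ f0 p q (x - m • sE c₀ 1) := by
  unfold Pool.Agent.Lib.MP_28492a_gt.Hs
  rw [neg_sub_neg, neg_sub_neg, ← Finset.sum_sub_distrib, ← Finset.sum_sub_distrib]
  refine Finset.sum_congr rfl fun i _ => ?_
  have := hx ![0, m, i + 1]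
  rw [smE_vec] at this
  rw [← neg_sub, ← neg_sub (f0 _)]
  have e1 : x - m • sE c₀ 1 + sE c₀ 0 - (i + 1) • sE c₀ 2
      = x - (m • sE c₀ 1 + (i + 1) • sE c₀ 2) + sE c₀ 0 := by abel
  have e2 : x - m • sE c₀ 1 + sE c₀ 1 - (i + 1) • sE c₀ 2
      = x - (m • sE c₀ 1 + (i + 1) • sE c₀ 2) + sE c₀ 1 := by abel
  have e3 : x - m • sE c₀ 1 - (i + 1) • sE c₀ 2
      = x - (m • sE c₀ 1 + (i + 1) • sE c₀ 2) := by abel
  rw [e1, e2, e3, this]

theorem as_zero {f0 f1 : E n → A} {x : E n} (hx : Cl c₀ f0 f1 x) {j : ℕ} (hj : GdE c₀ j x) :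
    Hs c₀ f0 (pj c₀ j x) (pj c₀ (j + 1) x) x =
      as c₀ f0 f1 (pj c₀ j (x + sE c₀ 0)) (pj c₀ (j + 1) (x + sE c₀ 0)) (x + sE c₀ 0)
      - as c₀ f0 f1 (pj c₀ j x) (pj c₀ (j + 1) x) x := by
  unfold as
  rw [hj.self 0, hj.other (show (1 : Fin 3) ≠ 0 by decide),
    Hs_congr f0 (hj.other (show (2 : Fin 3) ≠ 0 by decide)) (hj.succ.other (show (2 : Fin 3) ≠ 0 by decide)),
    Hs_congr f1 (hj.other (show (2 : Fin 3) ≠ 0 by decide)) (hj.succ.other (show (2 : Fin 3) ≠ 0 by decide))]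
  generalize pj c₀ j x = p
  generalize pj c₀ (j + 1) x = q
  have h1 : ∑ i ∈ Finset.range (p 0 + 1),
      Hs c₀ f0 p q (x + sE c₀ 0 - (i + 1) • sE c₀ 0 - p 1 • sE c₀ 1)
      = ∑ i ∈ Finset.range (p 0), Hs c₀ f0 p q (x - (i + 1) • sE c₀ 0 - p 1 • sE c₀ 1)
        + Hs c₀ f0 p q (x - p 1 • sE c₀ 1) :=
    sum_range_shift (fun y => Hs c₀ f0 p q (y - p 1 • sE c₀ 1)) x (sE c₀ 0) (p 0)
  rw [h1]
  have h2 : ∑ i ∈ Finset.range (p 1), Hs c₀ f1 p q (x + sE c₀ 0 - (i + 1) • sE c₀ 1)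
      - ∑ i ∈ Finset.range (p 1), Hs c₀ f1 p q (x - (i + 1) • sE c₀ 1)
      = Hs c₀ f0 p q x - Hs c₀ f0 p q (x - p 1 • sE c₀ 1) := by
    rw [← Finset.sum_sub_distrib]
    have h3 : ∀ i ∈ Finset.range (p 1),
        Hs c₀ f1 p q (x + sE c₀ 0 - (i + 1) • sE c₀ 1) - Hs c₀ f1 p q (x - (i + 1) • sE c₀ 1)
        = Hs c₀ f0 p q (x - i • sE c₀ 1) - Hs c₀ f0 p q (x - (i + 1) • sE c₀ 1) := by
      intro i _
      have h4 := hx.Hs p q (i + 1)
      have e1 : x + sE c₀ 0 - (i + 1) • sE c₀ 1 = x - (i + 1) • sE c₀ 1 + sE c₀ 0 := by abel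
      have e2 : x - (i + 1) • sE c₀ 1 + sE c₀ 1 = x - i • sE c₀ 1 := by
        rw [succ_nsmul]; abel
      rw [e1, h4, e2]
    rw [Finset.sum_congr rfl h3,
      Finset.sum_range_sub' (fun i => Hs c₀ f0 p q (x - i • sE c₀ 1))]
    simp
  have e : ∀ (P Q S T U : A), S - T = U - Q → U = P + Q + S - (P + T) := by
    intro P Q S T U h
    have : S = U - Q + T := by rw [← h]; abel
    rw [this]; abel
  exact e _ _ _ _ _ h2

theorem as_one (f0 f1 : E n → A) {x : E n} {j : ℕ} (hj : GdE c₀ j x) :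
    Hs c₀ f1 (pj c₀ j x) (pj c₀ (j + 1) x) x =
      as c₀ f0 f1 (pj c₀ j (x + sE c₀ 1)) (pj c₀ (j + 1) (x + sE c₀ 1)) (x + sE c₀ 1)
      - as c₀ f0 f1 (pj c₀ j x) (pj c₀ (j + 1) x) x := by
  unfold as
  rw [hj.self 1, hj.other (show (0 : Fin 3) ≠ 1 by decide),
    Hs_congr f0 (hj.other (show (2 : Fin 3) ≠ 1 by decide)) (hj.succ.other (show (2 : Fin 3) ≠ 1 by decide)),
    Hs_congr f1 (hj.other (show (2 : Fin 3) ≠ 1 by decide)) (hj.succ.other (show (2 : Fin 3) ≠ 1 by decide))]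
  generalize pj c₀ j x = p
  generalize pj c₀ (j + 1) x = q
  have h1 : ∀ i ∈ Finset.range (p 0),
      Hs c₀ f0 p q (x + sE c₀ 1 - (i + 1) • sE c₀ 0 - (p 1 + 1) • sE c₀ 1)
      = Hs c₀ f0 p q (x - (i + 1) • sE c₀ 0 - p 1 • sE c₀ 1) := by
    intro i _
    congr 1
    rw [succ_nsmul (sE c₀ 1)]; abel
  rw [Finset.sum_congr rfl h1, sum_range_shift]
  abel

theorem as_two (f0 f1 : E n → A) {x : E n} {j : ℕ} (hj : GdE c₀ j x) :
    (0 : A) - 0 =
      as c₀ f0 f1 (pj c₀ j (x + sE c₀ 2)) (pj c₀ (j + 1) (x + sE c₀ 2)) (x + sE c₀ 2)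
      - as c₀ f0 f1 (pj c₀ j x) (pj c₀ (j + 1) x) x := by
  have h0 : ∀ f : E n → A, ∀ z, Hs c₀ f (pj c₀ j (x + sE c₀ 2)) (pj c₀ (j + 1) (x + sE c₀ 2)) z
      = Hs c₀ f (pj c₀ j x) (pj c₀ (j + 1) x) (z - sE c₀ 2) := fun f z =>
    Hs_shift f (hj.self 2) (hj.succ.self 2) z
  unfold as
  simp only [h0]
  rw [hj.other (show (0 : Fin 3) ≠ 2 by decide), hj.other (show (1 : Fin 3) ≠ 2 by decide)]
  have e1 : ∀ i : ℕ, x + sE c₀ 2 - (i + 1) • sE c₀ 0 - pj c₀ j x 1 • sE c₀ 1 - sE c₀ 2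
      = x - (i + 1) • sE c₀ 0 - pj c₀ j x 1 • sE c₀ 1 := fun i => by abel
  have e2 : ∀ i : ℕ, x + sE c₀ 2 - (i + 1) • sE c₀ 1 - sE c₀ 2
      = x - (i + 1) • sE c₀ 1 := fun i => by abel
  simp only [e1, e2, sub_self]

/-- Closed pairs of periodic functions are exact. -/
theorem tor_aux {f0 f1 : E n → A} (hf0 : PLC f0) (hf1 : PLC f1)
    (hcl : ∀ᵐ x, f1 (x + sE c₀ 0) - f1 x = f0 (x + sE c₀ 1) - f0 x) :
    ∃ b0 b1 b2 : E n → A, PLC b0 ∧ PLC b1 ∧ PLC b2 ∧
      (∀ᵐ x, b1 (x + sE c₀ 0) - b1 x = b0 (x + sE c₀ 1) - b0 x) ∧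
      (∀ᵐ x, f0 x = (b2 (x + sE c₀ 0) - b2 x) - (b0 (x + sE c₀ 2) - b0 x)) ∧
      (∀ᵐ x, f1 x = (b2 (x + sE c₀ 1) - b2 x) - (b1 (x + sE c₀ 2) - b1 x)) := by
  have hC := Cl_ae hcl
  set a : ℕ → E n → A := fun j x => as c₀ f0 f1 (pj c₀ j x) (pj c₀ (j + 1) x) x with ha_def
  have ha : ∀ j, PLC (a j) := fun j => PLC.as hf0 hf1 j
  obtain ⟨β0, hβ0, h0⟩ := glue c₀ 0 (b := fun j x => bs c₀ f0 (pj c₀ j x) x)
    (fun j => PLC.bs hf0 j) ha (by
      filter_upwards [hC] with x hx j hj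
      rw [bs_step]
      exact as_zero hx hj)
  obtain ⟨β1, hβ1, h1⟩ := glue c₀ 1 (b := fun j x => bs c₀ f1 (pj c₀ j x) x)
    (fun j => PLC.bs hf1 j) ha (Eventually.of_forall fun x j hj => by
      rw [bs_step]
      exact as_one f0 f1 hj)
  obtain ⟨β2, hβ2, h2⟩ := glue c₀ 2 (b := fun _ _ => (0 : A)) (fun _ => PLC.const 0) ha
    (Eventually.of_forall fun x j hj => as_two f0 f1 hj)
  clear_value a
  -- the mixed differences of `a` cancel
  have key : ∀ (l m : Fin 3) (x : E n) (J : ℕ) (B B' P P' : A),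
      (P' - ∑ i ∈ Finset.range J, (a i (x + sE c₀ l + sE c₀ m) - a i (x + sE c₀ l)))
        - (P - ∑ i ∈ Finset.range J, (a i (x + sE c₀ m) - a i x))
      - ((B' - ∑ i ∈ Finset.range J, (a i (x + sE c₀ m + sE c₀ l) - a i (x + sE c₀ m)))
        - (B - ∑ i ∈ Finset.range J, (a i (x + sE c₀ l) - a i x)))
      = (P' - P) - (B' - B) := by
    intro l m x J B B' P P'
    have h3 : ∑ i ∈ Finset.range J, (a i (x + sE c₀ l + sE c₀ m) - a i (x + sE c₀ l))
        - ∑ i ∈ Finset.range J, (a i (x + sE c₀ m) - a i x)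
        = ∑ i ∈ Finset.range J, (a i (x + sE c₀ m + sE c₀ l) - a i (x + sE c₀ m))
        - ∑ i ∈ Finset.range J, (a i (x + sE c₀ l) - a i x) := by
      rw [← Finset.sum_sub_distrib, ← Finset.sum_sub_distrib]
      refine Finset.sum_congr rfl fun i _ => ?_
      rw [add_right_comm x (sE c₀ l) (sE c₀ m)]
      abel
    generalize ∑ i ∈ Finset.range J, (a i (x + sE c₀ l + sE c₀ m) - a i (x + sE c₀ l)) = U at *
    generalize ∑ i ∈ Finset.range J, (a i (x + sE c₀ m + sE c₀ l) - a i (x + sE c₀ m)) = V at *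
    generalize ∑ i ∈ Finset.range J, (a i (x + sE c₀ m) - a i x) = W at *
    generalize ∑ i ∈ Finset.range J, (a i (x + sE c₀ l) - a i x) = Z at *
    have : U = V - Z + W := by rw [← h3]; abel
    rw [this]; abel
  have shift0 := ae_all_iff.mpr fun l => ae_add h0 (sE c₀ l)
  have shift1 := ae_all_iff.mpr fun l => ae_add h1 (sE c₀ l)
  have shift2 := ae_all_iff.mpr fun l => ae_add h2 (sE c₀ l)
  refine ⟨β0, β1, β2, hβ0, hβ1, hβ2, ?_, ?_, ?_⟩
  · filter_upwards [exists_GdE_all c₀, h0, h1, shift0, shift1, hC] with x hx e0 e1 e0' e1' hc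
    obtain ⟨J, hJ, hJl⟩ := hx
    rw [← sub_eq_zero, e0 J hJ, e1 J hJ, e0' 1 J (hJl 1), e1' 0 J (hJl 0), key]
    rw [sub_eq_zero]
    unfold bs
    rw [hJ.other (show (2 : Fin 3) ≠ 0 by decide), hJ.other (show (2 : Fin 3) ≠ 1 by decide),
      neg_sub_neg, neg_sub_neg, ← Finset.sum_sub_distrib, ← Finset.sum_sub_distrib]
    refine Finset.sum_congr rfl fun i _ => ?_
    have := hc ![0, 0, i + 1]
    rw [smE_vec] at this
    rw [← neg_sub, ← neg_sub (f0 _)]
    have e1 : x + sE c₀ 0 - (i + 1) • sE c₀ 2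
        = x - (0 • sE c₀ 1 + (i + 1) • sE c₀ 2) + sE c₀ 0 := by rw [zero_nsmul]; abel
    have e2 : x + sE c₀ 1 - (i + 1) • sE c₀ 2
        = x - (0 • sE c₀ 1 + (i + 1) • sE c₀ 2) + sE c₀ 1 := by rw [zero_nsmul]; abel
    have e3 : x - (i + 1) • sE c₀ 2
        = x - (0 • sE c₀ 1 + (i + 1) • sE c₀ 2) := by rw [zero_nsmul]; abel
    rw [e1, e2, e3, this]
  · filter_upwards [exists_GdE_all c₀, h0, h2, shift0, shift2] with x hx e0 e2 e0' e2'
    obtain ⟨J, hJ, hJl⟩ := hx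
    rw [e0 J hJ, e2 J hJ, e0' 2 J (hJl 2), e2' 0 J (hJl 0), key, bs_diff f0 hJ]
    abel
  · filter_upwards [exists_GdE_all c₀, h1, h2, shift1, shift2] with x hx e1 e2 e1' e2'
    obtain ⟨J, hJ, hJl⟩ := hx
    rw [e1 J hJ, e2 J hJ, e1' 2 J (hJl 2), e2' 1 J (hJl 1), key, bs_diff f1 hJ]
    abel

end tor

end

end Pool.Agent.Lib.MP_28492a_gt
end

section

set_option autoImplicit false

open MeasureTheory Filter Topology

namespace Pool.Agent.Lib.MP_28492a_gt

noncomputable section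

variable {n : ℕ}

/-- Periodic, bounded, a.e. locally constant. -/
structure PB (h : E n → ℤ) : Prop where
  plc : PLC h
  bdd : ∃ C : ℤ, ∀ x, |h x| ≤ C

theorem PB.add {h g : E n → ℤ} (hh : PB h) (hg : PB g) : PB (fun x => h x + g x) := by
  refine ⟨hh.plc.add hg.plc, ?_⟩
  obtain ⟨C, hC⟩ := hh.bdd
  obtain ⟨D, hD⟩ := hg.bdd
  exact ⟨C + D, fun x => (abs_add_le _ _).trans (add_le_add (hC x) (hD x))⟩

theorem PB.neg {h : E n → ℤ} (hh : PB h) : PB (fun x => - h x) := by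
  refine ⟨hh.plc.neg, ?_⟩
  obtain ⟨C, hC⟩ := hh.bdd
  exact ⟨C, fun x => by rw [abs_neg]; exact hC x⟩

theorem PB.sub {h g : E n → ℤ} (hh : PB h) (hg : PB g) : PB (fun x => h x - g x) := by
  simpa [sub_eq_add_neg] using hh.add hg.neg

theorem PB.add_right {h : E n → ℤ} (hh : PB h) (t : E n) : PB (fun x => h (x + t)) := by
  refine ⟨hh.plc.add_right t, ?_⟩
  obtain ⟨C, hC⟩ := hh.bdd
  exact ⟨C, fun x => hC _⟩

theorem PB.sub_right {h : E n → ℤ} (hh : PB h) (t : E n) : PB (fun x => h (x - t)) := by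
  simpa [sub_eq_add_neg] using hh.add_right (-t)

theorem PB.zero : PB (fun _ : E n => (0 : ℤ)) := ⟨PLC.const 0, ⟨0, fun _ => by simp⟩⟩

theorem PB.finset_sum {ι : Type*} (s : Finset ι) {F : ι → E n → ℤ} (h : ∀ i ∈ s, PB (F i)) :
    PB (fun x => ∑ i ∈ s, F i x) := by
  classical
  induction s using Finset.induction_on with
  | empty => simpa using PB.zero
  | insert a s ha ih =>
    have h1 := (h a (Finset.mem_insert_self a s)).add
      (ih fun i hi => h i (Finset.mem_insert_of_mem hi))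
    have h2 : (fun x => ∑ i ∈ insert a s, F i x) = fun x => F a x + ∑ i ∈ s, F i x := by
      funext x; rw [Finset.sum_insert ha]
    rw [h2]; exact h1

theorem PB.per {F : E n → ℤ} (hF : JC F) : PB (Per 1 F) :=
  ⟨⟨hF.Per_lc one_pos, Per_periodic 1 F⟩, hF.Per_bdd one_pos⟩

theorem exists_lift {k : ℕ} (hk : 0 < k) {b : E n → ZMod k} (hb : PLC b) :
    ∃ h : E n → ℤ, PB h ∧ ∀ x, ((h x : ℤ) : ZMod k) = b x := by
  have : NeZero k := ⟨hk.ne'⟩
  refine ⟨fun x => ((b x).val : ℤ), ⟨hb.comp fun a => ((a.val : ℕ) : ℤ), ⟨k, fun x => ?_⟩⟩,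
    fun x => by simp⟩
  rw [abs_of_nonneg (by positivity)]
  exact_mod_cast (ZMod.val_lt (b x)).le

theorem exists_quot {k : ℕ} {U : E n → ℤ} (hU : PB U)
    (h : ∀ᵐ x, ((U x : ℤ) : ZMod k) = 0) : ∃ V : E n → ℤ, PB V ∧ ∀ᵐ x, U x = k * V x := by
  refine ⟨fun x => U x / k, ⟨hU.plc.comp fun a => a / (k : ℤ), ?_⟩, ?_⟩
  · obtain ⟨C, hC⟩ := hU.bdd
    exact ⟨C, fun x => (Int.abs_ediv_le_abs _ _).trans (hC x)⟩
  · filter_upwards [h] with x hx
    rw [ZMod.intCast_zmod_eq_zero_iff_dvd] at hx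
    exact (Int.mul_ediv_cancel' hx).symm

theorem PB.div (c₀ : Fin n) {h : E n → ℤ} (hh : PB h) {k : ℕ} (hk : 0 < k) :
    ∃ b0 b1 V : E n → ℤ, PB b0 ∧ PB b1 ∧ PB V ∧
      ∀ᵐ x, h x = (b1 (x + sE c₀ 0) - b1 x) - (b0 (x + sE c₀ 1) - b0 x) + k * V x := by
  obtain ⟨b0, b1, hb0, hb1, hb⟩ := div_aux c₀ (hh.plc.comp fun a : ℤ => (a : ZMod k))
  obtain ⟨B0, hB0, e0⟩ := exists_lift hk hb0
  obtain ⟨B1, hB1, e1⟩ := exists_lift hk hb1
  obtain ⟨V, hV, hV'⟩ := exists_quot (k := k)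
    (hh.sub (((hB1.add_right (sE c₀ 0)).sub hB1).sub ((hB0.add_right (sE c₀ 1)).sub hB0))) (by
      filter_upwards [hb] with x hx
      push_cast
      rw [e0, e0, e1, e1, hx, sub_self])
  refine ⟨B0, B1, V, hB0, hB1, hV, ?_⟩
  filter_upwards [hV'] with x hx
  rw [← hx]
  ring

theorem PB.cob {h : E n → ℤ} (hh : PB h) (t : E n) :
    Cob (fun x => if cell 1 x = 0 then h x - h (x - t) else 0) :=
  Cob.periodic hh.plc.lc hh.bdd hh.plc.per t

theorem PB.cob' {h : E n → ℤ} (hh : PB h) (t : E n) :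
    Cob (fun x => if cell 1 x = 0 then h (x + t) - h x else 0) := by
  refine (hh.cob (-t)).neg.congr (Eventually.of_forall fun x => ?_)
  rw [sub_neg_eq_add]
  split_ifs <;> ring

/-- Divisibility. -/
theorem exists_div (c₀ : Fin n) {F : E n → ℤ} (hF : JC F) {k : ℕ} (hk : 0 < k) :
    ∃ H : E n → ℤ, JC H ∧ Cob (fun x => F x - k * H x) := by
  obtain ⟨b0, b1, V, hb0, hb1, hV, h⟩ := (PB.per hF).div c₀ hk
  refine ⟨fun x => if cell 1 x = 0 then V x else 0, JC.of_cell one_pos hV.plc.lc hV.bdd, ?_⟩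
  refine (((Cob.per one_pos hF).add (hb1.cob' (sE c₀ 0))).sub (hb0.cob' (sE c₀ 1))).congr ?_
  filter_upwards [h] with x hx
  split_ifs with hc
  · rw [hx]; ring
  · ring

/-- Torsion-freeness. -/
theorem Cob.of_smul (c₀ : Fin n) {F : E n → ℤ} (hF : JC F) {k : ℕ} (hk : 0 < k)
    (h : Cob (fun x => (k : ℤ) * F x)) : Cob F := by
  have hk' : (k : ℤ) ≠ 0 := by exact_mod_cast hk.ne'
  obtain ⟨ι, _, t, w, hw, h1⟩ := h
  -- periodise
  have h2 : ∀ᵐ y, (k : ℤ) * Per 1 F y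
      = ∑ i, (Per 1 (w i) y - Per 1 (w i) (y - t i)) := by
    filter_upwards [Per_congr (N := 1) h1] with y hy
    rw [Per_smul one_pos hF, Per_finset_sum one_pos _
      (fun i _ => (hw i).sub ((hw i).sub_right (t i)))] at hy
    rw [hy]
    refine Finset.sum_congr rfl fun i _ => ?_
    rw [Per_sub one_pos (hw i) ((hw i).sub_right (t i)), Per_sub_right]
  choose b0 b1 V hb0 hb1 hV hd using fun i => (PB.per (hw i)).div c₀ hk
  set B0 : E n → ℤ := fun x => ∑ i, (b0 i x - b0 i (x - t i)) with hB0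
  set B1 : E n → ℤ := fun x => ∑ i, (b1 i x - b1 i (x - t i)) with hB1
  have pB0 : PB B0 := PB.finset_sum _ fun i _ => (hb0 i).sub ((hb0 i).sub_right (t i))
  have pB1 : PB B1 := PB.finset_sum _ fun i _ => (hb1 i).sub ((hb1 i).sub_right (t i))
  set W : E n → ℤ := fun x => ∑ i, (V i x - V i (x - t i)) with hW
  have pW : PB W := PB.finset_sum _ fun i _ => (hV i).sub ((hV i).sub_right (t i))
  have h3 : ∀ᵐ x, (B1 (x + sE c₀ 0) - B1 x) - (B0 (x + sE c₀ 1) - B0 x)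
      = k * (Per 1 F x - W x) := by
    have hd' : ∀ᵐ x, ∀ i, Per 1 (w i) x
        = (b1 i (x + sE c₀ 0) - b1 i x) - (b0 i (x + sE c₀ 1) - b0 i x) + k * V i x :=
      ae_all_iff.mpr hd
    have hd'' : ∀ᵐ x, ∀ j, ∀ i, Per 1 (w i) (x - t j)
        = (b1 i (x - t j + sE c₀ 0) - b1 i (x - t j))
          - (b0 i (x - t j + sE c₀ 1) - b0 i (x - t j)) + k * V i (x - t j) :=
      ae_all_iff.mpr fun j => ae_sub hd' (t j)
    filter_upwards [h2, hd', hd''] with x hx e e'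
    rw [mul_sub, hx]
    simp only [hB0, hB1, hW]
    rw [Finset.mul_sum, ← Finset.sum_sub_distrib, ← Finset.sum_sub_distrib,
      ← Finset.sum_sub_distrib, ← Finset.sum_sub_distrib]
    refine Finset.sum_congr rfl fun i _ => ?_
    rw [e i, e' i i, add_sub_right_comm, add_sub_right_comm]
    ring
  obtain ⟨c0, c1, c2, hc0, hc1, hc2, t1, t2, t3⟩ := tor_aux (c₀ := c₀)
    (f0 := fun x => ((B0 x : ℤ) : ZMod k)) (f1 := fun x => ((B1 x : ℤ) : ZMod k))
    (pB0.plc.comp fun a : ℤ => (a : ZMod k)) (pB1.plc.comp fun a : ℤ => (a : ZMod k)) (by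
      filter_upwards [h3] with x hx
      have := congrArg (fun a : ℤ => (a : ZMod k)) hx
      push_cast at this
      rw [ZMod.natCast_self, zero_mul] at this
      exact sub_eq_zero.mp this)
  obtain ⟨C0, hC0, e0⟩ := exists_lift hk hc0
  obtain ⟨C1, hC1, e1⟩ := exists_lift hk hc1
  obtain ⟨C2, hC2, e2⟩ := exists_lift hk hc2
  obtain ⟨V2, hV2, hV2'⟩ := exists_quot (k := k)
    (((hC1.add_right (sE c₀ 0)).sub hC1).sub ((hC0.add_right (sE c₀ 1)).sub hC0)) (by
      filter_upwards [t1] with x hx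
      push_cast
      rw [e0, e0, e1, e1, hx, sub_self])
  obtain ⟨V0, hV0, hV0'⟩ := exists_quot (k := k)
    (pB0.sub (((hC2.add_right (sE c₀ 0)).sub hC2).sub ((hC0.add_right (sE c₀ 2)).sub hC0))) (by
      filter_upwards [t2] with x hx
      push_cast
      rw [e0, e0, e2, e2, hx, sub_self])
  obtain ⟨V1, hV1, hV1'⟩ := exists_quot (k := k)
    (pB1.sub (((hC2.add_right (sE c₀ 1)).sub hC2).sub ((hC1.add_right (sE c₀ 2)).sub hC1))) (by
      filter_upwards [t3] with x hx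
      push_cast
      rw [e1, e1, e2, e2, hx, sub_self])
  -- the final formula
  have h4 : ∀ᵐ x, Per 1 F x = W x + ((V1 (x + sE c₀ 0) - V1 x) - (V0 (x + sE c₀ 1) - V0 x)
      - (V2 (x + sE c₀ 2) - V2 x)) := by
    filter_upwards [h3, hV2', hV0', hV1', ae_add hV2' (sE c₀ 2), ae_add hV0' (sE c₀ 1),
      ae_add hV1' (sE c₀ 0)] with x hx a2 a0 a1 a2' a0' a1'
    have e : (k : ℤ) * (Per 1 F x - W x) = k * ((V1 (x + sE c₀ 0) - V1 x)
        - (V0 (x + sE c₀ 1) - V0 x) - (V2 (x + sE c₀ 2) - V2 x)) := by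
      rw [← hx]
      rw [add_right_comm x (sE c₀ 2) (sE c₀ 0), add_right_comm x (sE c₀ 2) (sE c₀ 1)] at a2'
      rw [add_right_comm x (sE c₀ 1) (sE c₀ 0)] at a0'
      linear_combination a1' - a1 - a0' + a0 - a2' + a2
    have := mul_left_cancel₀ hk' e
    linear_combination this
  refine (((((Cob.finset_sum Finset.univ fun i _ => (hV i).cob (t i)).add
    (hV1.cob' (sE c₀ 0))).sub (hV0.cob' (sE c₀ 1))).sub (hV2.cob' (sE c₀ 2))).add
    (Cob.per one_pos hF)).congr ?_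
  filter_upwards [h4] with x hx
  by_cases hc : cell 1 x = 0
  · simp only [if_pos hc]
    rw [hx]
    ring
  · simp only [if_neg hc, Finset.sum_const_zero]
    ring

/-- Division by `k` of a natural number valued function up to translations. -/
theorem Eqd.exists_div (c₀ : Fin n) {F : E n → ℕ} (hF : JN F) {k : ℕ} (hk : 0 < k) :
    ∃ H : E n → ℕ, JN H ∧ Eqd (T n) F (fun x => k * H x) := by
  obtain ⟨H0, hH0, hc⟩ := Pool.Agent.Lib.MP_28492a_gt.exists_div c₀ hF.jc hk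
  have hm : massN F = k * mass H0 := by
    have h1 := hc.mass_eq
    rw [mass_sub hF.jc (hH0.smul k), mass_smul] at h1
    exact sub_eq_zero.mp h1
  have hk' : (0 : ℝ) < k := by exact_mod_cast hk
  rcases (massN_nonneg F).eq_or_lt with h0 | hpos
  · refine ⟨fun _ => 0, JN.zero, ?_⟩
    refine Eqd.of_ae_eq hF.lc ?_
    filter_upwards [eq_zero_of_massN hF h0.symm] with x hx
    rw [hx, mul_zero]
  · have hpos' : 0 < mass H0 := by
      rw [hm] at hpos
      exact (mul_pos_iff_of_pos_left hk').mp hpos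
    have hdec : ∀ x, H0 x = ((H0 x).toNat : ℤ) - ((- H0 x).toNat : ℤ) := fun x => by omega
    have hlt : massN (fun x => (- H0 x).toNat) < massN (fun x => (H0 x).toNat) := by
      have h1 : mass H0 = massN (fun x => (H0 x).toNat) - massN (fun x => (- H0 x).toNat) := by
        unfold massN
        rw [← mass_sub hH0.toNat.jc hH0.neg.toNat.jc]
        exact mass_congr (Eventually.of_forall hdec)
      rw [h1] at hpos'
      exact sub_pos.mp hpos'
    obtain ⟨r, hr, he⟩ := exists_compl hH0.neg.toNat hH0.toNat hlt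
    refine ⟨r, hr, Eqd.of_cob hF (hr.smul k) ?_⟩
    refine (hc.add ((he.cob hH0.toNat).smul k)).congr (Eventually.of_forall fun x => ?_)
    have := hdec x
    push_cast
    linear_combination (k : ℤ) * this

/-- Cancellation for translations. -/
theorem Eqd.of_smul (c₀ : Fin n) {F H : E n → ℕ} (hF : JN F) (hH : JN H) {k : ℕ} (hk : 0 < k)
    (h : Eqd (T n) (fun x => k * F x) (fun x => k * H x)) : Eqd (T n) F H := by
  refine Eqd.of_cob hF hH (Cob.of_smul c₀ (hF.jc.sub hH.jc) hk ?_)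
  refine (h.cob (hF.smul k)).congr (Eventually.of_forall fun x => ?_)
  push_cast
  ring

end

end Pool.Agent.Lib.MP_28492a_gt
end

section

set_option autoImplicit false

open MeasureTheory Filter Topology

namespace Pool.Agent.Lib.MP_28492a_gt

variable {n : ℕ}

theorem T_conj (g : E n ≃ᵢ E n) {h : E n ≃ᵢ E n} (hh : h ∈ T n) : g * h * g⁻¹ ∈ T n := by
  obtain ⟨t, rfl⟩ := mem_T hh
  refine ⟨g.toRealLinearIsometryEquiv t, ?_⟩
  ext1 x
  have h1 : ∀ y, g y = g.toRealLinearIsometryEquiv y + g 0 := fun y => by simp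
  show g (g.symm x + t) = x + g.toRealLinearIsometryEquiv t
  rw [h1, map_add]
  have h2 : g (g.symm x) = x := g.apply_symm_apply x
  rw [h1] at h2
  rw [add_right_comm, h2]

theorem Eqd.conj {F F' : E n → ℕ} (h : Eqd (T n) F F') (g : E n ≃ᵢ E n) :
    Eqd (T n) (fun x => F (g.symm x)) (fun x => F' (g.symm x)) := by
  obtain ⟨ι, _, t, w, ht, hw, h1, h2⟩ := h
  refine ⟨ι, inferInstance, fun i => g * t i * g⁻¹, fun i x => w i (g.symm x),
    fun i => T_conj g (ht i), fun i => (hw i).isometry _, ae_isometry h1 g.symm, ?_⟩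
  filter_upwards [ae_isometry h2 g.symm] with x hx
  rw [hx]
  refine Finset.sum_congr rfl fun i _ => ?_
  have e : g.symm ((g * t i * g⁻¹).symm x) = (t i).symm (g.symm x) := by
    rw [IsometryEquiv.symm_apply_eq, IsometryEquiv.symm_apply_eq]
    show x = g ((t i) (g.symm (g ((t i).symm (g.symm x)))))
    rw [g.symm_apply_apply, (t i).apply_symm_apply, g.apply_symm_apply]
  rw [e]

/-- Cancellation for all isometries. -/
theorem Eqd.cancel (c₀ : Fin n) {F H : E n → ℕ} (hF : JN F) (hH : JN H) {k : ℕ} (hk : 0 < k)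
    (h : Eqd ⊤ (fun x => k * F x) (fun x => k * H x)) : Eqd ⊤ F H := by
  obtain ⟨ι, _, g, w, -, hw, h1, h2⟩ := h.exists_JC (hF.smul k)
  have hwN : ∀ i, JN (w i) := hw
  choose v hv hwv using fun i => (Eqd.exists_div c₀ (hwN i) hk)
  have e1 : Eqd (T n) (fun x => k * F x) (fun x => k * ∑ i, v i x) := by
    refine (Eqd.finset_sum Finset.univ (fun i _ => hwv i)).congr h1
      (Eventually.of_forall fun x => ?_)
    rw [Finset.mul_sum]
  have e2 : Eqd (T n) (fun x => k * H x) (fun x => k * ∑ i, v i ((g i).symm x)) := by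
    refine (Eqd.finset_sum Finset.univ (fun i _ => (hwv i).conj (g i))).congr h2
      (Eventually.of_forall fun x => ?_)
    rw [Finset.mul_sum]
  have d1 := Eqd.of_smul c₀ hF (JN.finset_sum Finset.univ fun i _ => hv i) hk e1
  have d2 := Eqd.of_smul c₀ hH
    (JN.finset_sum Finset.univ fun i _ => (JC.isometry (hv i) (g i).symm : JN _)) hk e2
  have up : ∀ {P Q : E n → ℕ}, Eqd (T n) P Q → Eqd ⊤ P Q := by
    rintro P Q ⟨κ, _, t, u, -, hu, h3, h4⟩
    exact ⟨κ, inferInstance, t, u, fun _ => Subgroup.mem_top _, hu, h3, h4⟩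
  have mid : Eqd ⊤ (fun x => ∑ i, v i x) (fun x => ∑ i, v i ((g i).symm x)) :=
    ⟨ι, inferInstance, g, v, fun _ => Subgroup.mem_top _, fun i => (hv i).lc,
      Eventually.of_forall fun _ => rfl, Eventually.of_forall fun _ => rfl⟩
  exact ((up d1).trans mid).trans (up d2).symm

end Pool.Agent.Lib.MP_28492a_gt
end

section

set_option autoImplicit false

open MeasureTheory Filter Topology

namespace Pool.Agent.Lib.MP_28492a_gt

variable {n : ℕ}

theorem volume_Cube (c : E n) (r : ℝ) :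
    (volume : Measure (E n)) (Cube c r) = ENNReal.ofReal r ^ n := by
  have h1 : Cube c r = (WithLp.ofLp : E n → (Fin n → ℝ)) ⁻¹'
      (Set.Icc (fun i => c i) (fun i => c i + r)) := by
    ext x
    simp only [Cube, Set.mem_ofPred_eq, Set.mem_preimage, Set.mem_Icc, Pi.le_def]
    exact ⟨fun h => ⟨fun i => (h i).1, fun i => (h i).2⟩, fun h i => ⟨h.1 i, h.2 i⟩⟩
  rw [h1, (PiLp.volume_preserving_ofLp (Fin n)).measure_preimage
    measurableSet_Icc.nullMeasurableSet, Real.volume_Icc_pi]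
  simp

theorem volume_cell {N : ℕ} (hN : 0 < N) (m : Fin n → ℤ) :
    (volume : Measure (E n)) {x | cell N x = m} = ENNReal.ofReal (1 / N) ^ n := by
  have hN' : (0 : ℝ) < N := by exact_mod_cast hN
  have h1 : {x : E n | cell N x = m} = (WithLp.ofLp : E n → (Fin n → ℝ)) ⁻¹'
      (Set.pi Set.univ fun i => Set.Ico ((m i : ℝ) / N) (((m i : ℝ) + 1) / N)) := by
    ext x
    simp only [Set.mem_ofPred_eq, Set.mem_preimage, Set.mem_univ_pi, Set.mem_Ico]
    unfold cell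
    rw [funext_iff]
    refine forall_congr' fun i => ?_
    rw [Int.floor_eq_iff, div_le_iff₀ hN', lt_div_iff₀ hN', mul_comm]
  rw [h1, (PiLp.volume_preserving_ofLp (Fin n)).measure_preimage
    (MeasurableSet.univ_pi fun _ => measurableSet_Ico).nullMeasurableSet, Real.volume_pi_Ico]
  have h2 : ∀ i, ((m i : ℝ) + 1) / N - (m i : ℝ) / N = 1 / N := fun i => by ring
  simp [h2]

theorem JordanNull.volume_eq_zero {S : Set (E n)} (h : JordanNull S) :
    (volume : Measure (E n)) S = 0 := by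
  rw [← nonpos_iff_eq_zero]
  refine ENNReal.le_of_forall_pos_le_add fun ε hε _ => ?_
  obtain ⟨m, c, r, hr, hS, hsum⟩ := h ε (by exact_mod_cast hε)
  rw [zero_add]
  calc (volume : Measure (E n)) S ≤ volume (⋃ i, Cube (c i) (r i)) := measure_mono hS
    _ ≤ ∑ i, volume (Cube (c i) (r i)) := measure_iUnion_fintype_le _ _
    _ = ∑ i, ENNReal.ofReal (r i ^ n) := by
        refine Finset.sum_congr rfl fun i _ => ?_
        rw [volume_Cube, ENNReal.ofReal_pow (hr i)]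
    _ = ENNReal.ofReal (∑ i, r i ^ n) :=
        (ENNReal.ofReal_sum_of_nonneg fun i _ => pow_nonneg (hr i) n).symm
    _ ≤ ENNReal.ofReal ε := ENNReal.ofReal_le_ofReal hsum.le
    _ = ε := ENNReal.ofReal_coe_nnreal

theorem dist_le_of_cell {N : ℕ} (hN : 0 < N) {x y : E n} (h : cell N x = cell N y) :
    dist x y ≤ n / N := by
  have hN' : (0 : ℝ) < N := by exact_mod_cast hN
  rw [dist_eq_norm]
  refine (norm_le_sum _).trans ?_
  have h1 : ∀ c, |(x - y) c| ≤ 1 / N := by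
    intro c
    have hc : ⌊(N : ℝ) * x c⌋ = ⌊(N : ℝ) * y c⌋ := congrFun h c
    have h2 := Int.abs_sub_lt_one_of_floor_eq_floor hc
    rw [← mul_sub, abs_mul, abs_of_pos hN'] at h2
    rw [PiLp.sub_apply, le_div_iff₀ hN', mul_comm]
    exact h2.le
  calc ∑ c, |(x - y) c| ≤ ∑ _c : Fin n, (1 / N : ℝ) := Finset.sum_le_sum fun c _ => h1 c
    _ = n / N := by simp [div_eq_mul_inv]

theorem jordanNull_of_volume {S : Set (E n)} (hS : IsCompact S)
    (h : (volume : Measure (E n)) S = 0) : JordanNull S := by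
  classical
  intro ε hε
  obtain ⟨U, hSU, hU, hUε⟩ := S.exists_isOpen_lt_of_lt (μ := volume) (ENNReal.ofReal ε) (by
    rw [h]; exact ENNReal.ofReal_pos.mpr hε)
  obtain ⟨δ, hδ, hth⟩ := hS.exists_thickening_subset_open hU hSU
  obtain ⟨N, hN⟩ := exists_nat_gt ((n : ℝ) / δ)
  have hN0 : (0 : ℝ) < N := lt_of_le_of_lt (by positivity) hN
  have hNpos : 0 < N := by exact_mod_cast hN0
  have hnN : (n : ℝ) / N < δ := by
    rw [div_lt_iff₀ hN0]
    rw [div_lt_iff₀ hδ] at hN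
    linarith
  obtain ⟨R, hR⟩ := hS.isBounded.exists_norm_le
  obtain ⟨K, hK⟩ := exists_cells (n := n) N (F := fun x => if ‖x‖ ≤ R then 1 else 0)
    ⟨R, fun x hx => by rw [if_neg (not_le.mpr hx)]⟩
  set K' := K.filter fun m => ∃ x ∈ S, cell N x = m with hK'
  have hcov : ∀ x ∈ S, cell N x ∈ K' := by
    intro x hx
    rw [hK', Finset.mem_filter]
    exact ⟨hK x (by rw [if_pos (hR x hx)]; exact one_ne_zero), x, hx, rfl⟩
  have hsub : ∀ m ∈ K', {x : E n | cell N x = m} ⊆ U := by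
    intro m hm y hy
    rw [hK', Finset.mem_filter] at hm
    obtain ⟨x, hx, hxm⟩ := hm.2
    refine hth ?_
    rw [Metric.mem_thickening_iff]
    refine ⟨x, hx, lt_of_le_of_lt (dist_le_of_cell hNpos ?_) hnN⟩
    rw [hxm]; exact hy
  have hmeas : ∀ m : Fin n → ℤ, MeasurableSet {x : E n | cell N x = m} := by
    intro m
    have : Measurable (cell (n := n) N) := by
      refine measurable_pi_lambda _ fun c => ?_
      have h0 : Continuous fun x : E n => (N : ℝ) * x c := by fun_prop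
      exact Int.measurable_floor.comp h0.measurable
    exact this (measurableSet_singleton m)
  have hvol : ∑ _m ∈ K', ENNReal.ofReal (1 / N) ^ n < ENNReal.ofReal ε := by
    calc ∑ _m ∈ K', ENNReal.ofReal (1 / N) ^ n
        = ∑ m ∈ K', (volume : Measure (E n)) {x | cell N x = m} :=
          Finset.sum_congr rfl fun m _ => (volume_cell hNpos m).symm
      _ = volume (⋃ m ∈ K', {x : E n | cell N x = m}) := by
          rw [measure_biUnion_finset _ fun m _ => hmeas m]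
          intro a _ b _ hab
          rw [Function.onFun, Set.disjoint_left]
          intro x hx hx'
          exact hab (hx.symm.trans hx')
      _ ≤ volume U := measure_mono (Set.iUnion₂_subset hsub)
      _ < _ := hUε
  refine ⟨K'.card, fun i => lat N (K'.equivFin.symm i).1, fun _ => 1 / N,
    fun _ => by positivity, ?_, ?_⟩
  · intro x hx
    rw [Set.mem_iUnion]
    refine ⟨K'.equivFin ⟨cell N x, hcov x hx⟩, ?_⟩
    simp only [Equiv.symm_apply_apply]
    intro c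
    have h1 := Int.floor_le ((N : ℝ) * x c)
    have h2 := Int.lt_floor_add_one ((N : ℝ) * x c)
    rw [lat_apply]
    unfold cell
    constructor
    · rw [div_le_iff₀ hN0]; linarith
    · rw [← add_div, le_div_iff₀ hN0]; linarith
  · have h3 : ∑ _m ∈ K', ENNReal.ofReal (1 / N) ^ n
        = ENNReal.ofReal (∑ _i : Fin K'.card, (1 / N : ℝ) ^ n) := by
      rw [Finset.sum_const, Finset.sum_const, Finset.card_univ, Fintype.card_fin,
        nsmul_eq_mul, nsmul_eq_mul, ENNReal.ofReal_mul (by positivity),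
        ENNReal.ofReal_pow (by positivity), ENNReal.ofReal_natCast]
    rw [h3] at hvol
    exact (ENNReal.ofReal_lt_ofReal_iff hε).mp hvol

theorem IsBody.volume_frontier {A : Set (E n)} (h : IsBody A) :
    (volume : Measure (E n)) (frontier A) = 0 := h.jordan.volume_eq_zero

theorem IsBody.of_volume {A : Set (E n)} (hb : Bornology.IsBounded A)
    (hr : A = interior (closure A)) (hv : (volume : Measure (E n)) (frontier A) = 0) :
    IsBody A := by
  refine ⟨hb, hr, jordanNull_of_volume ?_ hv⟩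
  exact (hb.isCompact_closure).of_isClosed_subset isClosed_frontier frontier_subset_closure

theorem IsBody.isOpen {A : Set (E n)} (h : IsBody A) : IsOpen A := by
  rw [h.regular]; exact isOpen_interior

open Classical in
/-- The indicator function. -/
noncomputable def ind (A : Set (E n)) (x : E n) : ℕ := if x ∈ A then 1 else 0

theorem ind_of_mem {A : Set (E n)} {x : E n} (h : x ∈ A) : ind A x = 1 := if_pos h

theorem ind_of_notMem {A : Set (E n)} {x : E n} (h : x ∉ A) : ind A x = 0 := if_neg h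

theorem ind_congr {A A' : Set (E n)} {x y : E n} (h : x ∈ A ↔ y ∈ A') : ind A x = ind A' y := by
  unfold ind
  by_cases hx : x ∈ A
  · rw [if_pos hx, if_pos (h.mp hx)]
  · rw [if_neg hx, if_neg fun hy => hx (h.mpr hy)]

theorem mem_of_ind_ne {A : Set (E n)} {x : E n} (h : ind A x ≠ 0) : x ∈ A := by
  by_contra h'
  exact h (ind_of_notMem h')

theorem ind_le_one (A : Set (E n)) (x : E n) : ind A x ≤ 1 := by
  unfold ind; split_ifs <;> simp

theorem ind_image (A : Set (E n)) (g : E n ≃ᵢ E n) (x : E n) :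
    ind (g '' A) x = ind A (g.symm x) := by
  refine ind_congr ?_
  constructor
  · rintro ⟨y, hy, rfl⟩
    rwa [g.symm_apply_apply]
  · intro h
    exact ⟨_, h, g.apply_symm_apply x⟩

theorem LC.ind_of_volume {A : Set (E n)} (h : (volume : Measure (E n)) (frontier A) = 0) :
    LC (ind A) := by
  have h1 : ∀ᵐ x : E n, x ∉ frontier A := measure_eq_zero_iff_ae_notMem.mp h
  filter_upwards [h1] with x hx
  by_cases hi : x ∈ interior A
  · filter_upwards [isOpen_interior.mem_nhds hi] with y hy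
    rw [ind_of_mem (interior_subset hy), ind_of_mem (interior_subset hi)]
  · have hc : x ∉ closure A := fun hc => hx ⟨hc, hi⟩
    filter_upwards [isClosed_closure.isOpen_compl.mem_nhds hc] with y hy
    rw [ind_of_notMem fun h => hy (subset_closure h), ind_of_notMem fun h => hc (subset_closure h)]

theorem IsBody.lc {A : Set (E n)} (h : IsBody A) : LC (ind A) := LC.ind_of_volume h.volume_frontier

theorem IsBody.jn {A : Set (E n)} (h : IsBody A) : JN (ind A) := by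
  refine ⟨h.lc.comp _, ⟨1, fun x => ?_⟩, ?_⟩
  · rw [abs_of_nonneg (by positivity)]
    exact_mod_cast ind_le_one A x
  · obtain ⟨R, hR⟩ := h.bounded.exists_norm_le
    refine ⟨R, fun x hx => ?_⟩
    rw [ind_of_notMem fun h' => absurd (hR x h') (not_le.mpr hx)]
    rfl

/-- The indicator function of a join of disjoint open sets. -/
theorem ind_join {m : ℕ} {P : Fin m → Set (E n)} (ho : ∀ i, IsOpen (P i))
    (hl : ∀ i, LC (ind (P i))) (hd : ∀ i j, i ≠ j → Disjoint (P i) (P j)) :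
    ∀ᵐ x, ind (join P) x = ∑ i, ind (P i) x := by
  have hl' : ∀ᵐ x, ∀ i, ∀ᶠ y in 𝓝 x, ind (P i) y = ind (P i) x := ae_all_iff.mpr hl
  filter_upwards [hl'] with x hx
  by_cases h : ∃ i, x ∈ P i
  · obtain ⟨i, hi⟩ := h
    have h1 : x ∈ join P :=
      (isOpen_iUnion ho).subset_interior_closure (Set.mem_iUnion.mpr ⟨i, hi⟩)
    rw [ind_of_mem h1, Finset.sum_eq_single i]
    · exact (ind_of_mem hi).symm
    · intro j _ hj
      exact ind_of_notMem fun h' => Set.disjoint_left.mp (hd i j hj.symm) hi h'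
    · intro h'
      exact absurd (Finset.mem_univ i) h'
  · push Not at h
    have h1 : x ∉ join P := by
      intro h'
      have h2 : x ∈ closure (⋃ i, P i) := interior_subset h'
      rw [mem_closure_iff_frequently] at h2
      apply h2
      filter_upwards [eventually_all.mpr hx] with y hy hyP
      obtain ⟨i, hi⟩ := Set.mem_iUnion.mp hyP
      have := hy i
      rw [ind_of_mem hi, ind_of_notMem (h i)] at this
      exact one_ne_zero this
    rw [ind_of_notMem h1]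
    exact (Finset.sum_eq_zero fun i _ => ind_of_notMem (h i)).symm

theorem lc_ind_image {A : Set (E n)} (h : LC (ind A)) (g : E n ≃ᵢ E n) : LC (ind (g '' A)) :=
  (h.isometry g.symm).congr_of_eq fun x => ind_image A g x

theorem isOpen_image {A : Set (E n)} (h : IsOpen A) (g : E n ≃ᵢ E n) : IsOpen (g '' A) :=
  g.toHomeomorph.isOpenMap A h

theorem Equidec.eqd {A B : Set (E n)} (h : Equidec A B) : Eqd ⊤ (ind A) (ind B) := by
  obtain ⟨m, P, g, hP, hd, hA, hd', hB⟩ := h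
  refine ⟨Fin m, inferInstance, g, fun i => ind (P i), fun _ => Subgroup.mem_top _,
    fun i => (hP i).lc, ?_, ?_⟩
  · rw [hA]
    exact ind_join (fun i => (hP i).isOpen) (fun i => (hP i).lc) hd
  · rw [hB]
    filter_upwards [ind_join (fun i => isOpen_image (hP i).isOpen (g i))
      (fun i => lc_ind_image (hP i).lc (g i)) hd'] with x hx
    rw [hx]
    exact Finset.sum_congr rfl fun i _ => ind_image _ _ _

theorem IsMultiple.eqd {k : ℕ} {A C : Set (E n)} (hA : IsBody A) (h : IsMultiple k A C) :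
    Eqd ⊤ (fun x => k * ind A x) (ind C) := by
  obtain ⟨g, hd, hC⟩ := h
  refine ⟨Fin k, inferInstance, g, fun _ => ind A, fun _ => Subgroup.mem_top _,
    fun _ => hA.lc, ?_, ?_⟩
  · exact Eventually.of_forall fun x => by simp
  · rw [hC]
    filter_upwards [ind_join (fun i => isOpen_image hA.isOpen (g i))
      (fun i => lc_ind_image hA.lc (g i)) hd] with x hx
    rw [hx]
    exact Finset.sum_congr rfl fun i _ => ind_image _ _ _

theorem eq_empty_of_ae {U : Set (E n)} (hU : IsOpen U) (h : ∀ᵐ x, x ∉ U) : U = ∅ := by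
  by_contra hne
  have h1 := hU.measure_pos (volume : Measure (E n)) (Set.nonempty_iff_ne_empty.mpr hne)
  exact h1.ne' (measure_eq_zero_iff_ae_notMem.mpr h)

theorem subset_of_ae {A B : Set (E n)} (hA : IsOpen A) (hB : B = interior (closure B))
    (h : ∀ᵐ x, x ∈ A → x ∈ B) : A ⊆ B := by
  have h1 : A \ closure B = ∅ := by
    refine eq_empty_of_ae (hA.sdiff isClosed_closure) ?_
    filter_upwards [h] with x hx hx'
    exact hx'.2 (subset_closure (hx hx'.1))
  rw [hB]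
  exact interior_maximal (Set.sdiff_eq_empty.mp h1) hA

theorem join_regular {m : ℕ} (P : Fin m → Set (E n)) : join P = interior (closure (join P)) := by
  unfold join
  rw [interior_closure_idem]

theorem eq_of_ind_ae {A B : Set (E n)} (hA : A = interior (closure A))
    (hB : B = interior (closure B)) (h : ∀ᵐ x, ind A x = ind B x) : A = B := by
  have oA : IsOpen A := by rw [hA]; exact isOpen_interior
  have oB : IsOpen B := by rw [hB]; exact isOpen_interior
  refine Set.Subset.antisymm (subset_of_ae oA hB ?_) (subset_of_ae oB hA ?_)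
  · filter_upwards [h] with x hx hxA
    refine mem_of_ind_ne ?_
    rw [← hx, ind_of_mem hxA]
    exact one_ne_zero
  · filter_upwards [h] with x hx hxB
    refine mem_of_ind_ne ?_
    rw [hx, ind_of_mem hxB]
    exact one_ne_zero

/-- A subbody from an a.e. locally constant function. -/
theorem exists_body {A : Set (E n)} (hA : IsBody A) {w : E n → ℕ} (hw : LC w)
    (hle : ∀ᵐ x, w x ≤ ind A x) : ∃ P, IsBody P ∧ ∀ᵐ x, ind P x = w x := by
  set U : Set (E n) := {x | x ∈ A ∧ ∀ᶠ y in 𝓝 x, w y ≠ 0} with hU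
  have hUo : IsOpen U := by
    have : U = A ∩ interior {y | w y ≠ 0} := by
      ext x
      rw [hU, Set.mem_ofPred_eq, Set.mem_inter_iff, mem_interior_iff_mem_nhds]
      rfl
    rw [this]
    exact hA.isOpen.inter isOpen_interior
  -- almost every point
  have key : ∀ᵐ x, (x ∈ U ∧ w x = 1) ∨ (x ∉ closure U ∧ w x = 0) := by
    filter_upwards [hw, hA.lc, hle] with x hx hxA hxle
    by_cases h0 : w x = 0
    · right
      refine ⟨?_, h0⟩
      rw [mem_closure_iff_frequently, not_frequently]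
      filter_upwards [hx] with y hy hyU
      have := hyU.2.self_of_nhds
      rw [hy, h0] at this
      exact this rfl
    · left
      have hind : ind A x ≠ 0 := by omega
      refine ⟨⟨mem_of_ind_ne hind, ?_⟩, ?_⟩
      · filter_upwards [hx] with y hy
        rw [hy]; exact h0
      · have := ind_le_one A x
        omega
  have hsub : U ⊆ interior (closure U) := hUo.subset_interior_closure
  refine ⟨interior (closure U), IsBody.of_volume ?_ ?_ ?_, ?_⟩
  · have h1 : U ⊆ A := fun x hx => hx.1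
    exact ((hA.bounded.subset h1).closure).subset interior_subset
  · rw [interior_closure_idem]
  · rw [measure_eq_zero_iff_ae_notMem]
    filter_upwards [key] with x hx hxf
    rcases hx with ⟨hxU, -⟩ | ⟨hxU, -⟩
    · have : x ∈ interior (interior (closure U)) := by rw [interior_interior]; exact hsub hxU
      exact hxf.2 this
    · exact hxU (closure_minimal interior_subset isClosed_closure hxf.1)
  · filter_upwards [key] with x hx
    rcases hx with ⟨hxU, h1⟩ | ⟨hxU, h0⟩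
    · rw [h1, ind_of_mem (hsub hxU)]
    · rw [h0, ind_of_notMem fun h => hxU (interior_subset h)]

theorem disjoint_of_sum {m : ℕ} {P : Fin m → Set (E n)} (ho : ∀ i, IsOpen (P i))
    (h : ∀ᵐ x, ∑ i, ind (P i) x ≤ 1) : ∀ i j, i ≠ j → Disjoint (P i) (P j) := by
  intro i j hij
  rw [Set.disjoint_iff_inter_eq_empty]
  refine eq_empty_of_ae ((ho i).inter (ho j)) ?_
  filter_upwards [h] with x hx hx'
  have h1 : ∑ l ∈ ({i, j} : Finset (Fin m)), ind (P l) x ≤ ∑ l, ind (P l) x :=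
    Finset.sum_le_sum_of_subset (Finset.subset_univ _)
  rw [Finset.sum_pair hij, ind_of_mem hx'.1, ind_of_mem hx'.2] at h1
  omega

theorem Equidec.of_eqd {A B : Set (E n)} (hA : IsBody A) (hB : IsBody B)
    (h : Eqd ⊤ (ind A) (ind B)) : Equidec A B := by
  obtain ⟨ι, _, g, w, -, hw, h1, h2⟩ := h
  have hle : ∀ i, ∀ᵐ x, w i x ≤ ind A x := by
    intro i
    filter_upwards [h1] with x hx
    rw [hx]
    exact Finset.single_le_sum (f := fun i => w i x) (fun _ _ => Nat.zero_le _) (Finset.mem_univ i)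
  choose P hP hPw using fun i => exists_body hA (hw i) (hle i)
  let e := Fintype.equivFin ι
  have hs1 : ∀ᵐ x, ind A x = ∑ i, ind (P (e.symm i)) x := by
    filter_upwards [h1, ae_all_iff.mpr hPw] with x hx hx'
    rw [hx, e.symm.sum_comp fun i => ind (P i) x]
    exact Finset.sum_congr rfl fun i _ => (hx' i).symm
  have hs2 : ∀ᵐ x, ind B x = ∑ i, ind (g (e.symm i) '' P (e.symm i)) x := by
    have h3 : ∀ᵐ x, ∀ i, ind (P i) ((g i).symm x) = w i ((g i).symm x) :=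
      ae_all_iff.mpr fun i => ae_isometry (hPw i) (g i).symm
    filter_upwards [h2, h3] with x hx hx'
    rw [hx, e.symm.sum_comp fun i => ind (g i '' P i) x]
    refine Finset.sum_congr rfl fun i _ => ?_
    rw [ind_image, hx' i]
  have ho1 : ∀ i, IsOpen (P (e.symm i)) := fun i => (hP _).isOpen
  have ho2 : ∀ i, IsOpen (g (e.symm i) '' P (e.symm i)) := fun i => isOpen_image (hP _).isOpen _
  have hd1 := disjoint_of_sum ho1 (hs1.mono fun x hx => by rw [← hx]; exact ind_le_one _ _)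
  have hd2 := disjoint_of_sum ho2 (hs2.mono fun x hx => by rw [← hx]; exact ind_le_one _ _)
  refine ⟨Fintype.card ι, fun i => P (e.symm i), fun i => g (e.symm i), fun i => hP _, hd1, ?_,
    hd2, ?_⟩
  · refine eq_of_ind_ae hA.regular (join_regular _) ?_
    filter_upwards [hs1, ind_join ho1 (fun i => (hP _).lc) hd1] with x hx hx'
    rw [hx, hx']
  · refine eq_of_ind_ae hB.regular (join_regular _) ?_
    filter_upwards [hs2, ind_join ho2 (fun i => lc_ind_image (hP _).lc _) hd2] with x hx hx'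
    rw [hx, hx']

theorem cancellationLaw (hn : 1 ≤ n) : CancellationLaw n := by
  intro k hk A B hA hB C D hC hD h
  have c₀ : Fin n := ⟨0, hn⟩
  refine Equidec.of_eqd hA hB (Eqd.cancel c₀ hA.jn hB.jn hk ?_)
  exact ((hC.eqd hA).trans h.eqd).trans (hD.eqd hB).symm

end Pool.Agent.Lib.MP_28492a_gt
end
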