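import Mathlib

section

set_option autoImplicit false

open MeasureTheory Filter Topology

namespace Pool.Agent.Lib.MP_28492a_gt

/-- Euclidean `n`-space. -/
abbrev E (n : ℕ) := EuclideanSpace ℝ (Fin n)

variable {n : ℕ}

/-- Almost everywhere locally constant functions. -/
def LC {α : Type*} (F : E n → α) : Prop := ∀ᵐ x, ∀ᶠ y in 𝓝 x, F y = F x

theorem LC.const {α : Type*} (a : α) : LC (fun _ : E n => a) :=
  Eventually.of_forall fun _ => Eventually.of_forall fun _ => rfl

theorem LC.comp {α β : Type*} {F : E n → α} (g : α → β) (h : LC F) : LC (fun x => g (F x)) := by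
  filter_upwards [h] with x hx
  filter_upwards [hx] with y hy
  rw [hy]

theorem LC.comp₂ {α β γ : Type*} {F : E n → α} {G : E n → β} (g : α → β → γ)
    (hF : LC F) (hG : LC G) : LC (fun x => g (F x) (G x)) := by
  filter_upwards [hF, hG] with x hx hx'
  filter_upwards [hx, hx'] with y hy hy'
  rw [hy, hy']

theorem LC.comp₃ {α β γ δ : Type*} {F : E n → α} {G : E n → β} {H : E n → γ}
    (g : α → β → γ → δ)
    (hF : LC F) (hG : LC G) (hH : LC H) : LC (fun x => g (F x) (G x) (H x)) := by
  filter_upwards [hF, hG, hH] with x hx hx' hx''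
  filter_upwards [hx, hx', hx''] with y hy hy' hy''
  rw [hy, hy', hy'']

theorem LC.pi {ι : Type*} [Finite ι] {α : ι → Type*} {F : (i : ι) → E n → α i}
    (h : ∀ i, LC (F i)) : LC (fun x i => F i x) := by
  have h' : ∀ᵐ x, ∀ i, ∀ᶠ y in 𝓝 x, F i y = F i x := ae_all_iff.mpr h
  filter_upwards [h'] with x hx
  filter_upwards [eventually_all.mpr hx] with y hy
  funext i
  exact hy i

theorem LC.bind {α κ : Type*} [Countable κ] {r : E n → κ} {F : κ → E n → α}
    (hr : LC r) (hF : ∀ c, LC (F c)) : LC (fun x => F (r x) x) := by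
  have h' : ∀ᵐ x, ∀ c, ∀ᶠ y in 𝓝 x, F c y = F c x := ae_all_iff.mpr hF
  filter_upwards [h', hr] with x hx hrx
  filter_upwards [hx (r x), hrx] with y hy hry
  rw [hry, hy]

theorem LC.finset_sum {ι α : Type*} [AddCommMonoid α] (s : Finset ι) {F : ι → E n → α}
    (h : ∀ i ∈ s, LC (F i)) : LC (fun x => ∑ i ∈ s, F i x) := by
  classical
  induction s using Finset.induction_on with
  | empty => simpa using LC.const (0 : α)
  | insert a s ha ih =>
    have h1 := LC.comp₂ (· + ·) (h a (Finset.mem_insert_self a s))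
      (ih fun i hi => h i (Finset.mem_insert_of_mem hi))
    have h2 : (fun x => ∑ i ∈ insert a s, F i x) = fun x => F a x + ∑ i ∈ s, F i x := by
      funext x; rw [Finset.sum_insert ha]
    rw [h2]; exact h1

theorem LC.congr_of_eq {α : Type*} {F G : E n → α} (h : LC F) (h' : ∀ x, G x = F x) : LC G := by
  have : G = F := funext h'
  rw [this]; exact h

/-- Isometries of Euclidean space preserve Lebesgue measure. -/
theorem measurePreserving_isometry (g : E n ≃ᵢ E n) :
    MeasurePreserving g (volume : Measure (E n)) volume := by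
  have h1 : (g : E n → E n) = fun x => g.toRealLinearIsometryEquiv x + g 0 := by
    funext x; simp
  rw [h1]
  exact (measurePreserving_add_right volume (g 0)).comp
    g.toRealLinearIsometryEquiv.measurePreserving

theorem ae_isometry {p : E n → Prop} (h : ∀ᵐ x, p x) (g : E n ≃ᵢ E n) : ∀ᵐ x, p (g x) :=
  (measurePreserving_isometry g).quasiMeasurePreserving.ae h

theorem ae_add {p : E n → Prop} (h : ∀ᵐ x, p x) (t : E n) : ∀ᵐ x, p (x + t) :=
  (measurePreserving_add_right volume t).quasiMeasurePreserving.ae h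

theorem ae_sub {p : E n → Prop} (h : ∀ᵐ x, p x) (t : E n) : ∀ᵐ x, p (x - t) := by
  simpa [sub_eq_add_neg] using ae_add h (-t)

theorem LC.isometry {α : Type*} {F : E n → α} (h : LC F) (g : E n ≃ᵢ E n) :
    LC (fun x => F (g x)) := by
  filter_upwards [ae_isometry h g] with x hx
  exact g.continuous.continuousAt.eventually hx

theorem LC.add_right {α : Type*} {F : E n → α} (h : LC F) (t : E n) :
    LC (fun x => F (x + t)) := by
  filter_upwards [ae_add h t] with x hx
  exact (continuous_add_const t).continuousAt.eventually hx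

theorem LC.sub_right {α : Type*} {F : E n → α} (h : LC F) (t : E n) :
    LC (fun x => F (x - t)) := by
  simpa [sub_eq_add_neg] using h.add_right (-t)

/-- An a.e. defined property of a coordinate. -/
theorem ae_coord (c : Fin n) {p : ℝ → Prop} (h : ∀ᵐ x : ℝ, p x) : ∀ᵐ x : E n, p (x c) := by
  have h1 : Measure.QuasiMeasurePreserving (fun x : E n => x c) volume volume := by
    have h2 := (Measure.quasiMeasurePreserving_eval (fun _ : Fin n => (volume : Measure ℝ)) c)
    have h3 := (EuclideanSpace.volume_preserving_symm_measurableEquiv_toLp (Fin n))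
    exact h2.comp h3.quasiMeasurePreserving
  exact h1.ae h

theorem LC.coord {α : Type*} (c : Fin n) {F : ℝ → α} (h : ∀ᵐ x : ℝ, ∀ᶠ y in 𝓝 x, F y = F x) :
    LC (fun x : E n => F (x c)) := by
  filter_upwards [ae_coord c h] with x hx
  have hc : Continuous fun x : E n => x c := by fun_prop
  exact hc.continuousAt.eventually hx

/-- Nonempty open sets are not null: two a.e. equal functions that are locally constant at
a point agree at that point. -/
theorem eq_of_ae_eq {α : Type*} {F G : E n → α} {x : E n} (hF : ∀ᶠ y in 𝓝 x, F y = F x)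
    (hG : ∀ᶠ y in 𝓝 x, G y = G x) (h : ∀ᵐ x, F x = G x) : F x = G x := by
  by_contra hne
  have h1 : ∀ᶠ y in 𝓝 x, F y ≠ G y := by
    filter_upwards [hF, hG] with y h1 h2
    rw [h1, h2]; exact hne
  obtain ⟨U, hU, hUo, hxU⟩ := eventually_nhds_iff.mp h1
  have h2 : (volume : Measure (E n)) U ≠ 0 := (hUo.measure_pos volume ⟨x, hxU⟩).ne'
  apply h2
  refine measure_mono_null ?_ (ae_iff.mp h)
  intro y hy
  exact hU y hy

end Pool.Agent.Lib.MP_28492a_gt
end

section

set_option autoImplicit false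

open MeasureTheory Filter Topology

namespace Pool.Agent.Lib.MP_28492a_gt

variable {n : ℕ}

theorem exists_coupling {ι κ : Type} [Fintype ι] [Fintype κ] (p : ι → ℕ) (q : κ → ℕ)
    (h : ∑ i, p i = ∑ k, q k) :
    ∃ c : ι → κ → ℕ, (∀ i, ∑ k, c i k = p i) ∧ (∀ k, ∑ i, c i k = q k) := by
  classical
  have hcard : Fintype.card (Σ i, Fin (p i)) = Fintype.card (Σ k, Fin (q k)) := by
    simp [Fintype.card_sigma, h]
  obtain ⟨e⟩ := Fintype.card_eq.mp hcard
  refine ⟨fun i k => (Finset.univ.filter fun a : Fin (p i) => (e ⟨i, a⟩).1 = k).card, ?_, ?_⟩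
  · intro i
    have := Finset.card_eq_sum_card_fiberwise (s := (Finset.univ : Finset (Fin (p i))))
      (t := (Finset.univ : Finset κ)) (f := fun a => (e ⟨i, a⟩).1) (fun a _ => by simp)
    rw [Finset.card_univ, Fintype.card_fin] at this
    exact this.symm
  · intro k
    have h1 : ∑ i, (Finset.univ.filter fun a : Fin (p i) => (e ⟨i, a⟩).1 = k).card
        = (Finset.univ.filter fun s : (Σ i, Fin (p i)) => (e s).1 = k).card := by
      rw [← Finset.card_sigma]
      refine Finset.card_bij (fun s _ => s) ?_ ?_ ?_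
      · rintro ⟨i, a⟩ hs
        simpa using hs
      · intro a _ b _ hab; exact hab
      · rintro ⟨i, a⟩ hs
        exact ⟨⟨i, a⟩, by simpa using hs, rfl⟩
    have h2 : (Finset.univ.filter fun s : (Σ i, Fin (p i)) => (e s).1 = k).card
        = (Finset.univ.filter fun t : (Σ k, Fin (q k)) => t.1 = k).card := by
      refine Finset.card_bij (fun s _ => e s) ?_ ?_ ?_
      · intro s hs; simpa using hs
      · intro a _ b _ hab; exact e.injective hab
      · intro t ht
        exact ⟨e.symm t, by simpa using ht, by simp⟩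
    have h3 : (Finset.univ.filter fun t : (Σ k, Fin (q k)) => t.1 = k).card = q k := by
      have : (Finset.univ.filter fun t : (Σ k, Fin (q k)) => t.1 = k)
          = (Finset.univ : Finset (Fin (q k))).map ⟨fun a => ⟨k, a⟩, fun a b hab => by simpa using hab⟩ := by
        ext ⟨k', a⟩
        simp only [Finset.mem_filter, Finset.mem_univ, true_and, Finset.mem_map,
          Function.Embedding.coeFn_mk]
        constructor
        · rintro rfl; exact ⟨a, rfl⟩
        · rintro ⟨b, hb⟩
          exact (congrArg Sigma.fst hb).symm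
      rw [this, Finset.card_map, Finset.card_univ, Fintype.card_fin]
    rw [h1, h2, h3]

open Classical in
/-- A chosen coupling. -/
noncomputable def couple {ι κ : Type} [Fintype ι] [Fintype κ] (p : ι → ℕ) (q : κ → ℕ) :
    ι → κ → ℕ :=
  if h : ∑ i, p i = ∑ k, q k then (exists_coupling p q h).choose else fun _ _ => 0

theorem couple_left {ι κ : Type} [Fintype ι] [Fintype κ] {p : ι → ℕ} {q : κ → ℕ}
    (h : ∑ i, p i = ∑ k, q k) (i : ι) : ∑ k, couple p q i k = p i := by
  rw [couple, dif_pos h]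
  exact (exists_coupling p q h).choose_spec.1 i

theorem couple_right {ι κ : Type} [Fintype ι] [Fintype κ] {p : ι → ℕ} {q : κ → ℕ}
    (h : ∑ i, p i = ∑ k, q k) (k : κ) : ∑ i, couple p q i k = q k := by
  rw [couple, dif_pos h]
  exact (exists_coupling p q h).choose_spec.2 k

/-- The transport relation under a group `G` of isometries. -/
def Eqd (G : Subgroup (E n ≃ᵢ E n)) (F F' : E n → ℕ) : Prop :=
  ∃ (ι : Type) (_ : Fintype ι) (g : ι → (E n ≃ᵢ E n)) (w : ι → E n → ℕ),
    (∀ i, g i ∈ G) ∧ (∀ i, LC (w i)) ∧ (∀ᵐ x, F x = ∑ i, w i x) ∧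
      (∀ᵐ x, F' x = ∑ i, w i ((g i).symm x))

variable {G : Subgroup (E n ≃ᵢ E n)}

theorem Eqd.refl {F : E n → ℕ} (h : LC F) : Eqd G F F :=
  ⟨Unit, inferInstance, fun _ => 1, fun _ => F, fun _ => G.one_mem, fun _ => h,
    Eventually.of_forall fun x => by simp,
    Eventually.of_forall fun x => by simp; rfl⟩

theorem Eqd.symm {F F' : E n → ℕ} (h : Eqd G F F') : Eqd G F' F := by
  obtain ⟨ι, _, g, w, hg, hw, h1, h2⟩ := h
  refine ⟨ι, inferInstance, fun i => (g i).symm, fun i x => w i ((g i).symm x),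
    fun i => G.inv_mem (hg i), fun i => (hw i).isometry _, h2, ?_⟩
  filter_upwards [h1] with x hx
  rw [hx]
  refine Finset.sum_congr rfl fun i _ => ?_
  simp

theorem Eqd.congr {F F' H H' : E n → ℕ} (h : Eqd G F F') (h1 : ∀ᵐ x, H x = F x)
    (h2 : ∀ᵐ x, H' x = F' x) : Eqd G H H' := by
  obtain ⟨ι, _, g, w, hg, hw, h3, h4⟩ := h
  refine ⟨ι, inferInstance, g, w, hg, hw, ?_, ?_⟩
  · filter_upwards [h1, h3] with x hx hx'; rw [hx, hx']
  · filter_upwards [h2, h4] with x hx hx'; rw [hx, hx']

theorem Eqd.of_ae_eq {F F' : E n → ℕ} (h : LC F) (h1 : ∀ᵐ x, F' x = F x) : Eqd G F F' :=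
  (Eqd.refl h).congr (Eventually.of_forall fun _ => rfl) h1

theorem Eqd.add {F F' H H' : E n → ℕ} (h : Eqd G F F') (h' : Eqd G H H') :
    Eqd G (fun x => F x + H x) (fun x => F' x + H' x) := by
  obtain ⟨ι, _, g, w, hg, hw, h1, h2⟩ := h
  obtain ⟨κ, _, g', w', hg', hw', h1', h2'⟩ := h'
  refine ⟨ι ⊕ κ, inferInstance, Sum.elim g g', fun s => Sum.elim w w' s, ?_, ?_, ?_, ?_⟩
  · rintro (i | i)
    · exact hg i
    · exact hg' i
  · rintro (i | i)
    · exact hw i
    · exact hw' i
  · filter_upwards [h1, h1'] with x hx hx'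
    rw [hx, hx', Fintype.sum_sum_type]; rfl
  · filter_upwards [h2, h2'] with x hx hx'
    rw [hx, hx', Fintype.sum_sum_type]; rfl

theorem Eqd.trans {F F' F'' : E n → ℕ} (h : Eqd G F F') (h' : Eqd G F' F'') : Eqd G F F'' := by
  obtain ⟨ι, _, g, w, hg, hw, h1, h2⟩ := h
  obtain ⟨κ, _, g', v, hg', hv, h1', h2'⟩ := h'
  -- coupling at the middle point
  let c : E n → ι → κ → ℕ := fun y => couple (fun i => w i ((g i).symm y)) (fun k => v k y)
  have hc : LC c := by
    have ha : LC (fun y => fun i => w i ((g i).symm y)) := LC.pi fun i => (hw i).isometry _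
    have hb : LC (fun y => fun k => v k y) := LC.pi hv
    exact LC.comp₂ (fun a b => couple a b) ha hb
  have hmid : ∀ᵐ y, ∑ i, w i ((g i).symm y) = ∑ k, v k y := by
    filter_upwards [h2, h1'] with y hy hy'
    rw [← hy, ← hy']
  refine ⟨ι × κ, inferInstance, fun s => g' s.2 * g s.1, fun s x => c (g s.1 x) s.1 s.2,
    fun s => G.mul_mem (hg' _) (hg _), fun s => ?_, ?_, ?_⟩
  · exact ((hc.comp (fun f => f s.1 s.2))).isometry (g s.1)
  · have hm : ∀ᵐ x, ∀ i, ∑ j, w j ((g j).symm (g i x)) = ∑ k, v k (g i x) :=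
      ae_all_iff.mpr fun i => ae_isometry hmid (g i)
    filter_upwards [h1, hm] with x hx hmx
    rw [hx, Fintype.sum_prod_type]
    refine Finset.sum_congr rfl fun i _ => ?_
    have := couple_left (hmx i) i
    simp only [IsometryEquiv.symm_apply_apply] at this
    rw [← this]
  · have hm : ∀ᵐ x, ∀ k, ∑ i, w i ((g i).symm ((g' k).symm x)) = ∑ j, v j ((g' k).symm x) :=
      ae_all_iff.mpr fun k => ae_isometry hmid (g' k).symm
    filter_upwards [h2', hm] with x hx hmx
    rw [hx, Fintype.sum_prod_type, Finset.sum_comm]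
    refine Finset.sum_congr rfl fun k _ => ?_
    have := couple_right (hmx k) k
    rw [← this]
    refine Finset.sum_congr rfl fun i _ => ?_
    have e : (g' k * g i).symm x = (g i).symm ((g' k).symm x) := rfl
    show _ = c (g i ((g' k * g i).symm x)) i k
    rw [e, IsometryEquiv.apply_symm_apply]

theorem Eqd.finset_sum {ι : Type} (s : Finset ι) {F F' : ι → E n → ℕ}
    (h : ∀ i ∈ s, Eqd G (F i) (F' i)) :
    Eqd G (fun x => ∑ i ∈ s, F i x) (fun x => ∑ i ∈ s, F' i x) := by
  classical
  induction s using Finset.induction_on with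
  | empty => simpa using Eqd.refl (LC.const 0)
  | insert a s ha ih =>
    have h1 := (h a (Finset.mem_insert_self a s)).add
      (ih fun i hi => h i (Finset.mem_insert_of_mem hi))
    refine h1.congr (Eventually.of_forall fun x => ?_) (Eventually.of_forall fun x => ?_)
    · rw [Finset.sum_insert ha]
    · rw [Finset.sum_insert ha]

theorem Eqd.smul {F F' : E n → ℕ} (h : Eqd G F F') (k : ℕ) :
    Eqd G (fun x => k * F x) (fun x => k * F' x) := by
  have h1 := Eqd.finset_sum (Finset.range k) (F := fun _ => F) (F' := fun _ => F') fun _ _ => h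
  refine h1.congr (Eventually.of_forall fun x => ?_) (Eventually.of_forall fun x => ?_) <;> simp

/-- Refinement. -/
theorem Eqd.refine {F₁ F₂ H₁ H₂ : E n → ℕ} (hF₁ : LC F₁) (hF₂ : LC F₂) (hH₁ : LC H₁) (hH₂ : LC H₂)
    (h : Eqd G (fun x => F₁ x + F₂ x) (fun x => H₁ x + H₂ x)) :
    ∃ A : Bool → Bool → E n → ℕ, ∃ B : Bool → Bool → E n → ℕ,
      (∀ a b, LC (A a b)) ∧ (∀ a b, LC (B a b)) ∧ (∀ a b, Eqd G (A a b) (B a b)) ∧
      (∀ᵐ x, F₁ x = A false false x + A false true x) ∧
      (∀ᵐ x, F₂ x = A true false x + A true true x) ∧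
      (∀ᵐ x, H₁ x = B false false x + B true false x) ∧
      (∀ᵐ x, H₂ x = B false true x + B true true x) := by
  obtain ⟨ι, _, g, w, hg, hw, h1, h2⟩ := h
  let F : Bool → E n → ℕ := fun a => if a then F₂ else F₁
  let H : Bool → E n → ℕ := fun a => if a then H₂ else H₁
  have hF : ∀ a, LC (F a) := by
    intro a; cases a
    · simpa [F] using hF₁
    · simpa [F] using hF₂
  have hH : ∀ a, LC (H a) := by
    intro a; cases a
    · simpa [H] using hH₁
    · simpa [H] using hH₂
  have h1' : ∀ᵐ x, ∑ a, F a x = ∑ i, w i x := by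
    filter_upwards [h1] with x hx
    rw [← hx]; simp [F, add_comm]
  have h2' : ∀ᵐ x, ∑ i, w i ((g i).symm x) = ∑ a, H a x := by
    filter_upwards [h2] with x hx
    rw [← hx]; simp [H, add_comm]
  let c : E n → Bool → ι → ℕ := fun x => couple (fun a => F a x) (fun i => w i x)
  let d : E n → ι → Bool → ℕ := fun y => couple (fun i => w i ((g i).symm y)) (fun b => H b y)
  have hc : LC c := LC.comp₂ (fun a b => couple a b) (LC.pi hF) (LC.pi hw)
  have hd : LC d := LC.comp₂ (fun a b => couple a b) (LC.pi fun i => (hw i).isometry _) (LC.pi hH)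
  let e : ι → E n → Bool → Bool → ℕ := fun i x =>
    couple (fun a => c x a i) (fun b => d (g i x) i b)
  have he : ∀ i, LC (e i) := fun i =>
    LC.comp₂ (fun a b => couple a b) (hc.comp fun f => fun a => f a i)
      ((hd.comp fun f => fun b => f i b).isometry (g i))
  have hcx : ∀ᵐ x, (∀ a, ∑ i, c x a i = F a x) ∧ (∀ i, ∑ a, c x a i = w i x) := by
    filter_upwards [h1'] with x hx
    exact ⟨fun a => couple_left hx a, fun i => couple_right hx i⟩
  have hdy : ∀ᵐ y, (∀ i, ∑ b, d y i b = w i ((g i).symm y)) ∧ (∀ b, ∑ i, d y i b = H b y) := by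
    filter_upwards [h2'] with y hy
    exact ⟨fun a => couple_left hy a, fun i => couple_right hy i⟩
  have hex : ∀ᵐ x, ∀ i, (∀ a, ∑ b, e i x a b = c x a i) ∧ (∀ b, ∑ a, e i x a b = d (g i x) i b) := by
    have := ae_all_iff.mpr fun i => ae_isometry hdy (g i)
    filter_upwards [hcx, this] with x hx hdx
    intro i
    have heq : ∑ a, c x a i = ∑ b, d (g i x) i b := by
      rw [hx.2 i, (hdx i).1 i, IsometryEquiv.symm_apply_apply]
    exact ⟨fun a => couple_left heq a, fun b => couple_right heq b⟩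
  have hA : ∀ᵐ x, ∀ a, F a x = ∑ b, ∑ i, e i x a b := by
    filter_upwards [hcx, hex] with x hx hx'
    intro a
    rw [← hx.1 a, Finset.sum_comm]
    exact Finset.sum_congr rfl fun i _ => ((hx' i).1 a).symm
  have hB : ∀ᵐ y, ∀ b, H b y = ∑ a, ∑ i, e i ((g i).symm y) a b := by
    have := ae_all_iff.mpr fun i => ae_isometry hex (g i).symm
    filter_upwards [hdy, this] with y hy hy'
    intro b
    rw [← hy.2 b, Finset.sum_comm]
    refine Finset.sum_congr rfl fun i _ => ?_
    have := (hy' i i).2 b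
    rw [IsometryEquiv.apply_symm_apply] at this
    exact this.symm
  refine ⟨fun a b x => ∑ i, e i x a b, fun a b y => ∑ i, e i ((g i).symm y) a b, ?_, ?_, ?_,
    ?_, ?_, ?_, ?_⟩
  · intro a b
    exact LC.finset_sum _ fun i _ => (he i).comp fun f => f a b
  · intro a b
    exact LC.finset_sum _ fun i _ => ((he i).comp fun f => f a b).isometry (g i).symm
  · intro a b
    exact ⟨ι, inferInstance, g, fun i x => e i x a b, hg, fun i => (he i).comp fun f => f a b,
      Eventually.of_forall fun x => rfl, Eventually.of_forall fun x => rfl⟩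
  · filter_upwards [hA] with x hx
    have := hx false
    rw [Fintype.sum_bool] at this
    rw [add_comm]; exact this
  · filter_upwards [hA] with x hx
    have := hx true
    rw [Fintype.sum_bool] at this
    rw [add_comm]; exact this
  · filter_upwards [hB] with x hx
    have := hx false
    rw [Fintype.sum_bool] at this
    rw [add_comm]; exact this
  · filter_upwards [hB] with x hx
    have := hx true
    rw [Fintype.sum_bool] at this
    rw [add_comm]; exact this

end Pool.Agent.Lib.MP_28492a_gt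
end

section

set_option autoImplicit false

open MeasureTheory Filter Topology

namespace Pool.Agent.Lib.MP_28492a_gt

variable {n : ℕ}

/-- Bounded, boundedly supported, a.e. locally constant integer valued functions. -/
structure JC (F : E n → ℤ) : Prop where
  lc : LC F
  bdd : ∃ C : ℤ, ∀ x, |F x| ≤ C
  supp : ∃ R : ℝ, ∀ x, R < ‖x‖ → F x = 0

theorem JC.of_abs_le {F H : E n → ℤ} (hF : JC F) (hH : LC H) (h : ∀ x, |H x| ≤ |F x|) : JC H := by
  refine ⟨hH, ?_, ?_⟩
  · obtain ⟨C, hC⟩ := hF.bdd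
    exact ⟨C, fun x => (h x).trans (hC x)⟩
  · obtain ⟨R, hR⟩ := hF.supp
    refine ⟨R, fun x hx => ?_⟩
    have := h x
    rw [hR x hx, abs_zero] at this
    exact abs_nonpos_iff.mp this

theorem JC.zero : JC (fun _ : E n => (0 : ℤ)) :=
  ⟨LC.const 0, ⟨0, fun _ => by simp⟩, ⟨0, fun _ _ => rfl⟩⟩

theorem JC.add {F H : E n → ℤ} (hF : JC F) (hH : JC H) : JC (fun x => F x + H x) := by
  refine ⟨LC.comp₂ (· + ·) hF.lc hH.lc, ?_, ?_⟩
  · obtain ⟨C, hC⟩ := hF.bdd
    obtain ⟨C', hC'⟩ := hH.bdd
    exact ⟨C + C', fun x => (abs_add_le _ _).trans (add_le_add (hC x) (hC' x))⟩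
  · obtain ⟨R, hR⟩ := hF.supp
    obtain ⟨R', hR'⟩ := hH.supp
    refine ⟨max R R', fun x hx => ?_⟩
    rw [hR x (lt_of_le_of_lt (le_max_left _ _) hx), hR' x (lt_of_le_of_lt (le_max_right _ _) hx),
      add_zero]

theorem JC.neg {F : E n → ℤ} (hF : JC F) : JC (fun x => - F x) :=
  hF.of_abs_le (hF.lc.comp _) fun x => by simp

theorem JC.sub {F H : E n → ℤ} (hF : JC F) (hH : JC H) : JC (fun x => F x - H x) := by
  simpa [sub_eq_add_neg] using hF.add hH.neg

theorem JC.mul {F : E n → ℤ} (hF : JC F) {g : E n → ℤ} (hg : LC g) {C : ℤ}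
    (hC : ∀ x, |g x| ≤ C) : JC (fun x => g x * F x) := by
  refine ⟨LC.comp₂ (· * ·) hg hF.lc, ?_, ?_⟩
  · obtain ⟨D, hD⟩ := hF.bdd
    refine ⟨C * D, fun x => ?_⟩
    rw [abs_mul]
    exact mul_le_mul (hC x) (hD x) (abs_nonneg _) ((abs_nonneg _).trans (hC x))
  · obtain ⟨R, hR⟩ := hF.supp
    exact ⟨R, fun x hx => by rw [hR x hx, mul_zero]⟩

theorem JC.smul {F : E n → ℤ} (hF : JC F) (c : ℤ) : JC (fun x => c * F x) :=
  hF.mul (LC.const c) (C := |c|) fun _ => le_rfl

theorem JC.ite {F : E n → ℤ} (hF : JC F) {p : E n → Prop} [DecidablePred p] (hp : LC p) :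
    JC (fun x => if p x then F x else 0) := by
  refine hF.of_abs_le ?_ ?_
  · classical
    have := LC.comp₂ (fun (q : Prop) (a : ℤ) => if q then a else 0) hp hF.lc
    refine this.congr_of_eq fun x => ?_
    by_cases h : p x <;> simp [h]
  · intro x
    split_ifs <;> simp

theorem JC.sub_right {F : E n → ℤ} (hF : JC F) (t : E n) : JC (fun x => F (x - t)) := by
  refine ⟨hF.lc.sub_right t, ?_, ?_⟩
  · obtain ⟨C, hC⟩ := hF.bdd
    exact ⟨C, fun x => hC _⟩
  · obtain ⟨R, hR⟩ := hF.supp
    refine ⟨R + ‖t‖, fun x hx => hR _ ?_⟩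
    have : ‖x‖ ≤ ‖x - t‖ + ‖t‖ := by
      calc ‖x‖ = ‖(x - t) + t‖ := by rw [sub_add_cancel]
        _ ≤ _ := norm_add_le _ _
    linarith

theorem JC.add_right {F : E n → ℤ} (hF : JC F) (t : E n) : JC (fun x => F (x + t)) := by
  simpa [sub_eq_add_neg] using hF.sub_right (-t)

theorem JC.isometry {F : E n → ℤ} (hF : JC F) (g : E n ≃ᵢ E n) : JC (fun x => F (g x)) := by
  refine ⟨hF.lc.isometry g, ?_, ?_⟩
  · obtain ⟨C, hC⟩ := hF.bdd
    exact ⟨C, fun x => hC _⟩
  · obtain ⟨R, hR⟩ := hF.supp
    refine ⟨R + ‖g 0‖, fun x hx => hR _ ?_⟩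
    have h1 : ‖x‖ = ‖g x - g 0‖ := by
      rw [← dist_eq_norm, g.dist_eq, dist_zero_right]
    have h2 : ‖g x - g 0‖ ≤ ‖g x‖ + ‖g 0‖ := norm_sub_le _ _
    linarith

theorem JC.finset_sum {ι : Type*} (s : Finset ι) {F : ι → E n → ℤ} (h : ∀ i ∈ s, JC (F i)) :
    JC (fun x => ∑ i ∈ s, F i x) := by
  classical
  induction s using Finset.induction_on with
  | empty => simpa using JC.zero
  | insert a s ha ih =>
    have h1 := (h a (Finset.mem_insert_self a s)).add
      (ih fun i hi => h i (Finset.mem_insert_of_mem hi))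
    have h2 : (fun x => ∑ i ∈ insert a s, F i x) = fun x => F a x + ∑ i ∈ s, F i x := by
      funext x; rw [Finset.sum_insert ha]
    rw [h2]; exact h1

theorem LC.aestronglyMeasurable {F : E n → ℝ} (h : LC F) : AEStronglyMeasurable F volume := by
  let U : Set (E n) := {x | ∀ᶠ y in 𝓝 x, F y = F x}
  have hU : IsOpen U := by
    rw [isOpen_iff_mem_nhds]
    intro x hx
    have h1 : ∀ᶠ y in 𝓝 x, ∀ᶠ z in 𝓝 y, F z = F x := eventually_eventually_nhds.mpr hx
    filter_upwards [h1, hx] with y hy hyx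
    show ∀ᶠ z in 𝓝 y, F z = F y
    rw [hyx]; exact hy
  have hc : ContinuousOn F U := by
    intro x hx
    refine ContinuousAt.continuousWithinAt ?_
    exact (tendsto_const_nhds).congr' (EventuallyEq.symm hx)
  have h1 : AEStronglyMeasurable F (volume.restrict U) :=
    hc.aestronglyMeasurable hU.measurableSet
  have h2 : (volume : Measure (E n)).restrict U = volume := by
    refine Measure.restrict_eq_self_of_ae_mem ?_
    exact h
  rwa [h2] at h1

theorem integrable_of_bounded {F : E n → ℝ} (h : LC F) {C R : ℝ} (hC : ∀ᵐ x, |F x| ≤ C)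
    (hR : ∀ᵐ x, R < ‖x‖ → F x = 0) : Integrable F := by
  have h1 : IntegrableOn F (Metric.closedBall 0 R) := by
    refine Measure.integrableOn_of_bounded (M := C) measure_closedBall_lt_top.ne
      h.aestronglyMeasurable ?_
    exact ae_restrict_of_ae (hC.mono fun x hx => by simpa using hx)
  have h2 : Integrable ((Metric.closedBall 0 R).indicator F) :=
    h1.integrable_indicator Metric.isClosed_closedBall.measurableSet
  refine h2.congr ?_
  filter_upwards [hR] with x hx
  by_cases hxR : x ∈ Metric.closedBall (0 : E n) R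
  · simp [hxR]
  · rw [Set.indicator_of_notMem hxR]
    have : R < ‖x‖ := by simpa using hxR
    exact (hx this).symm

theorem JC.integrable {F : E n → ℤ} (hF : JC F) : Integrable (fun x => (F x : ℝ)) := by
  obtain ⟨C, hC⟩ := hF.bdd
  obtain ⟨R, hR⟩ := hF.supp
  refine integrable_of_bounded (C := C) (R := R) (hF.lc.comp _) ?_ ?_
  · exact Eventually.of_forall fun x => by exact_mod_cast hC x
  · exact Eventually.of_forall fun x hx => by rw [hR x hx]; simp

/-- The integral of an integer valued function. -/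
noncomputable def mass (F : E n → ℤ) : ℝ := ∫ x, (F x : ℝ)

theorem mass_congr {F H : E n → ℤ} (h : ∀ᵐ x, F x = H x) : mass F = mass H := by
  refine integral_congr_ae ?_
  filter_upwards [h] with x hx
  rw [hx]

theorem mass_add {F H : E n → ℤ} (hF : JC F) (hH : JC H) :
    mass (fun x => F x + H x) = mass F + mass H := by
  unfold mass
  push_cast
  exact integral_add hF.integrable hH.integrable

theorem mass_sub {F H : E n → ℤ} (hF : JC F) (hH : JC H) :
    mass (fun x => F x - H x) = mass F - mass H := by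
  unfold mass
  push_cast
  exact integral_sub hF.integrable hH.integrable

theorem mass_smul (c : ℤ) (F : E n → ℤ) : mass (fun x => c * F x) = c * mass F := by
  unfold mass
  push_cast
  exact integral_const_mul _ _

theorem mass_finset_sum {ι : Type*} (s : Finset ι) {F : ι → E n → ℤ} (h : ∀ i ∈ s, JC (F i)) :
    mass (fun x => ∑ i ∈ s, F i x) = ∑ i ∈ s, mass (F i) := by
  unfold mass
  push_cast
  exact integral_finsetSum _ fun i hi => (h i hi).integrable

theorem mass_nonneg {F : E n → ℤ} (h : ∀ᵐ x, 0 ≤ F x) : 0 ≤ mass F := by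
  refine integral_nonneg_of_ae ?_
  filter_upwards [h] with x hx
  show (0 : ℝ) ≤ (F x : ℝ)
  exact_mod_cast hx

theorem mass_mono {F H : E n → ℤ} (hF : JC F) (hH : JC H) (h : ∀ᵐ x, F x ≤ H x) :
    mass F ≤ mass H := by
  refine integral_mono_ae hF.integrable hH.integrable ?_
  filter_upwards [h] with x hx
  exact_mod_cast hx

theorem mass_isometry (F : E n → ℤ) (g : E n ≃ᵢ E n) : mass (fun x => F (g x)) = mass F :=
  (measurePreserving_isometry g).integral_comp g.toHomeomorph.measurableEmbedding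
    (fun x => (F x : ℝ))

theorem mass_sub_right (F : E n → ℤ) (t : E n) : mass (fun x => F (x - t)) = mass F :=
  integral_sub_right_eq_self (fun x => (F x : ℝ)) t

theorem eq_zero_of_mass {F : E n → ℤ} (hF : JC F) (h0 : ∀ᵐ x, 0 ≤ F x) (h : mass F = 0) :
    ∀ᵐ x, F x = 0 := by
  have h1 : 0 ≤ᵐ[volume] fun x => (F x : ℝ) := by
    filter_upwards [h0] with x hx
    show (0 : ℝ) ≤ (F x : ℝ)
    exact_mod_cast hx
  have h2 := (integral_eq_zero_iff_of_nonneg_ae h1 hF.integrable).mp h
  filter_upwards [h2] with x hx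
  have hx' : (F x : ℝ) = 0 := hx
  exact_mod_cast hx'

end Pool.Agent.Lib.MP_28492a_gt
end

section

set_option autoImplicit false

open MeasureTheory Filter Topology

namespace Pool.Agent.Lib.MP_28492a_gt

variable {n : ℕ}

/-- The translation by `t`. -/
noncomputable def tr (t : E n) : E n ≃ᵢ E n := IsometryEquiv.addRight t

@[simp] theorem tr_apply (t x : E n) : tr t x = x + t := rfl

@[simp] theorem tr_symm_apply (t x : E n) : (tr t).symm x = x - t := by
  rw [IsometryEquiv.symm_apply_eq, tr_apply, sub_add_cancel]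

/-- The group of translations. -/
def T (n : ℕ) : Subgroup (E n ≃ᵢ E n) where
  carrier := {g | ∃ t, g = tr t}
  mul_mem' := by
    rintro _ _ ⟨s, rfl⟩ ⟨t, rfl⟩
    refine ⟨t + s, ?_⟩
    ext1 x
    show (x + t) + s = x + (t + s)
    rw [add_assoc]
  one_mem' := ⟨0, by ext1 x; simp⟩
  inv_mem' := by
    rintro _ ⟨t, rfl⟩
    refine ⟨-t, ?_⟩
    ext1 x
    show (tr t).symm x = _
    simp [sub_eq_add_neg]

theorem tr_mem (t : E n) : tr t ∈ T n := ⟨t, rfl⟩

theorem mem_T {g : E n ≃ᵢ E n} (h : g ∈ T n) : ∃ t, g = tr t := h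

/-- Pushing all mass to representatives. -/
theorem Eqd.push {κ : Type} [DecidableEq κ] (s : Finset κ) (v : κ → E n) {g : E n → κ}
    (hg : LC g) {H : E n → ℕ} (hH : LC H) (hs : ∀ x, H x ≠ 0 → g x ∈ s) :
    Eqd (T n) H (fun y => ∑ i ∈ s, if g (y + v i) = i then H (y + v i) else 0) := by
  refine ⟨s, inferInstance, fun i => tr (-v i), fun i x => if g x = i then H x else 0,
    fun i => tr_mem _, fun i => ?_, ?_, ?_⟩
  · have := LC.comp₂ (fun (k : κ) (a : ℕ) => if k = i then a else 0) hg hH
    exact this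
  · refine Eventually.of_forall fun x => ?_
    rw [Finset.sum_coe_sort s (fun i => if g x = i then H x else 0), Finset.sum_ite_eq]
    by_cases h : H x = 0
    · simp [h]
    · rw [if_pos (hs x h)]
  · refine Eventually.of_forall fun x => ?_
    simp only [tr_symm_apply, sub_neg_eq_add]
    rw [Finset.sum_coe_sort s (fun i => if g (x + v i) = i then H (x + v i) else 0)]

/-- If an integer function has zero sums on the fibres then its positive and negative parts are
equivalent under translations. -/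
theorem Eqd.of_fiber {κ : Type} [DecidableEq κ] (s : Finset κ) (v : κ → E n) {g : E n → κ}
    (hg : LC g) {φ : E n → ℤ} (hφ : LC φ) (hs : ∀ x, φ x ≠ 0 → g x ∈ s)
    (h0 : ∀ᵐ y, ∑ i ∈ s, (if g (y + v i) = i then φ (y + v i) else 0) = 0) :
    Eqd (T n) (fun x => (φ x).toNat) (fun x => (- φ x).toNat) := by
  have h1 := Eqd.push s v hg (H := fun x => (φ x).toNat) (hφ.comp _)
    (fun x hx => hs x fun h => hx (by simp [h]))
  have h2 := Eqd.push s v hg (H := fun x => (- φ x).toNat) (hφ.comp fun a => (-a).toNat)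
    (fun x hx => hs x fun h => hx (by simp [h]))
  refine h1.trans (h2.symm.congr ?_ (Eventually.of_forall fun _ => rfl))
  filter_upwards [h0] with y hy
  have : (∑ i ∈ s, (if g (y + v i) = i then ((φ (y + v i)).toNat : ℤ) else 0))
      - (∑ i ∈ s, (if g (y + v i) = i then ((- φ (y + v i)).toNat : ℤ) else 0)) = 0 := by
    rw [← Finset.sum_sub_distrib, ← hy]
    refine Finset.sum_congr rfl fun i _ => ?_
    split_ifs
    · omega
    · simp
  zify
  linarith

/-- Coboundaries for translations. -/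
def Cob (F : E n → ℤ) : Prop :=
  ∃ (ι : Type) (_ : Fintype ι) (t : ι → E n) (w : ι → E n → ℤ),
    (∀ i, JC (w i)) ∧ ∀ᵐ x, F x = ∑ i, (w i x - w i (x - t i))

theorem Cob.congr {F H : E n → ℤ} (h : Cob F) (h' : ∀ᵐ x, H x = F x) : Cob H := by
  obtain ⟨ι, _, t, w, hw, h1⟩ := h
  refine ⟨ι, inferInstance, t, w, hw, ?_⟩
  filter_upwards [h', h1] with x hx hx'
  rw [hx, hx']

theorem Cob.single {w : E n → ℤ} (hw : JC w) (t : E n) : Cob (fun x => w x - w (x - t)) :=
  ⟨Unit, inferInstance, fun _ => t, fun _ => w, fun _ => hw, Eventually.of_forall fun x => by simp⟩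

theorem Cob.single' {w : E n → ℤ} (hw : JC w) (t : E n) : Cob (fun x => w (x + t) - w x) := by
  have := Cob.single (hw.add_right t) t
  simpa using this

theorem Cob.zero : Cob (fun _ : E n => (0 : ℤ)) := by
  have := Cob.single (n := n) JC.zero 0
  simpa using this

theorem Cob.add {F H : E n → ℤ} (hF : Cob F) (hH : Cob H) : Cob (fun x => F x + H x) := by
  obtain ⟨ι, _, t, w, hw, h1⟩ := hF
  obtain ⟨κ, _, t', w', hw', h1'⟩ := hH
  refine ⟨ι ⊕ κ, inferInstance, Sum.elim t t', fun s => Sum.elim w w' s, ?_, ?_⟩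
  · rintro (i | i)
    · exact hw i
    · exact hw' i
  · filter_upwards [h1, h1'] with x hx hx'
    rw [hx, hx', Fintype.sum_sum_type]; rfl

theorem Cob.neg {F : E n → ℤ} (hF : Cob F) : Cob (fun x => - F x) := by
  obtain ⟨ι, _, t, w, hw, h1⟩ := hF
  refine ⟨ι, inferInstance, t, fun i x => - w i x, fun i => (hw i).neg, ?_⟩
  filter_upwards [h1] with x hx
  rw [hx, ← Finset.sum_neg_distrib]
  exact Finset.sum_congr rfl fun i _ => by ring

theorem Cob.sub {F H : E n → ℤ} (hF : Cob F) (hH : Cob H) : Cob (fun x => F x - H x) := by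
  simpa [sub_eq_add_neg] using hF.add hH.neg

theorem Cob.smul {F : E n → ℤ} (hF : Cob F) (c : ℤ) : Cob (fun x => c * F x) := by
  obtain ⟨ι, _, t, w, hw, h1⟩ := hF
  refine ⟨ι, inferInstance, t, fun i x => c * w i x, fun i => (hw i).smul c, ?_⟩
  filter_upwards [h1] with x hx
  rw [hx, Finset.mul_sum]
  exact Finset.sum_congr rfl fun i _ => by ring

theorem Cob.finset_sum {ι : Type*} (s : Finset ι) {F : ι → E n → ℤ} (h : ∀ i ∈ s, Cob (F i)) :
    Cob (fun x => ∑ i ∈ s, F i x) := by
  classical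
  induction s using Finset.induction_on with
  | empty => simpa using Cob.zero
  | insert a s ha ih =>
    have h1 := (h a (Finset.mem_insert_self a s)).add
      (ih fun i hi => h i (Finset.mem_insert_of_mem hi))
    have h2 : (fun x => ∑ i ∈ insert a s, F i x) = fun x => F a x + ∑ i ∈ s, F i x := by
      funext x; rw [Finset.sum_insert ha]
    rw [h2]; exact h1

theorem Cob.mass_eq {F : E n → ℤ} (hF : Cob F) : mass F = 0 := by
  obtain ⟨ι, _, t, w, hw, h1⟩ := hF
  rw [mass_congr h1, mass_finset_sum _ fun i _ => (hw i).sub ((hw i).sub_right (t i))]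
  refine Finset.sum_eq_zero fun i _ => ?_
  rw [mass_sub (hw i) ((hw i).sub_right (t i)), mass_sub_right, sub_self]

/-- Pushing to representatives changes an integer function by a coboundary. -/
theorem Cob.push {κ : Type} [DecidableEq κ] (s : Finset κ) (v : κ → E n) {g : E n → κ}
    (hg : LC g) {H : E n → ℤ} (hH : JC H) (hs : ∀ x, H x ≠ 0 → g x ∈ s) :
    Cob (fun y => H y - ∑ i ∈ s, if g (y + v i) = i then H (y + v i) else 0) := by
  refine ⟨s, inferInstance, fun i => -v i, fun i x => if g x = i then H x else 0, fun i => ?_, ?_⟩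
  · exact hH.ite (hg.comp fun k : κ => k = (i : κ))
  · refine Eventually.of_forall fun x => ?_
    simp only [sub_neg_eq_add]
    rw [Finset.sum_coe_sort s (fun i => (if g x = i then H x else 0) -
      (if g (x + v i) = i then H (x + v i) else 0)), Finset.sum_sub_distrib, Finset.sum_ite_eq]
    by_cases h : H x = 0
    · simp [h]
    · rw [if_pos (hs x h)]

/-- Truncation: the pieces of a transport of a `JC` function can be chosen `JC`. -/
theorem Eqd.exists_JC {G : Subgroup (E n ≃ᵢ E n)} {F F' : E n → ℕ} (h : Eqd G F F')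
    (hF : JC (fun x => (F x : ℤ))) :
    ∃ (ι : Type) (_ : Fintype ι) (g : ι → (E n ≃ᵢ E n)) (w : ι → E n → ℕ),
    (∀ i, g i ∈ G) ∧ (∀ i, JC (fun x => (w i x : ℤ))) ∧ (∀ᵐ x, F x = ∑ i, w i x) ∧
      (∀ᵐ x, F' x = ∑ i, w i ((g i).symm x)) := by
  obtain ⟨ι, _, g, w, hg, hw, h1, h2⟩ := h
  have hle : ∀ᵐ x, ∀ i, min (w i x) (F x) = w i x := by
    filter_upwards [h1] with x hx
    intro i
    rw [min_eq_left]
    rw [hx]
    exact Finset.single_le_sum (f := fun i => w i x) (fun _ _ => Nat.zero_le _) (Finset.mem_univ i)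
  refine ⟨ι, inferInstance, g, fun i x => min (w i x) (F x), hg, fun i => ?_, ?_, ?_⟩
  · have hFl : LC F := by
      have := hF.lc.comp Int.toNat
      exact this.congr_of_eq fun x => by simp
    refine hF.of_abs_le (LC.comp₂ (fun a b => ((min a b : ℕ) : ℤ)) (hw i) hFl) fun x => ?_
    have : min (w i x) (F x) ≤ F x := min_le_right _ _
    rw [abs_of_nonneg (by positivity), abs_of_nonneg (by positivity)]
    exact_mod_cast this
  · filter_upwards [h1, hle] with x hx hx'
    rw [hx]
    refine Finset.sum_congr rfl fun i _ => ?_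
    rw [← hx]; exact (hx' i).symm
  · filter_upwards [h2, ae_all_iff.mpr fun i => ae_isometry hle (g i).symm] with x hx hx'
    rw [hx]
    exact Finset.sum_congr rfl fun i _ => ((hx' i) i).symm

theorem Eqd.mass_eq {G : Subgroup (E n ≃ᵢ E n)} {F F' : E n → ℕ} (h : Eqd G F F')
    (hF : JC (fun x => (F x : ℤ))) : mass (fun x => (F' x : ℤ)) = mass (fun x => (F x : ℤ)) := by
  obtain ⟨ι, _, g, w, hg, hw, h1, h2⟩ := h.exists_JC hF
  have e1 : mass (fun x => (F x : ℤ)) = ∑ i, mass (fun x => (w i x : ℤ)) := by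
    rw [← mass_finset_sum _ fun i _ => hw i]
    refine mass_congr ?_
    filter_upwards [h1] with x hx
    rw [hx]; push_cast; rfl
  have e2 : mass (fun x => (F' x : ℤ)) = ∑ i, mass (fun x => (w i ((g i).symm x) : ℤ)) := by
    rw [← mass_finset_sum _ fun i _ => (hw i).isometry (g i).symm]
    refine mass_congr ?_
    filter_upwards [h2] with x hx
    rw [hx]; push_cast; rfl
  rw [e1, e2]
  exact Finset.sum_congr rfl fun i _ => mass_isometry (fun x => (w i x : ℤ)) (g i).symm

/-- Equivalence under translations gives a coboundary. -/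
theorem Eqd.cob {F F' : E n → ℕ} (h : Eqd (T n) F F') (hF : JC (fun x => (F x : ℤ))) :
    Cob (fun x => (F x : ℤ) - F' x) := by
  obtain ⟨ι, _, g, w, hg, hw, h1, h2⟩ := h.exists_JC hF
  choose t ht using fun i => mem_T (hg i)
  refine ⟨ι, inferInstance, t, fun i x => (w i x : ℤ), hw, ?_⟩
  filter_upwards [h1, h2] with x hx hx'
  rw [hx, hx']
  push_cast
  rw [Finset.sum_sub_distrib]
  congr 1
  refine Finset.sum_congr rfl fun i _ => ?_
  rw [ht i, tr_symm_apply]

end Pool.Agent.Lib.MP_28492a_gt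
end

section

set_option autoImplicit false

open MeasureTheory Filter Topology

namespace Pool.Agent.Lib.MP_28492a_gt

variable {n : ℕ}

/-- The vector with coordinates `m c / N`. -/
noncomputable def lat (N : ℕ) (m : Fin n → ℤ) : E n := WithLp.toLp 2 (fun c => (m c : ℝ) / N)

@[simp] theorem lat_apply (N : ℕ) (m : Fin n → ℤ) (c : Fin n) : lat N m c = (m c : ℝ) / N := rfl

theorem lat_add (N : ℕ) (m m' : Fin n → ℤ) : lat N (m + m') = lat N m + lat N m' := by
  ext c
  simp [add_div]

theorem lat_sub (N : ℕ) (m m' : Fin n → ℤ) : lat N (m - m') = lat N m - lat N m' := by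
  ext c
  simp [sub_div]

@[simp] theorem lat_zero (N : ℕ) : lat N (0 : Fin n → ℤ) = 0 := by
  ext c
  simp

/-- The index of the lattice cell containing `x`. -/
noncomputable def cell (N : ℕ) (x : E n) : Fin n → ℤ := fun c => ⌊(N : ℝ) * x c⌋

theorem cell_add_lat {N : ℕ} (hN : 0 < N) (x : E n) (m : Fin n → ℤ) :
    cell N (x + lat N m) = cell N x + m := by
  funext c
  have hN' : (N : ℝ) ≠ 0 := by exact_mod_cast hN.ne'
  simp only [cell, PiLp.add_apply, lat_apply, Pi.add_apply]
  rw [mul_add, mul_div_cancel₀ _ hN', Int.floor_add_intCast]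

theorem cell_sub_lat {N : ℕ} (hN : 0 < N) (x : E n) (m : Fin n → ℤ) :
    cell N (x - lat N m) = cell N x - m := by
  have h := cell_add_lat hN (x - lat N m) m
  rw [sub_add_cancel] at h
  rw [h, add_sub_cancel_right]

theorem ae_floor (a : ℝ) (b : ℝ) (ha : a ≠ 0) :
    ∀ᵐ x : ℝ, ∀ᶠ y in 𝓝 x, ⌊a * y + b⌋ = ⌊a * x + b⌋ := by
  have hcount : (Set.range fun k : ℤ => ((k : ℝ) - b) / a).Countable := Set.countable_range _
  filter_upwards [hcount.ae_notMem volume] with x hx
  have h1 : (⌊a * x + b⌋ : ℝ) < a * x + b := by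
    refine lt_of_le_of_ne (Int.floor_le _) fun h => hx ⟨⌊a * x + b⌋, ?_⟩
    show ((⌊a * x + b⌋ : ℝ) - b) / a = x
    rw [h]; field_simp; ring
  have h2 : a * x + b < ⌊a * x + b⌋ + 1 := Int.lt_floor_add_one _
  have hc : Continuous fun y : ℝ => a * y + b := by fun_prop
  filter_upwards [hc.continuousAt.eventually (lt_mem_nhds h1),
    hc.continuousAt.eventually (gt_mem_nhds h2)] with y hy1 hy2
  exact Int.floor_eq_iff.mpr ⟨hy1.le, hy2⟩

theorem LC.cell {N : ℕ} (hN : 0 < N) : LC (cell (n := n) N) := by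
  have hN' : (N : ℝ) ≠ 0 := by exact_mod_cast hN.ne'
  refine LC.pi fun c => ?_
  refine LC.coord (F := fun y : ℝ => ⌊(N : ℝ) * y⌋) c ?_
  have := ae_floor (N : ℝ) 0 hN'
  simpa using this

theorem abs_coord_le (x : E n) (c : Fin n) : |x c| ≤ ‖x‖ := by
  have := PiLp.norm_apply_le x c
  simpa using this

theorem exists_cells (N : ℕ) {F : E n → ℤ} (hF : ∃ R : ℝ, ∀ x, R < ‖x‖ → F x = 0) :
    ∃ K : Finset (Fin n → ℤ), ∀ x, F x ≠ 0 → cell N x ∈ K := by
  obtain ⟨R, hR⟩ := hF
  refine ⟨Fintype.piFinset fun _ => Finset.Icc ⌊-(N * R)⌋ ⌊N * R⌋, fun x hx => ?_⟩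
  rw [Fintype.mem_piFinset]
  intro c
  have hxR : ‖x‖ ≤ R := by
    by_contra h
    exact hx (hR x (not_le.mp h))
  have h1 := (abs_le.mp ((abs_coord_le x c).trans hxR))
  have hN : (0 : ℝ) ≤ N := Nat.cast_nonneg N
  rw [Finset.mem_Icc]
  constructor
  · apply Int.floor_le_floor
    nlinarith [mul_le_mul_of_nonneg_left h1.1 hN]
  · apply Int.floor_le_floor
    exact mul_le_mul_of_nonneg_left h1.2 hN

/-- Periodisation with respect to the lattice `(1/N) ℤ^n`. -/
noncomputable def Per (N : ℕ) (F : E n → ℤ) (y : E n) : ℤ := ∑ᶠ m : Fin n → ℤ, F (y + lat N m)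

theorem support_finite {N : ℕ} (hN : 0 < N) {F : E n → ℤ}
    (hF : ∃ R : ℝ, ∀ x, R < ‖x‖ → F x = 0) (y : E n) :
    (Function.support fun m : Fin n → ℤ => F (y + lat N m)).Finite := by
  obtain ⟨K, hK⟩ := exists_cells N hF
  refine Set.Finite.subset ((K.finite_toSet).image fun k => k - cell N y) ?_
  intro m hm
  refine ⟨cell N y + m, ?_, by simp⟩
  have := hK _ hm
  rwa [cell_add_lat hN] at this

theorem Per_periodic (N : ℕ) (F : E n → ℤ) (y : E n) (m : Fin n → ℤ) :
    Per N F (y + lat N m) = Per N F y := by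
  unfold Per
  refine Eq.trans (finsum_congr fun k => ?_)
    (finsum_comp_equiv (f := fun k => F (y + lat N k)) (Equiv.addLeft m))
  simp only [Equiv.coe_addLeft]
  rw [lat_add, add_assoc]

theorem Per_sub_right (N : ℕ) (F : E n → ℤ) (t y : E n) :
    Per N (fun x => F (x - t)) y = Per N F (y - t) := by
  unfold Per
  refine finsum_congr fun k => ?_
  show F (y + lat N k - t) = F (y - t + lat N k)
  rw [add_sub_right_comm]

theorem Per_eq_sum {N : ℕ} (hN : 0 < N) {F : E n → ℤ} {K : Finset (Fin n → ℤ)}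
    (hK : ∀ x, F x ≠ 0 → cell N x ∈ K) (y : E n) :
    Per N F y = ∑ m ∈ K, F (y - lat N (cell N y) + lat N m) := by
  unfold Per
  rw [← finsum_comp_equiv (Equiv.subRight (cell N y))]
  rw [finsum_eq_sum_of_support_subset (s := K)]
  · refine Finset.sum_congr rfl fun m _ => ?_
    simp only [Equiv.subRight_apply]
    rw [lat_sub]
    congr 1
    abel
  · intro m hm
    have := hK _ hm
    simp only [Equiv.subRight_apply] at this
    rw [cell_add_lat hN] at this
    simpa using this

theorem Per_add {N : ℕ} (hN : 0 < N) {F H : E n → ℤ} (hF : JC F) (hH : JC H) (y : E n) :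
    Per N (fun x => F x + H x) y = Per N F y + Per N H y := by
  unfold Per
  exact finsum_add_distrib (support_finite hN hF.supp y) (support_finite hN hH.supp y)

theorem Per_sub {N : ℕ} (hN : 0 < N) {F H : E n → ℤ} (hF : JC F) (hH : JC H) (y : E n) :
    Per N (fun x => F x - H x) y = Per N F y - Per N H y := by
  unfold Per
  exact finsum_sub_distrib (support_finite hN hF.supp y) (support_finite hN hH.supp y)

theorem Per_neg {N : ℕ} (F : E n → ℤ) (y : E n) :
    Per N (fun x => - F x) y = - Per N F y := by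
  unfold Per
  exact finsum_neg_distrib _

theorem Per_smul {N : ℕ} (hN : 0 < N) {F : E n → ℤ} (hF : JC F) (c : ℤ) (y : E n) :
    Per N (fun x => c * F x) y = c * Per N F y := by
  unfold Per
  exact (mul_finsum _ _).symm

theorem Per_finset_sum {N : ℕ} (hN : 0 < N) {ι : Type*} (s : Finset ι) {F : ι → E n → ℤ}
    (h : ∀ i ∈ s, JC (F i)) (y : E n) :
    Per N (fun x => ∑ i ∈ s, F i x) y = ∑ i ∈ s, Per N (F i) y := by
  classical
  induction s using Finset.induction_on with
  | empty => simp [Per]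
  | insert a s ha ih =>
    have h2 : (fun x => ∑ i ∈ insert a s, F i x) = fun x => F a x + ∑ i ∈ s, F i x := by
      funext x; rw [Finset.sum_insert ha]
    rw [h2, Per_add hN (h a (Finset.mem_insert_self a s))
      (JC.finset_sum _ fun i hi => h i (Finset.mem_insert_of_mem hi)),
      ih fun i hi => h i (Finset.mem_insert_of_mem hi), Finset.sum_insert ha]

theorem Per_congr {N : ℕ} {F H : E n → ℤ} (h : ∀ᵐ x, F x = H x) :
    ∀ᵐ y, Per N F y = Per N H y := by
  have h1 : ∀ᵐ y, ∀ m : Fin n → ℤ, F (y + lat N m) = H (y + lat N m) :=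
    ae_all_iff.mpr fun m => ae_add h (lat N m)
  filter_upwards [h1] with y hy
  unfold Per
  exact finsum_congr hy

theorem JC.Per_lc {N : ℕ} (hN : 0 < N) {F : E n → ℤ} (hF : JC F) : LC (Per N F) := by
  obtain ⟨K, hK⟩ := exists_cells N hF.supp
  have h1 : LC (fun y => ∑ m ∈ K, F (y - lat N (cell N y) + lat N m)) := by
    refine LC.finset_sum _ fun m _ => ?_
    exact LC.bind (F := fun c y => F (y - lat N c + lat N m)) (LC.cell hN) fun c =>
      (hF.lc.add_right (lat N m)).sub_right (lat N c)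
  exact h1.congr_of_eq fun y => Per_eq_sum hN hK y

theorem JC.Per_bdd {N : ℕ} (hN : 0 < N) {F : E n → ℤ} (hF : JC F) :
    ∃ C : ℤ, ∀ y, |Per N F y| ≤ C := by
  obtain ⟨K, hK⟩ := exists_cells N hF.supp
  obtain ⟨C, hC⟩ := hF.bdd
  refine ⟨∑ m ∈ K, C, fun y => ?_⟩
  rw [Per_eq_sum hN hK y]
  exact (Finset.abs_sum_le_sum_abs _ _).trans (Finset.sum_le_sum fun m _ => hC _)

theorem sum_cells {N : ℕ} (hN : 0 < N) {F : E n → ℤ} {K : Finset (Fin n → ℤ)}
    (hK : ∀ x, F x ≠ 0 → cell N x ∈ K) (y : E n) :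
    ∑ i ∈ K, (if cell N (y + lat N i) = i then F (y + lat N i) else 0)
      = if cell N y = 0 then Per N F y else 0 := by
  by_cases h : cell N y = 0
  · rw [if_pos h, Per_eq_sum hN hK, h]
    refine Finset.sum_congr rfl fun i _ => ?_
    rw [cell_add_lat hN, h]
    simp
  · rw [if_neg h]
    refine Finset.sum_eq_zero fun i _ => ?_
    rw [if_neg]
    rw [cell_add_lat hN]
    intro h'
    exact h (by simpa using h')

/-- `F` and its periodisation on the fundamental cell differ by a coboundary. -/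
theorem Cob.per {N : ℕ} (hN : 0 < N) {F : E n → ℤ} (hF : JC F) :
    Cob (fun x => F x - if cell N x = 0 then Per N F x else 0) := by
  obtain ⟨K, hK⟩ := exists_cells N hF.supp
  refine (Cob.push K (lat N) (LC.cell hN) hF hK).congr (Eventually.of_forall fun x => ?_)
  rw [sum_cells hN hK]

/-- Functions with zero periodisation have equivalent positive and negative part. -/
theorem Eqd.of_per {N : ℕ} (hN : 0 < N) {φ : E n → ℤ} (hφ : JC φ) (h0 : ∀ᵐ y, Per N φ y = 0) :
    Eqd (T n) (fun x => (φ x).toNat) (fun x => (- φ x).toNat) := by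
  obtain ⟨K, hK⟩ := exists_cells N hφ.supp
  refine Eqd.of_fiber K (lat N) (LC.cell hN) hφ.lc hK ?_
  filter_upwards [h0] with y hy
  rw [sum_cells hN hK, hy]
  simp

theorem norm_le_of_cell {N : ℕ} (hN : 0 < N) {x : E n} (h : cell N x = 0) : ‖x‖ ≤ n := by
  have hN' : (1 : ℝ) ≤ N := by exact_mod_cast hN
  have hx : ∀ c, 0 ≤ x c ∧ x c ≤ 1 := by
    intro c
    have hc : ⌊(N : ℝ) * x c⌋ = 0 := congrFun h c
    rw [Int.floor_eq_iff] at hc
    simp only [Int.cast_zero, zero_add] at hc
    constructor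
    · nlinarith [hc.1]
    · nlinarith [hc.2]
  have h2 : ‖x‖ ^ 2 ≤ (n : ℝ) ^ 2 := by
    rw [EuclideanSpace.norm_sq_eq]
    calc ∑ i, ‖x i‖ ^ 2 ≤ ∑ _i : Fin n, (1 : ℝ) := by
          refine Finset.sum_le_sum fun c _ => ?_
          rw [Real.norm_eq_abs, abs_of_nonneg (hx c).1]
          nlinarith [hx c]
      _ = n := by simp
      _ ≤ (n : ℝ) ^ 2 := by
          rcases Nat.eq_zero_or_pos n with rfl | hn
          · simp
          · have : (1 : ℝ) ≤ n := by exact_mod_cast hn
            nlinarith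
  exact (pow_le_pow_iff_left₀ (norm_nonneg _) (Nat.cast_nonneg n) two_ne_zero).mp h2

theorem JC.of_cell {N : ℕ} (hN : 0 < N) {h : E n → ℤ} (hl : LC h) (hb : ∃ C : ℤ, ∀ x, |h x| ≤ C) :
    JC (fun x => if cell N x = 0 then h x else 0) := by
  refine ⟨?_, ?_, ?_⟩
  · exact LC.comp₂ (fun (k : Fin n → ℤ) (a : ℤ) => if k = 0 then a else 0) (LC.cell hN) hl
  · obtain ⟨C, hC⟩ := hb
    refine ⟨C, fun x => ?_⟩
    split_ifs
    · exact hC x
    · simpa using (abs_nonneg (h x)).trans (hC x)
  · refine ⟨n, fun x hx => ?_⟩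
    rw [if_neg]
    intro h'
    exact absurd (norm_le_of_cell hN h') (not_le.mpr hx)

/-- For periodic functions, translation differences are coboundaries after cutting off. -/
theorem Cob.periodic {h : E n → ℤ} (hl : LC h) (hb : ∃ C : ℤ, ∀ x, |h x| ≤ C)
    (hp : ∀ x m, h (x + lat 1 m) = h x) (t : E n) :
    Cob (fun x => if cell 1 x = 0 then h x - h (x - t) else 0) := by
  set u : E n → ℤ := fun x => if cell 1 x = 0 then h x else 0 with hu
  have hJ : JC u := JC.of_cell one_pos hl hb
  have hper : ∀ y, Per 1 u y = h y := by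
    intro y
    unfold Per
    rw [finsum_eq_single _ (-cell 1 y)]
    · simp only [hu]
      rw [cell_add_lat one_pos, if_pos (by simp), hp]
    · intro m hm
      simp only [hu]
      rw [cell_add_lat one_pos, if_neg]
      intro h'
      exact hm (eq_neg_of_add_eq_zero_right h')
  have h1 := Cob.per one_pos (hJ.sub_right t)
  have h2 := (Cob.single hJ t).add h1
  refine h2.congr (Eventually.of_forall fun x => ?_)
  rw [Per_sub_right, hper]
  simp only [hu]
  split_ifs <;> ring

end Pool.Agent.Lib.MP_28492a_gt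
end
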