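import Mathlib
import Pool.Agent.Lib.MP_28492a_gt.Lattice

section

section

set_option autoImplicit false

open MeasureTheory Filter Topology

namespace Pool.Agent.Lib.MP_28492a_gt

variable {n : ℕ}

/-- `JC` for natural number valued functions. -/
def JN (F : E n → ℕ) : Prop := JC (fun x => (F x : ℤ))

theorem JN.lc {F : E n → ℕ} (h : JN F) : LC F := by
  have := (JC.lc h).comp Int.toNat
  exact this.congr_of_eq fun x => by simp

theorem JN.zero : JN (fun _ : E n => 0) := by
  have := JC.zero (n := n)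
  simpa [JN] using this

theorem JN.add {F H : E n → ℕ} (hF : JN F) (hH : JN H) : JN (fun x => F x + H x) := by
  have := JC.add hF hH
  simpa [JN] using this

theorem JN.finset_sum {ι : Type*} (s : Finset ι) {F : ι → E n → ℕ} (h : ∀ i ∈ s, JN (F i)) :
    JN (fun x => ∑ i ∈ s, F i x) := by
  have := JC.finset_sum s h
  simpa [JN] using this

theorem JN.smul {F : E n → ℕ} (hF : JN F) (k : ℕ) : JN (fun x => k * F x) := by
  have := JC.smul hF (k : ℤ)
  simpa [JN] using this

theorem JN.of_le {F H : E n → ℕ} (hF : JN F) (hH : LC H) (h : ∀ x, H x ≤ F x) : JN H := by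
  refine JC.of_abs_le hF (hH.comp _) fun x => ?_
  rw [abs_of_nonneg (by positivity), abs_of_nonneg (by positivity)]
  exact_mod_cast h x

theorem JN.sub_right {F : E n → ℕ} (hF : JN F) (t : E n) : JN (fun x => F (x - t)) :=
  JC.sub_right hF t

theorem JC.toNat {F : E n → ℤ} (hF : JC F) : JN (fun x => (F x).toNat) := by
  refine hF.of_abs_le (hF.lc.comp fun a => ((a.toNat : ℕ) : ℤ)) fun x => ?_
  rw [abs_of_nonneg (by positivity)]
  show ((F x).toNat : ℤ) ≤ |F x|
  rcases le_total 0 (F x) with h | h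
  · rw [Int.toNat_of_nonneg h]; exact le_abs_self _
  · rw [Int.toNat_of_nonpos h]; simp

theorem JN.jc {F : E n → ℕ} (h : JN F) : JC (fun x => (F x : ℤ)) := h

/-- The integral of a natural number valued function. -/
noncomputable def massN (F : E n → ℕ) : ℝ := mass (fun x => (F x : ℤ))

theorem massN_nonneg (F : E n → ℕ) : 0 ≤ massN F :=
  mass_nonneg (Eventually.of_forall fun _ => Nat.cast_nonneg _)

theorem massN_congr {F H : E n → ℕ} (h : ∀ᵐ x, F x = H x) : massN F = massN H :=
  mass_congr (h.mono fun x hx => by rw [hx])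

theorem massN_add {F H : E n → ℕ} (hF : JN F) (hH : JN H) :
    massN (fun x => F x + H x) = massN F + massN H := by
  have := mass_add hF hH
  simpa [massN] using this

theorem massN_finset_sum {ι : Type*} (s : Finset ι) {F : ι → E n → ℕ} (h : ∀ i ∈ s, JN (F i)) :
    massN (fun x => ∑ i ∈ s, F i x) = ∑ i ∈ s, massN (F i) := by
  have := mass_finset_sum s h
  simpa [massN] using this

theorem massN_mono {F H : E n → ℕ} (hF : JN F) (hH : JN H) (h : ∀ᵐ x, F x ≤ H x) :
    massN F ≤ massN H :=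
  mass_mono hF hH (h.mono fun x hx => by exact_mod_cast hx)

theorem massN_smul (k : ℕ) (F : E n → ℕ) : massN (fun x => k * F x) = k * massN F := by
  have := mass_smul (k : ℤ) (fun x => (F x : ℤ))
  simpa [massN] using this

theorem massN_sub_right (F : E n → ℕ) (t : E n) : massN (fun x => F (x - t)) = massN F :=
  mass_sub_right (fun x => (F x : ℤ)) t

theorem Eqd.massN_eq {G : Subgroup (E n ≃ᵢ E n)} {F F' : E n → ℕ} (h : Eqd G F F')
    (hF : JN F) : massN F' = massN F := h.mass_eq hF

theorem eq_zero_of_massN {F : E n → ℕ} (hF : JN F) (h : massN F = 0) : ∀ᵐ x, F x = 0 := by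
  have := eq_zero_of_mass hF (Eventually.of_forall fun _ => Nat.cast_nonneg _) h
  filter_upwards [this] with x hx
  exact_mod_cast hx

theorem Eqd.tr {F : E n → ℕ} (hF : LC F) (t : E n) : Eqd (T n) F (fun x => F (x - t)) :=
  ⟨Unit, inferInstance, fun _ => Pool.Agent.Lib.MP_28492a_gt.tr t, fun _ => F, fun _ => tr_mem t,
    fun _ => hF, Eventually.of_forall fun x => by simp, Eventually.of_forall fun x => by simp⟩

theorem norm_le_sum (x : E n) : ‖x‖ ≤ ∑ c, |x c| := by
  have h1 : x = ∑ c, EuclideanSpace.single c (x c) := by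
    ext c
    simp [Finset.sum_apply]
  calc ‖x‖ = ‖∑ c, EuclideanSpace.single c (x c)‖ := by rw [← h1]
    _ ≤ ∑ c, ‖EuclideanSpace.single c (x c)‖ := norm_sum_le _ _
    _ = ∑ c, |x c| := by simp

/-- For large `N` the lattice sums of a function of positive integral are nonnegative. -/
theorem exists_per_nonneg {h : E n → ℤ} (hJ : JC h) (hm : 0 < mass h) :
    ∃ N : ℕ, 0 < N ∧ ∀ y, 0 ≤ Per N h y := by
  by_contra hcon
  push Not at hcon
  have hcon' : ∀ N : ℕ, 0 < N → ∃ y, cell N y = 0 ∧ Per N h y < 0 := by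
    intro N hN
    obtain ⟨y, hy⟩ := hcon N hN
    refine ⟨y - lat N (cell N y), ?_, ?_⟩
    · rw [cell_sub_lat hN, sub_self]
    · have := Per_periodic N h (y - lat N (cell N y)) (cell N y)
      rw [sub_add_cancel] at this
      rw [← this]; exact hy
  choose y hy0 hy using fun N : ℕ => hcon' (N + 1) N.succ_pos
  let z : ℕ → E n → E n := fun N x => y N + lat (N + 1) (cell (N + 1) x)
  have hz : ∀ N x, ‖z N x - x‖ ≤ n / (N + 1 : ℝ) := by
    intro N x
    have hN : (0 : ℝ) < N + 1 := by positivity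
    have hc : ∀ c, |(z N x - x) c| ≤ 1 / (N + 1 : ℝ) := by
      intro c
      have h1 : ⌊((N + 1 : ℕ) : ℝ) * (y N) c⌋ = 0 := congrFun (hy0 N) c
      rw [Int.floor_eq_iff] at h1
      simp only [Int.cast_zero, zero_add] at h1
      have e1 : (z N x - x) c = (y N) c + (⌊((N + 1 : ℕ) : ℝ) * x c⌋ : ℝ) / ((N + 1 : ℕ) : ℝ) - x c := rfl
      have h2 := Int.floor_le (((N + 1 : ℕ) : ℝ) * x c)
      have h3 := Int.lt_floor_add_one (((N + 1 : ℕ) : ℝ) * x c)
      push_cast at h1 h2 h3 e1
      rw [abs_le]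
      have e2 : (z N x - x) c = (((N : ℝ) + 1) * (y N) c + (⌊((N : ℝ) + 1) * x c⌋ : ℝ) - ((N : ℝ) + 1) * x c) / (N + 1) := by
        rw [e1]; field_simp
      rw [e2]
      constructor
      · rw [neg_div' , div_le_div_iff_of_pos_right hN]
        linarith [h1.1]
      · rw [div_le_div_iff_of_pos_right hN]
        linarith [h1.2]
    calc ‖z N x - x‖ ≤ ∑ c, |(z N x - x) c| := norm_le_sum _
      _ ≤ ∑ _c : Fin n, 1 / (N + 1 : ℝ) := Finset.sum_le_sum fun c _ => hc c
      _ = n / (N + 1 : ℝ) := by simp [div_eq_mul_inv]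
  obtain ⟨C, hC⟩ := hJ.bdd
  obtain ⟨R, hR⟩ := hJ.supp
  have hlc : ∀ N, LC (fun x => h (z N x)) := fun N =>
    LC.bind (F := fun c _ => h (y N + lat (N + 1) c)) (LC.cell N.succ_pos) fun c => LC.const _
  have hsupp : ∀ N x, R + n < ‖x‖ → h (z N x) = 0 := by
    intro N x hx
    apply hR
    have h1 := hz N x
    have h2 : ‖x‖ ≤ ‖z N x‖ + ‖z N x - x‖ := by
      have := norm_sub_norm_le x (z N x)
      rw [norm_sub_rev] at this
      linarith
    have h3 : (n : ℝ) / (N + 1 : ℝ) ≤ n := div_le_self (Nat.cast_nonneg n) (by linarith [(Nat.cast_nonneg N : (0:ℝ) ≤ N)])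
    linarith
  have hJz : ∀ N, JC (fun x => h (z N x)) := fun N =>
    ⟨hlc N, ⟨C, fun x => hC _⟩, ⟨R + n, hsupp N⟩⟩
  have hneg : ∀ N, mass (fun x => h (z N x)) ≤ 0 := by
    intro N
    have h1 := (Cob.per N.succ_pos (hJz N)).mass_eq
    have hPer : ∀ x, Per (N + 1) (fun x => h (z N x)) x = Per (N + 1) h (y N) := by
      intro x
      unfold Per
      refine Eq.trans (finsum_congr fun m => ?_)
        (finsum_comp_equiv (f := fun m => h (y N + lat (N + 1) m)) (Equiv.addLeft (cell (N + 1) x)))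
      simp only [z, Equiv.coe_addLeft]
      rw [cell_add_lat N.succ_pos]
    have hJ2 : JC (fun x => if cell (N + 1) x = 0 then Per (N + 1) (fun x => h (z N x)) x else 0) :=
      JC.of_cell N.succ_pos ((hJz N).Per_lc N.succ_pos) ((hJz N).Per_bdd N.succ_pos)
    have h1' : mass (fun x => h (z N x)) - mass (fun x => if cell (N + 1) x = 0 then
        Per (N + 1) (fun x => h (z N x)) x else 0) = 0 := by
      rw [← mass_sub (hJz N) hJ2]; exact h1
    have h2 : mass (fun x => if cell (N + 1) x = 0 then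
        Per (N + 1) (fun x => h (z N x)) x else 0) ≤ mass (fun _ : E n => 0) := by
      refine mass_mono hJ2 JC.zero (Eventually.of_forall fun x => ?_)
      simp only [hPer]
      split_ifs
      · exact (hy N).le
      · exact le_rfl
    have h3 : mass (fun _ : E n => 0) = 0 := by simp [mass]
    linarith
  have hlim : Tendsto (fun N => mass (fun x => h (z N x))) atTop (𝓝 (mass h)) := by
    unfold mass
    refine tendsto_integral_of_dominated_convergence
      ((Metric.closedBall (0 : E n) (R + n)).indicator fun _ => (C : ℝ)) ?_ ?_ ?_ ?_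
    · intro N; exact ((hJz N).integrable).aestronglyMeasurable
    · exact (integrableOn_const measure_closedBall_lt_top.ne).integrable_indicator
        Metric.isClosed_closedBall.measurableSet
    · intro N
      refine Eventually.of_forall fun x => ?_
      by_cases hx : x ∈ Metric.closedBall (0 : E n) (R + n)
      · rw [Set.indicator_of_mem hx, Real.norm_eq_abs]
        exact_mod_cast hC _
      · have h0 : h (z N x) = 0 := hsupp N x (by simpa using hx)
        rw [Set.indicator_of_notMem hx]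
        show ‖((h (z N x) : ℤ) : ℝ)‖ ≤ 0
        rw [h0]; simp
    · filter_upwards [hJ.lc] with x hx
      have hzx : Tendsto (fun N => z N x) atTop (𝓝 x) := by
        rw [tendsto_iff_norm_sub_tendsto_zero]
        refine squeeze_zero (fun N => norm_nonneg _) (fun N => hz N x) ?_
        have := tendsto_one_div_add_atTop_nhds_zero_nat (𝕜 := ℝ)
        have h2 := this.const_mul (n : ℝ)
        simpa [div_eq_mul_inv] using h2
      refine tendsto_const_nhds.congr' ?_
      filter_upwards [hzx.eventually hx] with N hN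
      rw [hN]
  exact absurd (le_of_tendsto' hlim hneg) (not_le.mpr hm)

/-- Natural number valued pushing to the fundamental cell. -/
theorem Eqd.pushN {N : ℕ} (hN : 0 < N) {F : E n → ℕ} (hF : JN F) :
    Eqd (T n) F (fun x => (if cell N x = 0 then Per N (fun x => (F x : ℤ)) x else 0).toNat) := by
  obtain ⟨K, hK⟩ := exists_cells N hF.supp
  refine (Eqd.push K (lat N) (LC.cell hN) hF.lc (fun x hx => hK x (by exact_mod_cast hx))).congr
    (Eventually.of_forall fun _ => rfl) (Eventually.of_forall fun x => ?_)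
  rw [← sum_cells hN hK]
  have : (∑ i ∈ K, if cell N (x + lat N i) = i then (F (x + lat N i) : ℤ) else 0)
      = ((∑ i ∈ K, if cell N (x + lat N i) = i then F (x + lat N i) else 0 : ℕ) : ℤ) := by
    push_cast; rfl
  rw [this, Int.toNat_natCast]

theorem Per_nonneg {N : ℕ} {F : E n → ℤ} (hF : ∀ x, 0 ≤ F x) (y : E n) : 0 ≤ Per N F y :=
  finsum_nonneg fun _ => hF _

/-- Comparison: a function of smaller integral is dominated up to equivalence. -/
theorem exists_compl {e c : E n → ℕ} (he : JN e) (hc : JN c) (h : massN e < massN c) :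
    ∃ r : E n → ℕ, JN r ∧ Eqd (T n) c (fun x => e x + r x) := by
  have hJ : JC (fun x => (c x : ℤ) - e x) := hc.jc.sub he.jc
  have hm : 0 < mass (fun x => (c x : ℤ) - e x) := by
    rw [mass_sub hc.jc he.jc]
    exact sub_pos.mpr h
  obtain ⟨N, hN, hpos⟩ := exists_per_nonneg hJ hm
  have hJr : JC (fun x => if cell N x = 0 then Per N (fun x => (c x : ℤ) - e x) x else 0) :=
    JC.of_cell hN (hJ.Per_lc hN) (hJ.Per_bdd hN)
  refine ⟨_, hJr.toNat, ?_⟩
  refine (Eqd.pushN hN hc).trans ?_
  refine (((Eqd.pushN hN he).symm).add (Eqd.refl hJr.toNat.lc)).congr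
    (Eventually.of_forall fun x => ?_) (Eventually.of_forall fun _ => rfl)
  have h1 : Per N (fun x => (c x : ℤ) - e x) x = Per N (fun x => (c x : ℤ)) x
      - Per N (fun x => (e x : ℤ)) x := Per_sub hN hc.jc he.jc x
  have h2 := hpos x
  have h3 : 0 ≤ Per N (fun x => (e x : ℤ)) x := Per_nonneg (fun x => Nat.cast_nonneg _) x
  by_cases hx : cell N x = 0
  · simp only [if_pos hx]
    omega
  · simp only [if_neg hx]
    rfl

end Pool.Agent.Lib.MP_28492a_gt
end

section

set_option autoImplicit false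

open MeasureTheory Filter Topology

namespace Pool.Agent.Lib.MP_28492a_gt

variable {n : ℕ}

/-- vector in coordinate direction -/
noncomputable def ev (c : Fin n) (τ : ℝ) : E n := WithLp.toLp 2 (fun d => if d = c then τ else 0)

theorem ev_apply (c d : Fin n) (τ : ℝ) : ev c τ d = if d = c then τ else 0 := rfl

@[simp] theorem ev_apply_self (c : Fin n) (τ : ℝ) : ev c τ c = τ := by
  simp [ev_apply]

theorem ev_add (c : Fin n) (a b : ℝ) : ev c (a + b) = ev c a + ev c b := by
  ext d
  simp only [ev_apply, PiLp.add_apply]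
  split_ifs <;> simp

@[simp] theorem ev_zero (c : Fin n) : ev c (0 : ℝ) = 0 := by
  ext d
  simp [ev_apply]

theorem continuous_ev (c : Fin n) : Continuous (ev c : ℝ → E n) := by
  have h : (ev c : ℝ → E n) = fun τ => τ • ev c 1 := by
    funext τ
    ext d
    simp only [ev_apply, PiLp.smul_apply, smul_eq_mul]
    split_ifs <;> simp
  rw [h]
  exact continuous_id.smul continuous_const

/-- Continuity of translation in mean. -/
theorem tendsto_mass_abs_sub {w : E n → ℤ} (hw : JC w) (c : Fin n) :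
    Tendsto (fun τ : ℝ => mass (fun x => |w x - w (x - ev c τ)|)) (𝓝 0) (𝓝 0) := by
  obtain ⟨C, hC⟩ := hw.bdd
  obtain ⟨R, hR⟩ := hw.supp
  have key : Tendsto (fun τ : ℝ => ∫ x, ((|w x - w (x - ev c τ)| : ℤ) : ℝ)) (𝓝 0)
      (𝓝 (∫ _x : E n, (0 : ℝ))) := by
    refine tendsto_integral_filter_of_dominated_convergence
      ((Metric.closedBall (0 : E n) (R + 1)).indicator fun _ => (2 * C : ℝ)) ?_ ?_ ?_ ?_
    · refine Eventually.of_forall fun τ => ?_
      have := (hw.sub (hw.sub_right (ev c τ))).lc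
      exact (this.comp fun a : ℤ => ((|a| : ℤ) : ℝ)).aestronglyMeasurable
    · have hev : ∀ᶠ τ : ℝ in 𝓝 0, ‖ev (n := n) c τ‖ < 1 := by
        have h1 := ((continuous_ev (n := n) c).norm).tendsto 0
        simp only [ev_zero, norm_zero] at h1
        exact h1.eventually (gt_mem_nhds one_pos)
      filter_upwards [hev] with τ hτ
      refine Eventually.of_forall fun x => ?_
      by_cases hx : x ∈ Metric.closedBall (0 : E n) (R + 1)
      · rw [Set.indicator_of_mem hx]
        have h1 : |w x - w (x - ev c τ)| ≤ 2 * C := by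
          calc |w x - w (x - ev c τ)| ≤ |w x| + |w (x - ev c τ)| := abs_sub _ _
            _ ≤ C + C := add_le_add (hC _) (hC _)
            _ = 2 * C := by ring
        rw [Real.norm_eq_abs]
        have h2 : |((|w x - w (x - ev c τ)| : ℤ) : ℝ)| = ((|w x - w (x - ev c τ)| : ℤ) : ℝ) := by
          rw [abs_of_nonneg]
          exact_mod_cast abs_nonneg _
        rw [h2]
        exact_mod_cast h1
      · have hx' : R + 1 < ‖x‖ := by simpa using hx
        have h1 : w x = 0 := hR x (by linarith)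
        have h2 : w (x - ev c τ) = 0 := by
          apply hR
          have := norm_sub_norm_le x (ev c τ)
          linarith
        rw [Set.indicator_of_notMem hx, h1, h2]
        simp
    · exact (integrableOn_const measure_closedBall_lt_top.ne).integrable_indicator
        Metric.isClosed_closedBall.measurableSet
    · filter_upwards [hw.lc] with x hx
      have h1 : Tendsto (fun τ : ℝ => x - ev c τ) (𝓝 0) (𝓝 x) := by
        have h2 : Continuous fun τ : ℝ => x - ev c τ := continuous_const.sub (continuous_ev c)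
        have := h2.tendsto 0
        simpa using this
      refine tendsto_const_nhds.congr' ?_
      filter_upwards [h1.eventually hx] with τ hτ
      rw [hτ]; simp
  simpa [mass] using key

/-- Small slabs carry small mass. -/
theorem tendsto_mass_slab {w : E n → ℤ} (hw : JC w) (c : Fin n) :
    Tendsto (fun τ : ℝ => mass (fun x => if 1 ≤ Int.fract (x c) + τ then |w x| else 0))
      (𝓝 0) (𝓝 0) := by
  have key : Tendsto (fun τ : ℝ => ∫ x : E n, (((if 1 ≤ Int.fract (x c) + τ then |w x| else 0) : ℤ) : ℝ))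
      (𝓝 0) (𝓝 (∫ _x : E n, (0 : ℝ))) := by
    refine tendsto_integral_filter_of_dominated_convergence
      (fun x => |(w x : ℝ)|) ?_ ?_ ?_ ?_
    · refine Eventually.of_forall fun τ => ?_
      have h1 : AEStronglyMeasurable (fun x : E n => |(w x : ℝ)|) volume :=
        hw.integrable.abs.aestronglyMeasurable
      have h2 : MeasurableSet {x : E n | 1 ≤ Int.fract (x c) + τ} := by
        have hm : Measurable fun x : E n => Int.fract (x c) + τ := by
          have : Measurable fun x : E n => x c := by fun_prop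
          exact (measurable_fract.comp this).add_const τ
        exact measurableSet_le measurable_const hm
      have h3 := h1.indicator h2
      refine h3.congr (Eventually.of_forall fun x => ?_)
      by_cases hx : 1 ≤ Int.fract (x c) + τ
      · rw [Set.indicator_of_mem (show x ∈ {x : E n | 1 ≤ Int.fract (x c) + τ} from hx)]
        simp [hx]
      · rw [Set.indicator_of_notMem (show x ∉ {x : E n | 1 ≤ Int.fract (x c) + τ} from hx)]
        simp [hx]
    · refine Eventually.of_forall fun τ => Eventually.of_forall fun x => ?_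
      split_ifs
      · simp
      · simp
    · exact hw.integrable.abs
    · refine Eventually.of_forall fun x => ?_
      have h1 : Tendsto (fun τ : ℝ => Int.fract (x c) + τ) (𝓝 0) (𝓝 (Int.fract (x c))) := by
        have h2 : Continuous fun τ : ℝ => Int.fract (x c) + τ := by fun_prop
        have := h2.tendsto 0
        simpa using this
      refine tendsto_const_nhds.congr' ?_
      filter_upwards [h1.eventually (gt_mem_nhds (Int.fract_lt_one (x c)))] with τ hτ
      rw [if_neg (not_le.mpr hτ)]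
      simp
  simpa [mass] using key


/-- Position in the chain of step `τ` in direction `c`. -/
noncomputable def ch (c : Fin n) (τ : ℝ) (x : E n) : ℕ := ⌊Int.fract (x c) / τ⌋₊

theorem LC.ch (c : Fin n) {τ : ℝ} (hτ : 0 < τ) : LC (ch (n := n) c τ) := by
  refine LC.coord (F := fun y : ℝ => ⌊Int.fract y / τ⌋₊) c ?_
  have h1 := ae_floor 1 0 one_ne_zero
  have h2 : ∀ᵐ y : ℝ, ∀ k : ℤ, ∀ᶠ z in 𝓝 y, ⌊(1 / τ) * z + (-(k : ℝ) / τ)⌋ = ⌊(1 / τ) * y + (-(k : ℝ) / τ)⌋ :=
    ae_all_iff.mpr fun k => ae_floor (1 / τ) (-(k : ℝ) / τ) (one_div_ne_zero hτ.ne')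
  filter_upwards [h1, h2] with y hy1 hy2
  filter_upwards [hy1, hy2 ⌊y⌋] with z hz1 hz2
  simp only [one_mul, add_zero] at hz1
  have e1 : Int.fract z / τ = (1 / τ) * z + (-(⌊y⌋ : ℝ) / τ) := by
    rw [Int.fract, hz1]; ring
  have e2 : Int.fract y / τ = (1 / τ) * y + (-(⌊y⌋ : ℝ) / τ) := by
    rw [Int.fract]; ring
  show ⌊Int.fract z / τ⌋₊ = ⌊Int.fract y / τ⌋₊
  rw [← Int.floor_toNat, ← Int.floor_toNat, e1, e2, hz2]

theorem fract_add_of_lt {a b : ℝ} (hb : 0 ≤ b) (h : Int.fract a + b < 1) :
    Int.fract (a + b) = Int.fract a + b := by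
  rw [Int.fract_eq_iff]
  refine ⟨add_nonneg (Int.fract_nonneg a) hb, h, ⌊a⌋, ?_⟩
  have := Int.self_sub_floor a
  linarith

theorem ch_eq_iff (c : Fin n) {τ : ℝ} (hτ : 0 < τ) (y : E n) (j : ℕ) :
    ch c τ (y + ev c (j * τ)) = j ↔ Int.fract (y c) < τ ∧ Int.fract (y c) + j * τ < 1 := by
  have hj : (0 : ℝ) ≤ j * τ := by positivity
  have e1 : (y + ev c (j * τ)) c = y c + j * τ := by simp
  unfold ch
  rw [e1]
  constructor
  · intro h
    set z := Int.fract (y c + j * τ) with hz
    have hz0 : 0 ≤ z := Int.fract_nonneg _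
    have hz1 : z < 1 := Int.fract_lt_one _
    have h1 : (j : ℝ) ≤ z / τ := by
      rw [← h]; exact Nat.floor_le (by positivity)
    have h2 : z / τ < j + 1 := by
      have := Nat.lt_floor_add_one (z / τ)
      rwa [h] at this
    rw [le_div_iff₀ hτ] at h1
    rw [div_lt_iff₀ hτ] at h2
    have h3 : Int.fract (y c) = z - j * τ := by
      rw [Int.fract_eq_iff]
      refine ⟨by linarith, by linarith, ⌊y c + j * τ⌋, ?_⟩
      have := Int.self_sub_floor (y c + j * τ)
      rw [← hz] at this
      linarith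
    rw [h3]
    constructor
    · linarith
    · linarith
  · rintro ⟨h1, h2⟩
    rw [fract_add_of_lt hj h2]
    rw [Nat.floor_eq_iff (by have := Int.fract_nonneg (y c); positivity)]
    have hf := Int.fract_nonneg (y c)
    constructor
    · rw [le_div_iff₀ hτ]; linarith
    · rw [div_lt_iff₀ hτ]; linarith

/-- The corrected difference. -/
noncomputable def corr (w : E n → ℤ) (c : Fin n) (τ : ℝ) (x : E n) : ℤ :=
  w x - w (x - ev c τ) + (if Int.fract (x c) < τ then w (x - ev c τ) else 0)
    - (if 1 ≤ Int.fract (x c) + τ then w x else 0)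

theorem corr_sum (w : E n → ℤ) (c : Fin n) {τ : ℝ} (hτ : 0 < τ) (y : E n) :
    ∑ j ∈ Finset.range (⌈1 / τ⌉₊ + 1),
      (if ch c τ (y + ev c (j * τ)) = j then corr w c τ (y + ev c (j * τ)) else 0) = 0 := by
  by_cases hf : Int.fract (y c) < τ
  swap
  · refine Finset.sum_eq_zero fun j _ => ?_
    rw [if_neg]
    rw [ch_eq_iff c hτ]
    exact fun h => hf h.1
  set f := Int.fract (y c) with hfdef
  have hf0 : 0 ≤ f := Int.fract_nonneg _
  have hf1 : f < 1 := Int.fract_lt_one _
  set L := ⌈(1 - f) / τ⌉₊ with hL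
  have hjL : ∀ j : ℕ, j < L ↔ f + j * τ < 1 := by
    intro j
    rw [hL, Nat.lt_ceil, lt_div_iff₀ hτ]
    constructor <;> intro h <;> linarith
  have hL0 : 0 < L := by rw [hjL]; simpa using hf1
  have hLM : L ≤ ⌈1 / τ⌉₊ + 1 := by
    refine (Nat.ceil_le_ceil ?_).trans (Nat.le_succ _)
    rw [div_le_div_iff_of_pos_right hτ]; linarith
  have h1 : ∑ j ∈ Finset.range (⌈1 / τ⌉₊ + 1),
      (if ch c τ (y + ev c (j * τ)) = j then corr w c τ (y + ev c (j * τ)) else 0)
      = ∑ j ∈ Finset.range L, corr w c τ (y + ev c (j * τ)) := by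
    rw [← Finset.sum_filter]
    refine Finset.sum_congr ?_ fun _ _ => rfl
    ext j
    rw [Finset.mem_filter, Finset.mem_range, Finset.mem_range, ch_eq_iff c hτ, hjL]
    constructor
    · rintro ⟨_, _, h⟩; exact h
    · intro h
      exact ⟨lt_of_lt_of_le ((hjL j).mpr h) hLM, hf, h⟩
  rw [h1]
  let a : ℕ → ℤ := fun j => if j = 0 ∨ j = L then 0 else w (y + ev c (((j : ℝ) - 1) * τ))
  have h2 : ∀ j ∈ Finset.range L, corr w c τ (y + ev c (j * τ)) = a (j + 1) - a j := by
    intro j hj
    have hj' := Finset.mem_range.mp hj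
    have hj1 := (hjL j).mp hj'
    have hfr : Int.fract ((y + ev c (j * τ)) c) = f + j * τ := by
      have e1 : (y + ev c (j * τ)) c = y c + j * τ := by simp
      rw [e1, fract_add_of_lt (by positivity) hj1]
    have hshift : y + ev c (j * τ) - ev c τ = y + ev c (((j : ℝ) - 1) * τ) := by
      have : ev (n := n) c (j * τ) = ev c (((j : ℝ) - 1) * τ) + ev c τ := by
        rw [← ev_add]; congr 1; ring
      rw [this]; abel
    have c1 : (Int.fract ((y + ev c (j * τ)) c) < τ) ↔ j = 0 := by
      rw [hfr]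
      constructor
      · intro h
        by_contra hne
        have : (1 : ℝ) ≤ j := by exact_mod_cast Nat.one_le_iff_ne_zero.mpr hne
        nlinarith
      · rintro rfl; simpa using hf
    have c2 : (1 ≤ Int.fract ((y + ev c (j * τ)) c) + τ) ↔ j + 1 = L := by
      rw [hfr]
      have h3 := hjL (j + 1)
      push_cast at h3
      constructor
      · intro h
        have : ¬ (j + 1 < L) := by rw [h3]; linarith
        omega
      · intro h
        have : ¬ (j + 1 < L) := by omega
        rw [h3] at this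
        linarith
    have e3 : a (j + 1) = if j + 1 = L then 0 else w (y + ev c (j * τ)) := by
      simp only [a]
      by_cases h : j + 1 = L
      · simp [h]
      · simp [h]
    have e4 : a j = if j = 0 then 0 else w (y + ev c (((j : ℝ) - 1) * τ)) := by
      simp only [a]
      have : j ≠ L := hj'.ne
      by_cases h : j = 0
      · simp [h]
      · simp [h, this]
    unfold corr
    rw [e3, e4, hshift]
    simp only [c1, c2]
    split_ifs <;> ring
  rw [Finset.sum_congr rfl h2, Finset.sum_range_sub]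
  simp [a]

end Pool.Agent.Lib.MP_28492a_gt
end
end

section

section

set_option autoImplicit false

open MeasureTheory Filter Topology

namespace Pool.Agent.Lib.MP_28492a_gt

noncomputable section

/-- The summands of the rotation numbers. -/
def slTerm (l : Fin 3) (k : ℕ) : ℝ := if k % 3 = (l : ℕ) then (1 : ℝ) / k.factorial else 0

theorem slTerm_nonneg (l : Fin 3) (k : ℕ) : 0 ≤ slTerm l k := by
  unfold slTerm; split_ifs <;> positivity

theorem slTerm_le (l : Fin 3) (k : ℕ) : slTerm l k ≤ 1 / k.factorial := by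
  unfold slTerm; split_ifs
  · exact le_rfl
  · positivity

theorem summable_slTerm (l : Fin 3) : Summable (slTerm l) := by
  refine Summable.of_nonneg_of_le (slTerm_nonneg l) (slTerm_le l) ?_
  have := Real.summable_pow_div_factorial 1
  simpa using this

/-- The rotation numbers `∑_{k ≡ l mod 3} 1/k!`. -/
def sl (l : Fin 3) : ℝ := ∑' k, slTerm l k

theorem sl_expand (l : Fin 3) {i : ℕ} (hi : 1 ≤ i) :
    ∃ (A : ℤ) (t : ℝ), (i.factorial : ℝ) * sl l = A + t ∧ 0 ≤ t ∧ t ≤ 1 / i ∧
      (i : ℤ) ∣ A - (if i % 3 = (l : ℕ) then 1 else 0) := by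
  have hsum := (summable_slTerm l).sum_add_tsum_nat_add (i + 1)
  set tail : ℝ := ∑' k, slTerm l (k + (i + 1)) with htail
  let An : ℕ → ℕ := fun k => if k % 3 = (l : ℕ) then i.factorial / k.factorial else 0
  refine ⟨((∑ k ∈ Finset.range (i + 1), An k : ℕ) : ℤ), i.factorial * tail, ?_, ?_, ?_, ?_⟩
  · have h1 : (i.factorial : ℝ) * ∑ k ∈ Finset.range (i + 1), slTerm l k
        = ((∑ k ∈ Finset.range (i + 1), An k : ℕ) : ℤ) := by
      push_cast
      rw [Finset.mul_sum]
      refine Finset.sum_congr rfl fun k hk => ?_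
      have hki : k ≤ i := Nat.lt_succ_iff.mp (Finset.mem_range.mp hk)
      simp only [An, slTerm]
      split_ifs
      · rw [Nat.cast_div (Nat.factorial_dvd_factorial hki) (by positivity)]
        ring
      · simp
    rw [← h1, ← mul_add, hsum]; rfl
  · apply mul_nonneg (by positivity)
    exact tsum_nonneg fun k => slTerm_nonneg l _
  · have hi0 : (0 : ℝ) < i := by exact_mod_cast hi
    have hgeo : HasSum (fun k : ℕ => ((i.factorial : ℝ))⁻¹ * (((i : ℝ) + 1)⁻¹ * (((i : ℝ) + 1)⁻¹) ^ k))
        (((i.factorial : ℝ))⁻¹ * (((i : ℝ) + 1)⁻¹ * (1 - ((i : ℝ) + 1)⁻¹)⁻¹)) := by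
      refine (HasSum.mul_left _ (HasSum.mul_left _ (hasSum_geometric_of_lt_one (by positivity) ?_)))
      rw [inv_lt_one₀ (by positivity)]; linarith
    have hle : ∀ k, slTerm l (k + (i + 1)) ≤
        ((i.factorial : ℝ))⁻¹ * (((i : ℝ) + 1)⁻¹ * (((i : ℝ) + 1)⁻¹) ^ k) := by
      intro k
      refine (slTerm_le l _).trans ?_
      have h1 : i.factorial * (i + 1) ^ (k + 1) ≤ (k + (i + 1)).factorial := by
        have := Nat.factorial_mul_pow_le_factorial (m := i) (n := k + 1)
        have e : k + (i + 1) = i + (k + 1) := by ring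
        rw [e]; exact this
      have h2 : ((i.factorial : ℝ)) * ((i : ℝ) + 1) ^ (k + 1) ≤ ((k + (i + 1)).factorial : ℝ) := by
        exact_mod_cast h1
      have h3 : ((i.factorial : ℝ))⁻¹ * (((i : ℝ) + 1)⁻¹ * (((i : ℝ) + 1)⁻¹) ^ k)
          = 1 / ((i.factorial : ℝ) * ((i : ℝ) + 1) ^ (k + 1)) := by
        rw [inv_pow, pow_succ]; field_simp
      rw [h3]
      exact one_div_le_one_div_of_le (by positivity) h2
    have htl : tail ≤ ((i.factorial : ℝ))⁻¹ * (((i : ℝ) + 1)⁻¹ * (1 - ((i : ℝ) + 1)⁻¹)⁻¹) := by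
      rw [htail, ← hgeo.tsum_eq]
      refine Summable.tsum_le_tsum hle ?_ hgeo.summable
      exact (summable_nat_add_iff (i + 1)).mpr (summable_slTerm l)
    calc (i.factorial : ℝ) * tail
        ≤ (i.factorial : ℝ) * (((i.factorial : ℝ))⁻¹ * (((i : ℝ) + 1)⁻¹ * (1 - ((i : ℝ) + 1)⁻¹)⁻¹)) :=
          mul_le_mul_of_nonneg_left htl (by positivity)
      _ = 1 / i := by
          have : (1 : ℝ) - ((i : ℝ) + 1)⁻¹ = i / (i + 1) := by field_simp; ring
          rw [this]; field_simp
  · rw [Finset.sum_range_succ]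
    have h1 : (i : ℤ) ∣ ((∑ k ∈ Finset.range i, An k : ℕ) : ℤ) := by
      rw [Int.natCast_dvd_natCast]
      refine Finset.dvd_sum fun k hk => ?_
      have hki : k < i := Finset.mem_range.mp hk
      simp only [An]
      split_ifs
      · obtain ⟨j, rfl⟩ : ∃ j, i = j + 1 := ⟨i - 1, by omega⟩
        rw [Nat.factorial_succ, Nat.mul_div_assoc _ (Nat.factorial_dvd_factorial (by omega))]
        exact Dvd.intro _ rfl
      · exact dvd_zero _
    have h2 : (An i : ℤ) = if i % 3 = (l : ℕ) then 1 else 0 := by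
      simp only [An]
      split_ifs
      · rw [Nat.div_self (Nat.factorial_pos i)]; rfl
      · rfl
    push_cast at h1 ⊢
    rw [h2]
    have e : (∑ k ∈ Finset.range i, (An k : ℤ)) + (if i % 3 = (l : ℕ) then 1 else 0)
        - (if i % 3 = (l : ℕ) then 1 else 0) = ∑ k ∈ Finset.range i, (An k : ℤ) := by ring
    rw [e]; exact h1

/-- The digit in factorial base. -/
def digR (i : ℕ) (x : ℝ) : ℕ := (⌊(i.factorial : ℝ) * x⌋ % (i : ℤ)).toNat

theorem digR_periodic {i : ℕ} (hi : 1 ≤ i) : Function.Periodic (digR i) 1 := by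
  intro x
  unfold digR
  rw [mul_add, mul_one]
  have : ((i.factorial : ℕ) : ℝ) = ((i.factorial : ℤ) : ℝ) := by simp
  rw [show (i.factorial : ℝ) * x + (i.factorial : ℝ) = (i.factorial : ℝ) * x + ((i.factorial : ℤ) : ℝ) by simp,
    Int.floor_add_intCast]
  congr 1
  have hd : (i : ℤ) ∣ (i.factorial : ℤ) := by
    exact_mod_cast Nat.dvd_factorial hi le_rfl
  rw [Int.add_emod, Int.emod_eq_zero_of_dvd hd, add_zero, Int.emod_emod]

theorem digR_overflow {i : ℕ} (hi : 1 ≤ i) {x : ℝ} (h : digR i x = i - 1) :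
    1 - 1 / (i : ℝ) ≤ Int.fract (((i - 1).factorial : ℝ) * x) := by
  obtain ⟨j, rfl⟩ : ∃ j, i = j + 1 := ⟨i - 1, by omega⟩
  simp only [Nat.add_sub_cancel] at h ⊢
  set y : ℝ := (j.factorial : ℝ) * x with hy
  have e : ((j + 1).factorial : ℝ) * x = (((j : ℤ) + 1) * ⌊y⌋ : ℤ) + ((j : ℝ) + 1) * Int.fract y := by
    rw [Nat.factorial_succ]; push_cast
    have := Int.self_sub_floor y
    rw [← this, hy]; ring
  unfold digR at h
  rw [e, Int.floor_intCast_add] at h
  have hf0 : 0 ≤ ((j : ℝ) + 1) * Int.fract y := by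
    have := Int.fract_nonneg y; positivity
  have hf1 : ((j : ℝ) + 1) * Int.fract y < (j : ℝ) + 1 := by
    have := Int.fract_lt_one y
    have hj : (0 : ℝ) < (j : ℝ) + 1 := by positivity
    nlinarith
  have h0 : 0 ≤ ⌊((j : ℝ) + 1) * Int.fract y⌋ := Int.floor_nonneg.mpr hf0
  have h1 : ⌊((j : ℝ) + 1) * Int.fract y⌋ < (j : ℤ) + 1 := by
    rw [Int.floor_lt]; push_cast; exact hf1
  have h2 : ((((j : ℤ) + 1) * ⌊y⌋ + ⌊((j : ℝ) + 1) * Int.fract y⌋) % (((j + 1 : ℕ)) : ℤ))
      = ⌊((j : ℝ) + 1) * Int.fract y⌋ := by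
    push_cast
    rw [Int.add_emod, Int.mul_emod_right, zero_add, Int.emod_emod, Int.emod_eq_of_lt h0 h1]
  rw [h2] at h
  have h3 : ⌊((j : ℝ) + 1) * Int.fract y⌋ = j := by omega
  have h4 : (j : ℝ) ≤ ((j : ℝ) + 1) * Int.fract y := by
    have := Int.floor_le (((j : ℝ) + 1) * Int.fract y)
    rw [h3] at this
    exact_mod_cast this
  have hj : (0 : ℝ) < (j : ℝ) + 1 := by positivity
  push_cast
  have : (1 : ℝ) - 1 / ((j : ℝ) + 1) = j / (j + 1) := by field_simp; ring
  rw [this, div_le_iff₀ hj]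
  linarith

theorem digR_add {i : ℕ} (hi : 1 ≤ i) (l : Fin 3) {x : ℝ}
    (hc : Int.fract ((i.factorial : ℝ) * x) < 1 - 1 / (i : ℝ))
    (ho : i % 3 = (l : ℕ) → digR i x ≠ i - 1) :
    digR i (x + sl l) = digR i x + (if i % 3 = (l : ℕ) then 1 else 0) := by
  obtain ⟨A, t, hA, ht0, ht1, hdvd⟩ := sl_expand l hi
  have hfl : ⌊(i.factorial : ℝ) * (x + sl l)⌋ = ⌊(i.factorial : ℝ) * x⌋ + A := by
    have e : (i.factorial : ℝ) * (x + sl l) = ((i.factorial : ℝ) * x + t) + (A : ℝ) := by
      rw [mul_add, hA]; ring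
    rw [e, Int.floor_add_intCast]
    congr 1
    rw [Int.floor_eq_iff]
    have h1 := Int.self_sub_floor ((i.factorial : ℝ) * x)
    have h2 := Int.fract_nonneg ((i.factorial : ℝ) * x)
    constructor <;> linarith
  have hi' : (0 : ℤ) < i := by exact_mod_cast hi
  obtain ⟨B, hB⟩ := hdvd
  unfold digR at ho ⊢
  rw [hfl]
  set a := ⌊(i.factorial : ℝ) * x⌋ with ha
  have hr0 := Int.emod_nonneg a hi'.ne'
  have hr1 := Int.emod_lt_of_pos a hi'
  by_cases hl : i % 3 = (l : ℕ)
  · rw [if_pos hl] at hB ⊢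
    have ho' := ho hl
    have e : a + A = (a + 1) + i * B := by linarith
    have h1 : (a + A) % (i : ℤ) = a % i + 1 := by
      rw [e, Int.add_mul_emod_self_left]
      have h2 : a % (i : ℤ) + 1 < i := by omega
      have h3 : (a + 1) % (i : ℤ) = (a % i + 1) % i := by
        rw [Int.add_emod, Int.add_emod (a % i) 1, Int.emod_emod]
      rw [h3, Int.emod_eq_of_lt (by omega) h2]
    rw [h1]
    omega
  · rw [if_neg hl] at hB ⊢
    have e : a + A = a + i * B := by linarith
    rw [e, Int.add_mul_emod_self_left, add_zero]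

end

end Pool.Agent.Lib.MP_28492a_gt
end

section

set_option autoImplicit false

open MeasureTheory Filter Topology

namespace Pool.Agent.Lib.MP_28492a_gt

noncomputable section

/-- fractional part on the circle -/
def fr (z : UnitAddCircle) : ℝ := ((AddCircle.equivIco (1 : ℝ) 0 z : Set.Ico (0 : ℝ) (0 + 1)) : ℝ)

theorem fr_coe (x : ℝ) : fr (x : UnitAddCircle) = Int.fract x := by
  unfold fr
  rw [AddCircle.coe_equivIco_mk_apply]
  simp

theorem measurable_fr : Measurable fr :=
  measurable_subtype_coe.comp (AddCircle.measurableEquivIco (1 : ℝ) 0).measurable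

theorem mp_nsmul {M : ℕ} (hM : 0 < M) :
    MeasurePreserving (fun z : UnitAddCircle => M • z) volume volume := by
  have := Measure.measurePreserving_zsmul (volume : Measure UnitAddCircle) (n := (M : ℤ))
    (by exact_mod_cast hM.ne')
  simpa using this

/-- the bad arc -/
def arc (i : ℕ) : Set UnitAddCircle := {z | 1 - 1 / (i : ℝ) ≤ fr z}

theorem measurableSet_arc (i : ℕ) : MeasurableSet (arc i) :=
  measurableSet_le measurable_const measurable_fr

theorem volume_arc_le {i : ℕ} : volume (arc i) ≤ ENNReal.ofReal (1 / i) := by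
  have h1 := (UnitAddCircle.measurePreserving_mk 0).measure_preimage
    (measurableSet_arc i).nullMeasurableSet
  rw [← h1, Measure.restrict_apply (AddCircle.measurable_mk' (measurableSet_arc i))]
  have hsub : ((fun x : ℝ => (x : UnitAddCircle)) ⁻¹' arc i) ∩ Set.Ioc 0 (0 + 1)
      ⊆ Set.Icc (1 - 1 / (i : ℝ)) 1 := by
    rintro x ⟨hx1, hx2⟩
    have hx3 : 1 - 1 / (i : ℝ) ≤ fr (x : UnitAddCircle) := hx1
    rw [fr_coe] at hx3
    rw [zero_add] at hx2
    refine ⟨hx3.trans ?_, hx2.2⟩
    have : 0 ≤ ⌊x⌋ := Int.floor_nonneg.mpr hx2.1.le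
    have h0 : (0 : ℝ) ≤ (⌊x⌋ : ℝ) := by exact_mod_cast this
    have := Int.self_sub_floor x
    linarith
  refine (measure_mono hsub).trans ?_
  rw [Real.volume_Icc]
  apply ENNReal.ofReal_le_ofReal
  linarith

theorem volume_preimage_arc_le {i M : ℕ} (hM : 0 < M) :
    volume {z : UnitAddCircle | M • z ∈ arc i} ≤ ENNReal.ofReal (1 / i) := by
  have h1 := (mp_nsmul hM).measure_preimage (measurableSet_arc i).nullMeasurableSet
  have h2 : volume {z : UnitAddCircle | M • z ∈ arc i} = volume (arc i) := h1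
  rw [h2]; exact volume_arc_le

/-- Digits on the circle (the `(i+1)`-st factorial digit). -/
def dig (i : ℕ) : UnitAddCircle → ℕ := (digR_periodic (Nat.le_add_left 1 i)).lift

theorem dig_coe (i : ℕ) (x : ℝ) : dig i (x : UnitAddCircle) = digR (i + 1) x :=
  Function.Periodic.lift_coe _ x

theorem dig_add (i : ℕ) (l : Fin 3) {z : UnitAddCircle}
    (hc : (i + 1).factorial • z ∉ arc (i + 1)) (ho : i.factorial • z ∉ arc (i + 1)) :
    dig i (z + (sl l : UnitAddCircle)) = dig i z + (if (i + 1) % 3 = (l : ℕ) then 1 else 0) := by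
  obtain ⟨x, rfl⟩ := QuotientAddGroup.mk_surjective z
  have e : ((x : UnitAddCircle) + (sl l : UnitAddCircle)) = ((x + sl l : ℝ) : UnitAddCircle) := rfl
  change dig i ((x : UnitAddCircle) + (sl l : UnitAddCircle)) = dig i (x : UnitAddCircle) + _
  rw [e, dig_coe, dig_coe]
  have hfr : ∀ M : ℕ, fr (M • (x : UnitAddCircle)) = Int.fract ((M : ℝ) * x) := by
    intro M
    rw [← AddCircle.coe_nsmul, fr_coe, nsmul_eq_mul]
  refine digR_add (Nat.le_add_left 1 i) l ?_ ?_
  · by_contra hcon
    apply hc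
    show 1 - 1 / ((i + 1 : ℕ) : ℝ) ≤ fr ((i + 1).factorial • (x : UnitAddCircle))
    rw [hfr]
    exact not_lt.mp hcon
  · intro _ hcon
    apply ho
    show 1 - 1 / ((i + 1 : ℕ) : ℝ) ≤ fr (i.factorial • (x : UnitAddCircle))
    rw [hfr]
    exact digR_overflow (Nat.le_add_left 1 i) hcon

/-- The vector of three digits used at stage `m`. -/
def q (m : ℕ) (z : UnitAddCircle) : Fin 3 → ℕ := fun l => dig (3 * m + 2 + l) z

/-- Points where `q m` fails to be equivariant. -/
def badq (m : ℕ) : Set UnitAddCircle :=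
  {z | ∃ l : Fin 3, q m (z + (sl l : UnitAddCircle)) ≠ q m z + Pi.single l 1}

theorem badq_subset (m : ℕ) : badq m ⊆ ⋃ a : Fin 3,
    ({z : UnitAddCircle | (3 * m + 2 + a + 1).factorial • z ∈ arc (3 * m + 2 + a + 1)} ∪
      {z : UnitAddCircle | (3 * m + 2 + a : ℕ).factorial • z ∈ arc (3 * m + 2 + a + 1)}) := by
  rintro z ⟨l, hl⟩
  by_contra hcon
  apply hl
  simp only [Set.mem_iUnion, Set.mem_union, Set.mem_ofPred_eq, not_exists, not_or] at hcon
  funext a
  obtain ⟨h1, h2⟩ := hcon a
  show dig (3 * m + 2 + a) (z + (sl l : UnitAddCircle)) = dig (3 * m + 2 + a) z + _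
  rw [dig_add _ l h1 h2]
  congr 1
  have h3 : (3 * m + 2 + (a : ℕ) + 1) % 3 = (a : ℕ) := by
    have := a.2; omega
  rw [h3]
  by_cases h : a = l
  · subst h; simp
  · rw [if_neg (by intro h'; exact h (Fin.ext h')), Pi.single_eq_of_ne h]

theorem volume_badq_le (m : ℕ) : volume (badq m) ≤ ENNReal.ofReal (6 / (m + 1)) := by
  have hpos : (0 : ℝ) < m + 1 := by positivity
  have h1 : ∀ a : Fin 3, volume
      ({z : UnitAddCircle | (3 * m + 2 + a + 1).factorial • z ∈ arc (3 * m + 2 + a + 1)} ∪
      {z : UnitAddCircle | (3 * m + 2 + a : ℕ).factorial • z ∈ arc (3 * m + 2 + a + 1)})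
      ≤ ENNReal.ofReal (2 / (m + 1)) := by
    intro a
    have h2 := volume_preimage_arc_le (i := 3 * m + 2 + a + 1) (M := (3 * m + 2 + a + 1).factorial)
      (Nat.factorial_pos _)
    have h3 := volume_preimage_arc_le (i := 3 * m + 2 + a + 1) (M := (3 * m + 2 + a : ℕ).factorial)
      (Nat.factorial_pos _)
    have h4 : ENNReal.ofReal (1 / ((3 * m + 2 + a + 1 : ℕ) : ℝ)) ≤ ENNReal.ofReal (1 / (m + 1)) := by
      apply ENNReal.ofReal_le_ofReal
      apply one_div_le_one_div_of_le hpos
      push_cast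
      have : (0 : ℝ) ≤ m := Nat.cast_nonneg m
      have : (0 : ℝ) ≤ ((a : ℕ) : ℝ) := Nat.cast_nonneg _
      linarith
    calc _ ≤ _ := measure_union_le _ _
      _ ≤ ENNReal.ofReal (1 / (m + 1)) + ENNReal.ofReal (1 / (m + 1)) :=
          add_le_add (h2.trans h4) (h3.trans h4)
      _ = ENNReal.ofReal (2 / (m + 1)) := by
          rw [← ENNReal.ofReal_add (by positivity) (by positivity)]
          congr 1; ring
  calc volume (badq m) ≤ _ := measure_mono (badq_subset m)
    _ ≤ ∑ a : Fin 3, _ := measure_iUnion_fintype_le _ _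
    _ ≤ ∑ _a : Fin 3, ENNReal.ofReal (2 / (m + 1)) := Finset.sum_le_sum fun a _ => h1 a
    _ = ENNReal.ofReal (6 / (m + 1)) := by
        rw [Finset.sum_const, Finset.card_univ, Fintype.card_fin, nsmul_eq_mul,
          ← ENNReal.ofReal_natCast, ← ENNReal.ofReal_mul (by positivity)]
        congr 1; push_cast; ring

/-- integer combinations of the rotation numbers -/
def sm (δ : Fin 3 → ℕ) : UnitAddCircle := ∑ l, δ l • (sl l : UnitAddCircle)

theorem sm_add (δ δ' : Fin 3 → ℕ) : sm (δ + δ') = sm δ + sm δ' := by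
  unfold sm
  rw [← Finset.sum_add_distrib]
  exact Finset.sum_congr rfl fun l _ => by rw [Pi.add_apply, add_nsmul]

theorem sm_single (l : Fin 3) : sm (Pi.single l 1) = (sl l : UnitAddCircle) := by
  unfold sm
  rw [Finset.sum_eq_single l]
  · simp
  · intro b _ hb; rw [Pi.single_eq_of_ne hb, zero_nsmul]
  · intro h; exact absurd (Finset.mem_univ l) h

theorem sm_zero : sm 0 = 0 := by simp [sm]

/-- Equivariance of `q m` along good paths. -/
theorem q_path (m : ℕ) (w : UnitAddCircle) : ∀ (S : ℕ) (δ : Fin 3 → ℕ), (∑ l, δ l = S) →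
    (∀ δ' : Fin 3 → ℕ, δ' ≤ δ → w + sm δ' ∉ badq m) → q m (w + sm δ) = q m w + δ := by
  intro S
  induction S with
  | zero =>
    intro δ hS _
    have : δ = 0 := by
      funext l
      have := Finset.sum_eq_zero_iff.mp hS l (Finset.mem_univ l)
      exact this
    subst this
    rw [sm_zero, add_zero, add_zero]
  | succ S ih =>
    intro δ hS hgood
    obtain ⟨l, hl⟩ : ∃ l, 0 < δ l := by
      by_contra hcon
      push Not at hcon
      have : ∑ l, δ l = 0 := Finset.sum_eq_zero fun l _ => Nat.le_zero.mp (hcon l)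
      omega
    set δ₀ : Fin 3 → ℕ := δ - Pi.single l 1 with hδ₀
    have hδ : δ = δ₀ + Pi.single l 1 := by
      funext a
      by_cases h : a = l
      · subst h; simp [δ₀]; omega
      · simp [δ₀, Pi.single_eq_of_ne h]
    have hle : δ₀ ≤ δ := by rw [hδ]; exact le_add_of_nonneg_right (Pi.single_nonneg.mpr zero_le_one)
    have hS0 : ∑ l, δ₀ l = S := by
      have : ∑ a, δ a = ∑ a, δ₀ a + 1 := by
        rw [hδ]
        simp only [Pi.add_apply]
        rw [Finset.sum_add_distrib]
        simp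
      omega
    have h1 := ih δ₀ hS0 fun δ' h' => hgood δ' (h'.trans hle)
    have h2 : w + sm δ₀ ∉ badq m := hgood δ₀ hle
    have h3 : q m (w + sm δ₀ + (sl l : UnitAddCircle)) = q m (w + sm δ₀) + Pi.single l 1 := by
      by_contra hne
      exact h2 ⟨l, hne⟩
    rw [hδ, sm_add, sm_single, ← add_assoc, h3, h1, add_assoc]


/-- Refinement of a tower. -/
def stp (p : UnitAddCircle → Fin 3 → ℕ) (m : ℕ) (z : UnitAddCircle) : Fin 3 → ℕ :=
  p z + q m (z - sm (p z))

/-- Good points of a tower. -/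
def Gd (p : UnitAddCircle → Fin 3 → ℕ) (z : UnitAddCircle) : Prop :=
  ∀ l : Fin 3, p (z + (sl l : UnitAddCircle)) = p z + Pi.single l 1

theorem Gd.stp {p : UnitAddCircle → Fin 3 → ℕ} {z : UnitAddCircle} (h : Gd p z) (m : ℕ) :
    Gd (stp p m) z := by
  intro l
  unfold Pool.Agent.Lib.MP_28492a_gt.stp
  rw [h l, sm_add, sm_single]
  have e : z + (sl l : UnitAddCircle) - (sm (p z) + (sl l : UnitAddCircle)) = z - sm (p z) := by
    abel
  rw [e]
  abel

theorem dig_le (i : ℕ) (z : UnitAddCircle) : dig i z ≤ i := by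
  obtain ⟨x, rfl⟩ := QuotientAddGroup.mk_surjective z
  rw [dig_coe]
  unfold digR
  have h : (0 : ℤ) < ((i + 1 : ℕ) : ℤ) := by positivity
  have h1 := Int.emod_lt_of_pos ⌊((i + 1).factorial : ℝ) * x⌋ h
  have h2 := Int.emod_nonneg ⌊((i + 1).factorial : ℝ) * x⌋ h.ne'
  omega

theorem stp_bdd {p : UnitAddCircle → Fin 3 → ℕ} {K : ℕ} (hK : ∀ z l, p z l ≤ K) (m : ℕ) :
    ∀ z l, stp p m z l ≤ K + (3 * m + 5) := by
  intro z l
  have h1 := dig_le (3 * m + 2 + l) (z - sm (p z))
  have h2 := hK z l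
  have h3 := l.2
  show p z l + dig (3 * m + 2 + l) (z - sm (p z)) ≤ _
  omega

theorem stp_bad {p : UnitAddCircle → Fin 3 → ℕ} {K : ℕ} (hK : ∀ z l, p z l ≤ K) (m : ℕ) :
    {z | ¬ Gd (stp p m) z} ⊆ ⋃ δ ∈ (Fintype.piFinset fun _ : Fin 3 => Finset.range (K + 2)),
      {z : UnitAddCircle | (sm δ - sm (fun _ => K)) + z ∈ badq m} := by
  intro z hz
  by_contra hcon
  apply hz
  simp only [Set.mem_iUnion, Set.mem_ofPred_eq, not_exists, Fintype.mem_piFinset,
    Finset.mem_range] at hcon
  set w := z - sm (fun _ => K) with hw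
  have hgood : ∀ δ : Fin 3 → ℕ, (∀ l, δ l ≤ K + 1) → w + sm δ ∉ badq m := by
    intro δ hδ
    have := hcon δ fun l => Nat.lt_succ_of_le (hδ l)
    have e : sm δ - sm (fun _ => K) + z = w + sm δ := by rw [hw]; abel
    rwa [e] at this
  have hq : ∀ δ : Fin 3 → ℕ, (∀ l, δ l ≤ K + 1) → q m (w + sm δ) = q m w + δ := by
    intro δ hδ
    exact q_path m w _ δ rfl fun δ' h' => hgood δ' fun l => (h' l).trans (hδ l)
  intro l
  set ρ := p z with hρ
  set ρ' := p (z + (sl l : UnitAddCircle)) with hρ'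
  have k1 : ∀ a, ρ a ≤ K := fun a => hK z a
  have k2 : ∀ a, ρ' a ≤ K := fun a => hK (z + (sl l : UnitAddCircle)) a
  have h1 : z - sm ρ = w + sm (fun a => K - ρ a) := by
    have : sm (fun _ => K) = sm ρ + sm (fun a => K - ρ a) := by
      rw [← sm_add]; congr 1; funext a; have := k1 a; simp only [Pi.add_apply]; omega
    rw [hw, this]; abel
  have h2 : z + (sl l : UnitAddCircle) - sm ρ'
      = w + sm (fun a => (K + (Pi.single l 1 : Fin 3 → ℕ) a) - ρ' a) := by
    have : sm (fun _ => K) + sm (Pi.single l 1)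
        = sm ρ' + sm (fun a => (K + (Pi.single l 1 : Fin 3 → ℕ) a) - ρ' a) := by
      rw [← sm_add, ← sm_add]; congr 1; funext a
      have := k2 a
      simp only [Pi.add_apply]; omega
    rw [hw, ← sm_single l]
    have e : z + sm (Pi.single l 1) - sm ρ' = z - sm (fun _ => K)
        + (sm (fun _ => K) + sm (Pi.single l 1)) - sm ρ' := by abel
    rw [e, this]; abel
  have hs : ∀ a, (Pi.single l 1 : Fin 3 → ℕ) a ≤ 1 := by
    intro a
    by_cases h : a = l
    · subst h; simp
    · rw [Pi.single_eq_of_ne h]; exact Nat.zero_le _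
  unfold stp
  rw [← hρ, ← hρ', h1, h2, hq _ (fun a => by have := hs a; omega), hq _ (fun a => by omega)]
  funext a
  have g1 := k1 a
  have g2 := k2 a
  simp only [Pi.add_apply]
  omega

theorem exists_step {p : UnitAddCircle → Fin 3 → ℕ} {K : ℕ} (hK : ∀ z l, p z l ≤ K)
    {ε : ℝ} (hε : 0 < ε) : ∃ m, volume {z | ¬ Gd (stp p m) z} ≤ ENNReal.ofReal ε := by
  set C : ℝ := ((Fintype.piFinset fun _ : Fin 3 => Finset.range (K + 2)).card : ℝ) with hC
  obtain ⟨m, hm⟩ := exists_nat_gt (C * 6 / ε)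
  refine ⟨m, ?_⟩
  have h1 : ∀ g : UnitAddCircle, volume {z : UnitAddCircle | g + z ∈ badq m}
      ≤ ENNReal.ofReal (6 / (m + 1)) := by
    intro g
    exact (le_of_eq (measure_preimage_add volume g (badq m))).trans (volume_badq_le m)
  calc volume {z | ¬ Gd (stp p m) z} ≤ _ := measure_mono (stp_bad hK m)
    _ ≤ ∑ δ ∈ (Fintype.piFinset fun _ : Fin 3 => Finset.range (K + 2)), _ :=
        measure_biUnion_finset_le _ _
    _ ≤ ∑ _δ ∈ (Fintype.piFinset fun _ : Fin 3 => Finset.range (K + 2)),
        ENNReal.ofReal (6 / (m + 1)) := Finset.sum_le_sum fun δ _ => h1 _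
    _ = ENNReal.ofReal (C * (6 / (m + 1))) := by
        rw [Finset.sum_const, nsmul_eq_mul, ← ENNReal.ofReal_natCast,
          ← ENNReal.ofReal_mul (by positivity)]
    _ ≤ ENNReal.ofReal ε := by
        apply ENNReal.ofReal_le_ofReal
        have hm' : (0 : ℝ) < (m : ℝ) + 1 := by positivity
        rw [mul_div_assoc', div_le_iff₀ hm']
        rw [div_lt_iff₀ hε] at hm
        nlinarith

/-- bounded towers -/
def BT : Type := {p : UnitAddCircle → Fin 3 → ℕ // ∃ K, ∀ z l, p z l ≤ K}

theorem exists_step' (p : BT) (k : ℕ) :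
    ∃ m, volume {z | ¬ Gd (stp p.1 m) z} ≤ ENNReal.ofReal (1 / ((k : ℝ) + 1)) := by
  obtain ⟨K, hK⟩ := p.2
  exact exists_step hK (by positivity)

/-- The step index. -/
def stepIdx (p : BT) (k : ℕ) : ℕ := (exists_step' p k).choose

/-- The sequence of towers on the circle. -/
def PT : ℕ → BT
  | 0 => ⟨fun _ => 0, 0, fun _ _ => le_rfl⟩
  | k + 1 => ⟨stp (PT k).1 (stepIdx (PT k) k), by
      obtain ⟨K, hK⟩ := (PT k).2
      exact ⟨_, stp_bdd hK _⟩⟩

theorem PT_succ (k : ℕ) : (PT (k + 1)).1 = stp (PT k).1 (stepIdx (PT k) k) := rfl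

theorem PT_good (k : ℕ) {z : UnitAddCircle} (h : Gd (PT k).1 z) : Gd (PT (k + 1)).1 z := by
  rw [PT_succ]; exact h.stp _

theorem PT_ae : ∀ᵐ z : UnitAddCircle, ∃ k, Gd (PT k).1 z := by
  rw [ae_iff]
  have h1 : ∀ k : ℕ, volume {z : UnitAddCircle | ¬ ∃ k, Gd (PT k).1 z}
      ≤ ENNReal.ofReal (1 / ((k : ℝ) + 1)) := by
    intro k
    refine (measure_mono ?_).trans (exists_step' (PT k) k).choose_spec
    intro z hz hg
    exact hz ⟨k + 1, by rw [PT_succ]; exact hg⟩
  have h2 : Tendsto (fun k : ℕ => ENNReal.ofReal (1 / ((k : ℝ) + 1))) atTop (𝓝 0) := by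
    have := ENNReal.tendsto_ofReal (tendsto_one_div_add_atTop_nhds_zero_nat (𝕜 := ℝ))
    simpa using this
  exact le_antisymm (ge_of_tendsto' h2 h1) bot_le

end

end Pool.Agent.Lib.MP_28492a_gt
end

section

set_option autoImplicit false

open MeasureTheory Filter Topology

namespace Pool.Agent.Lib.MP_28492a_gt

variable {n : ℕ}

/-- `φ` is the difference of two equivalent functions of mass less than `ε`. -/
def SmallDiff (φ : E n → ℤ) (ε : ℝ) : Prop :=
  ∃ u v : E n → ℕ, JN u ∧ JN v ∧ Eqd (T n) u v ∧ massN u < ε ∧ ∀ᵐ x, φ x = (u x : ℤ) - v x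

theorem SmallDiff.sub_right {φ : E n → ℤ} {ε : ℝ} (h : SmallDiff φ ε) (t : E n) :
    SmallDiff (fun x => φ (x - t)) ε := by
  obtain ⟨u, v, hu, hv, huv, hm, he⟩ := h
  refine ⟨fun x => u (x - t), fun x => v (x - t), hu.sub_right t, hv.sub_right t, ?_, ?_, ?_⟩
  · exact ((Eqd.tr hu.lc t).symm.trans huv).trans (Eqd.tr hv.lc t)
  · rw [massN_sub_right]; exact hm
  · exact ae_sub he t

theorem SmallDiff.add {φ ψ : E n → ℤ} {ε δ : ℝ} (h : SmallDiff φ ε) (h' : SmallDiff ψ δ) :
    SmallDiff (fun x => φ x + ψ x) (ε + δ) := by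
  obtain ⟨u, v, hu, hv, huv, hm, he⟩ := h
  obtain ⟨u', v', hu', hv', huv', hm', he'⟩ := h'
  refine ⟨_, _, hu.add hu', hv.add hv', huv.add huv', ?_, ?_⟩
  · rw [massN_add hu hu']; exact add_lt_add hm hm'
  · filter_upwards [he, he'] with x hx hx'
    rw [hx, hx']; push_cast; ring

theorem SmallDiff.congr {φ ψ : E n → ℤ} {ε : ℝ} (h : SmallDiff φ ε) (h' : ∀ᵐ x, ψ x = φ x) :
    SmallDiff ψ ε := by
  obtain ⟨u, v, hu, hv, huv, hm, he⟩ := h
  refine ⟨u, v, hu, hv, huv, hm, ?_⟩
  filter_upwards [he, h'] with x hx hx'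
  rw [hx', hx]

theorem SmallDiff.mono {φ : E n → ℤ} {ε δ : ℝ} (h : SmallDiff φ ε) (h' : ε ≤ δ) :
    SmallDiff φ δ := by
  obtain ⟨u, v, hu, hv, huv, hm, he⟩ := h
  exact ⟨u, v, hu, hv, huv, lt_of_lt_of_le hm h', he⟩

theorem SmallDiff.zero {ε : ℝ} (h : 0 < ε) : SmallDiff (fun _ : E n => (0 : ℤ)) ε := by
  refine ⟨fun _ => 0, fun _ => 0, JN.zero, JN.zero, Eqd.refl (LC.const 0), ?_, ?_⟩
  · have : massN (fun _ : E n => 0) = 0 := by simp [massN, mass]
    rw [this]; exact h
  · exact Eventually.of_forall fun x => by simp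

theorem LC.fract_lt (c : Fin n) (τ : ℝ) : LC (fun x : E n => Int.fract (x c) < τ) := by
  refine LC.coord (F := fun y : ℝ => Int.fract y < τ) c ?_
  have h1 := ae_floor 1 0 one_ne_zero
  have h2 : ∀ᵐ y : ℝ, ∀ k : ℤ, y ≠ k + τ := by
    refine ae_all_iff.mpr fun k => ?_
    exact Measure.ae_ne volume (k + τ)
  filter_upwards [h1, h2] with y hy1 hy2
  simp only [one_mul, add_zero] at hy1
  have hc : ∀ᶠ z in 𝓝 y, (z < ⌊y⌋ + τ ↔ y < ⌊y⌋ + τ) := by
    rcases lt_trichotomy y (⌊y⌋ + τ) with h | h | h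
    · filter_upwards [gt_mem_nhds h] with z hz
      exact ⟨fun _ => h, fun _ => hz⟩
    · exact absurd h (hy2 _)
    · filter_upwards [lt_mem_nhds h] with z hz
      exact ⟨fun h' => absurd h' (not_lt.mpr hz.le), fun h' => absurd h' (not_lt.mpr h.le)⟩
  filter_upwards [hy1, hc] with z hz1 hz2
  have e1 : Int.fract z < τ ↔ z < ⌊y⌋ + τ := by
    rw [Int.fract, hz1, sub_lt_iff_lt_add']
  have e2 : Int.fract y < τ ↔ y < ⌊y⌋ + τ := by
    rw [Int.fract, sub_lt_iff_lt_add']
  exact propext (by rw [e1, e2, hz2])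

theorem LC.slab (c : Fin n) (τ : ℝ) : LC (fun x : E n => 1 ≤ Int.fract (x c) + τ) := by
  have := (LC.fract_lt c (1 - τ)).comp Not
  refine this.congr_of_eq fun x => ?_
  apply propext
  rw [not_lt, sub_le_iff_le_add]

/-- the slab part -/
noncomputable def slabPart (w : E n → ℤ) (c : Fin n) (τ : ℝ) (x : E n) : ℤ :=
  if 1 ≤ Int.fract (x c) + τ then w x else 0

theorem slabPart_jc {w : E n → ℤ} (hw : JC w) (c : Fin n) (τ : ℝ) : JC (slabPart w c τ) :=
  hw.ite (LC.slab c τ)

theorem slab_shift (c : Fin n) {τ : ℝ} (h0 : 0 < τ) (h1 : τ < 1) (x : E n) :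
    1 ≤ Int.fract ((x - ev c τ) c) + τ ↔ Int.fract (x c) < τ := by
  have e1 : (x - ev c τ) c = x c - τ := by simp
  rw [e1]
  constructor
  · intro h
    by_contra hcon
    push Not at hcon
    have : Int.fract (x c - τ) = Int.fract (x c) - τ := by
      rw [Int.fract_eq_iff]
      refine ⟨by linarith, by have := Int.fract_lt_one (x c); linarith, ⌊x c⌋, ?_⟩
      have := Int.self_sub_floor (x c)
      linarith
    rw [this] at h
    have := Int.fract_lt_one (x c)
    linarith
  · intro h
    have : Int.fract (x c - τ) = Int.fract (x c) - τ + 1 := by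
      rw [Int.fract_eq_iff]
      refine ⟨by have := Int.fract_nonneg (x c); linarith, by linarith, ⌊x c⌋ - 1, ?_⟩
      have := Int.self_sub_floor (x c)
      push_cast
      linarith
    rw [this]
    have := Int.fract_nonneg (x c)
    linarith

theorem corr_eq (w : E n → ℤ) (c : Fin n) {τ : ℝ} (h0 : 0 < τ) (h1 : τ < 1) (x : E n) :
    corr w c τ x = w x - w (x - ev c τ) + slabPart w c τ (x - ev c τ) - slabPart w c τ x := by
  unfold corr slabPart
  simp only [slab_shift c h0 h1]

/-- Small translations in one coordinate direction. -/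
theorem smallDiff_coord {w : E n → ℤ} (hw : JC w) (c : Fin n) {ε : ℝ} (hε : 0 < ε) :
    ∃ δ > 0, ∀ τ : ℝ, 0 ≤ τ → τ < δ → SmallDiff (fun x => w x - w (x - ev c τ)) ε := by
  have h1 := (tendsto_mass_abs_sub hw c).eventually (gt_mem_nhds (show (0 : ℝ) < ε / 5 by positivity))
  have h2 := (tendsto_mass_slab hw c).eventually (gt_mem_nhds (show (0 : ℝ) < ε / 5 by positivity))
  obtain ⟨δ, hδ, hball⟩ := Metric.eventually_nhds_iff.mp (h1.and h2)
  refine ⟨min δ 1, lt_min hδ one_pos, fun τ hτ0 hτ => ?_⟩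
  have hτδ : τ < δ := lt_of_lt_of_le hτ (min_le_left _ _)
  have hτ1 : τ < 1 := lt_of_lt_of_le hτ (min_le_right _ _)
  rcases hτ0.eq_or_lt with rfl | hpos
  · refine (SmallDiff.zero hε).congr (Eventually.of_forall fun x => ?_)
    simp
  obtain ⟨hm1, hm2⟩ := hball (show dist τ 0 < δ by simpa [abs_of_nonneg hτ0] using hτδ)
  set θ := ev (n := n) c τ with hθ
  set s := slabPart w c τ with hs
  have hsJ : JC s := slabPart_jc hw c τ
  have hφJ : JC (corr w c τ) := by
    have : JC (fun x => w x - w (x - θ) + s (x - θ) - s x) :=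
      ((hw.sub (hw.sub_right θ)).add (hsJ.sub_right θ)).sub hsJ
    have e : corr w c τ = fun x => w x - w (x - θ) + s (x - θ) - s x :=
      funext fun x => corr_eq w c hpos hτ1 x
    rw [e]; exact this
  have hφ : Eqd (T n) (fun x => (corr w c τ x).toNat) (fun x => (- corr w c τ x).toNat) := by
    refine Eqd.of_fiber (Finset.range (⌈1 / τ⌉₊ + 1)) (fun j : ℕ => ev c (j * τ))
      (LC.ch c hpos) hφJ.lc ?_ (Eventually.of_forall fun y => corr_sum w c hpos y)
    intro x _
    rw [Finset.mem_range]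
    have h3 : Int.fract (x c) / τ ≤ 1 / τ := by
      rw [div_le_div_iff_of_pos_right hpos]; exact (Int.fract_lt_one _).le
    have h4 : ch c τ x ≤ ⌈1 / τ⌉₊ := by
      refine (Nat.floor_le_floor h3).trans (Nat.floor_le_ceil _)
    omega
  have habs1 : mass (fun x => |s x|) < ε / 5 := by
    refine lt_of_le_of_lt (le_of_eq ?_) hm2
    refine mass_congr (Eventually.of_forall fun x => ?_)
    simp only [hs, slabPart]
    split_ifs <;> simp
  have hsabs : JC (fun x => |s x|) := hsJ.of_abs_le (hsJ.lc.comp _) fun x => by simp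
  have hDabs : JC (fun x => |w x - w (x - θ)|) := by
    have := hw.sub (hw.sub_right θ)
    exact this.of_abs_le (this.lc.comp _) fun x => by simp
  refine ⟨fun x => (corr w c τ x).toNat + ((s x).toNat + (- s (x - θ)).toNat),
    fun x => (- corr w c τ x).toNat + ((s (x - θ)).toNat + (- s x).toNat), ?_, ?_, ?_, ?_, ?_⟩
  · exact hφJ.toNat.add (hsJ.toNat.add ((hsJ.sub_right θ).neg.toNat))
  · exact hφJ.neg.toNat.add ((hsJ.sub_right θ).toNat.add (hsJ.neg.toNat))
  · refine hφ.add (Eqd.add ?_ ?_)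
    · exact Eqd.tr hsJ.toNat.lc θ
    · exact (Eqd.tr hsJ.neg.toNat.lc θ).symm
  · have hu : JN (fun x => (corr w c τ x).toNat + ((s x).toNat + (- s (x - θ)).toNat)) :=
      hφJ.toNat.add (hsJ.toNat.add ((hsJ.sub_right θ).neg.toNat))
    have hbound : massN (fun x => (corr w c τ x).toNat + ((s x).toNat + (- s (x - θ)).toNat))
        ≤ mass (fun x => |w x - w (x - θ)| + ((|s (x - θ)| + |s x|) + (|s x| + |s (x - θ)|))) := by
      refine mass_mono hu ?_ (Eventually.of_forall fun x => ?_)
      · exact hDabs.add (((hsabs.sub_right θ).add hsabs).add (hsabs.add (hsabs.sub_right θ)))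
      · have e := corr_eq w c hpos hτ1 x
        rw [← hθ, ← hs] at e
        simp only [e]
        push_cast
        have t1 : ((w x - w (x - θ) + s (x - θ) - s x).toNat : ℤ) ≤
            |w x - w (x - θ)| + (|s (x - θ)| + |s x|) := by
          rw [Int.toNat_eq_max]
          refine max_le ?_ (by positivity)
          have := le_abs_self (w x - w (x - θ))
          have := le_abs_self (s (x - θ))
          have := neg_abs_le (s x)
          linarith
        have t2 : ((s x).toNat : ℤ) ≤ |s x| := by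
          rw [Int.toNat_eq_max]; exact max_le (le_abs_self _) (abs_nonneg _)
        have t3 : ((- s (x - θ)).toNat : ℤ) ≤ |s (x - θ)| := by
          rw [Int.toNat_eq_max]; exact max_le (neg_le_abs _) (abs_nonneg _)
        linarith
    rw [mass_add hDabs (((hsabs.sub_right θ).add hsabs).add (hsabs.add (hsabs.sub_right θ))),
      mass_add ((hsabs.sub_right θ).add hsabs) (hsabs.add (hsabs.sub_right θ)),
      mass_add (hsabs.sub_right θ) hsabs, mass_add hsabs (hsabs.sub_right θ),
      mass_sub_right (fun x => |s x|) θ] at hbound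
    linarith
  · refine Eventually.of_forall fun x => ?_
    have e := corr_eq w c hpos hτ1 x
    rw [← hθ, ← hs] at e
    push_cast
    omega

/-- Small translations. -/
theorem smallDiff_small {w : E n → ℤ} (hw : JC w) (C : Finset (Fin n)) :
    ∀ ε : ℝ, 0 < ε → ∃ δ > 0, ∀ τ : Fin n → ℝ, (∀ c, 0 ≤ τ c ∧ τ c < δ) →
      SmallDiff (fun x => w x - w (x - ∑ c ∈ C, ev c (τ c))) ε := by
  classical
  induction C using Finset.induction_on with
  | empty =>
    intro ε hε
    refine ⟨1, one_pos, fun τ _ => ?_⟩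
    refine (SmallDiff.zero hε).congr (Eventually.of_forall fun x => ?_)
    simp
  | insert a s ha ih =>
    intro ε hε
    obtain ⟨δ₁, hδ₁, h₁⟩ := ih (ε / 2) (by positivity)
    obtain ⟨δ₂, hδ₂, h₂⟩ := smallDiff_coord hw a (show 0 < ε / 2 by positivity)
    refine ⟨min δ₁ δ₂, lt_min hδ₁ hδ₂, fun τ hτ => ?_⟩
    have g1 := h₁ τ fun c => ⟨(hτ c).1, lt_of_lt_of_le (hτ c).2 (min_le_left _ _)⟩
    have g2 := (h₂ (τ a) (hτ a).1 (lt_of_lt_of_le (hτ a).2 (min_le_right _ _))).sub_right
      (∑ c ∈ s, ev c (τ c))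
    refine ((g1.add g2).mono (by linarith)).congr (Eventually.of_forall fun x => ?_)
    rw [Finset.sum_insert ha]
    have e : x - (ev a (τ a) + ∑ c ∈ s, ev c (τ c)) = x - ∑ c ∈ s, ev c (τ c) - ev a (τ a) := by
      abel
    rw [e]; ring


/-- Every translation is a lattice translation plus a small one. -/
theorem smallDiff_translate {w : E n → ℤ} (hw : JC w) (t : E n) {ε : ℝ} (hε : 0 < ε) :
    ∃ N₀ : ℕ, 0 < N₀ ∧ ∀ N, N₀ ≤ N → ∃ Z φ : E n → ℤ, JC Z ∧ (∀ y, Per N Z y = 0) ∧
      SmallDiff φ ε ∧ ∀ x, w x - w (x - t) = Z x + φ x := by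
  obtain ⟨δ, hδ, h⟩ := smallDiff_small hw Finset.univ ε hε
  obtain ⟨N₀, hN₀⟩ := exists_nat_gt (1 / δ)
  refine ⟨N₀ + 1, N₀.succ_pos, fun N hN => ?_⟩
  have hNpos : 0 < N := lt_of_lt_of_le N₀.succ_pos hN
  have hNR : (0 : ℝ) < N := by exact_mod_cast hNpos
  have hNδ : 1 / (N : ℝ) < δ := by
    rw [div_lt_iff₀ hNR]
    have h1 : (N₀ : ℝ) < N := by exact_mod_cast (Nat.lt_of_succ_le hN)
    have h2 : 1 / δ < N := hN₀.trans h1
    rw [div_lt_iff₀ hδ] at h2
    linarith
  let τ : Fin n → ℝ := fun c => t c - (⌊(N : ℝ) * t c⌋ : ℝ) / N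
  have hτ : ∀ c, 0 ≤ τ c ∧ τ c < δ := by
    intro c
    have h1 := Int.floor_le ((N : ℝ) * t c)
    have h2 := Int.lt_floor_add_one ((N : ℝ) * t c)
    have e : τ c = ((N : ℝ) * t c - ⌊(N : ℝ) * t c⌋) / N := by
      simp only [τ]; field_simp
    rw [e]
    constructor
    · apply div_nonneg _ hNR.le; linarith
    · refine lt_of_lt_of_le ?_ hNδ.le
      rw [div_lt_div_iff_of_pos_right hNR]; linarith
  set θ : E n := ∑ c, ev c (τ c) with hθ
  have hθ' : θ + lat N (cell N t) = t := by
    ext d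
    have : θ d = τ d := by
      rw [hθ]
      simp [ev_apply]
    rw [PiLp.add_apply, this, lat_apply]
    simp [τ, cell]
  have hwθ := hw.sub_right θ
  refine ⟨fun x => w (x - θ) - w (x - θ - lat N (cell N t)), fun x => w x - w (x - θ), ?_, ?_,
    h τ hτ, ?_⟩
  · have := hwθ.sub (hwθ.sub_right (lat N (cell N t)))
    have e : (fun x => w (x - θ) - w (x - θ - lat N (cell N t))) =
        fun x => w (x - θ) - w (x - lat N (cell N t) - θ) := by
      funext x; rw [sub_right_comm]
    rw [e]; exact this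
  · intro y
    have e : (fun x => w (x - θ) - w (x - θ - lat N (cell N t))) =
        fun x => w (x - θ) - w (x - lat N (cell N t) - θ) := by
      funext x; rw [sub_right_comm]
    rw [e, Per_sub hNpos hwθ (hwθ.sub_right (lat N (cell N t))),
      Per_sub_right N (fun x => w (x - θ)) (lat N (cell N t))]
    have := Per_periodic N (fun x => w (x - θ)) (y - lat N (cell N t)) (cell N t)
    rw [sub_add_cancel] at this
    rw [this, sub_self]
  · intro x
    have e : x - t = x - θ - lat N (cell N t) := by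
      rw [← hθ']
      abel_nf
      rw [hθ']
    rw [e]; ring


/-- Step B1: if `F - H` is a coboundary then `F + e ~ H + e` with `e` small. -/
theorem exists_small_stable {F H : E n → ℕ} (hF : JN F) (hH : JN H)
    (h : Cob (fun x => (F x : ℤ) - H x)) {ε : ℝ} (hε : 0 < ε) :
    ∃ e : E n → ℕ, JN e ∧ massN e < ε ∧ Eqd (T n) (fun x => F x + e x) (fun x => H x + e x) := by
  obtain ⟨ι, _, t, w, hw, h1⟩ := h
  set ε' : ℝ := ε / (Fintype.card ι + 1) with hε'
  have hε'pos : 0 < ε' := by positivity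
  choose N₀ hN₀pos hN₀ using fun i => smallDiff_translate (hw i) (t i) hε'pos
  set N : ℕ := 1 + ∑ i, N₀ i with hN
  have hNpos : 0 < N := by omega
  have hNle : ∀ i, N₀ i ≤ N := fun i => by
    have := Finset.single_le_sum (f := N₀) (fun _ _ => Nat.zero_le _) (Finset.mem_univ i)
    omega
  choose Z φ hZ hPer hφ hsum using fun i => hN₀ i N (hNle i)
  choose u v hu hv huv hm huv' using hφ
  have hU : JN (fun x => ∑ i, u i x) := JN.finset_sum _ fun i _ => hu i
  have hV : JN (fun x => ∑ i, v i x) := JN.finset_sum _ fun i _ => hv i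
  have hUV : Eqd (T n) (fun x => ∑ i, u i x) (fun x => ∑ i, v i x) :=
    Eqd.finset_sum _ fun i _ => huv i
  -- the lattice part
  let P : E n → ℕ := fun x => F x + ∑ i, v i x
  let Q : E n → ℕ := fun x => H x + ∑ i, u i x
  have hP : JN P := hF.add hV
  have hQ : JN Q := hH.add hU
  let ψ : E n → ℤ := fun x => (P x : ℤ) - Q x
  have hψ : JC ψ := hP.jc.sub hQ.jc
  have hψeq : ∀ᵐ x, ψ x = ∑ i, Z i x := by
    filter_upwards [h1, ae_all_iff.mpr huv'] with x hx hx'
    have e1 : (F x : ℤ) - H x = ∑ i, (Z i x + ((u i x : ℤ) - v i x)) := by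
      rw [hx]
      refine Finset.sum_congr rfl fun i _ => ?_
      rw [hsum i x, hx' i]
    simp only [ψ, P, Q]
    push_cast
    rw [Finset.sum_add_distrib, Finset.sum_sub_distrib] at e1
    linarith
  have hPer0 : ∀ᵐ y, Per N ψ y = 0 := by
    filter_upwards [Per_congr (N := N) hψeq] with y hy
    rw [hy, Per_finset_sum hNpos _ fun i _ => hZ i]
    exact Finset.sum_eq_zero fun i _ => hPer i y
  have hψE := Eqd.of_per hNpos hψ hPer0
  have hPQ : Eqd (T n) P Q := by
    have hmin : LC (fun x => min (P x) (Q x)) := LC.comp₂ min hP.lc hQ.lc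
    refine ((Eqd.refl hmin).add hψE).congr (Eventually.of_forall fun x => ?_)
      (Eventually.of_forall fun x => ?_)
    · simp only [ψ]; omega
    · simp only [ψ]; omega
  refine ⟨fun x => ∑ i, v i x, hV, ?_, ?_⟩
  · have e1 : massN (fun x => ∑ i, v i x) = massN (fun x => ∑ i, u i x) := hUV.massN_eq hU
    rw [e1, massN_finset_sum _ fun i _ => hu i]
    calc ∑ i, massN (u i) ≤ ∑ _i : ι, ε' := Finset.sum_le_sum fun i _ => (hm i).le
      _ = Fintype.card ι * ε' := by simp
      _ < ε := by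
        rw [hε', mul_div_assoc', div_lt_iff₀ (by positivity)]
        nlinarith
  · exact hPQ.trans ((Eqd.refl hH.lc).add hUV)

/-- Step Key: cancellation of a small function. -/
theorem Eqd.cancel_small {F H e : E n → ℕ} (hF : JN F) (hH : JN H) (he : JN e)
    (h : Eqd (T n) (fun x => F x + e x) (fun x => H x + e x)) (hm : 2 * massN e < massN F) :
    Eqd (T n) F H := by
  obtain ⟨A, B, hA, hB, hAB, h1, h2, h3, h4⟩ := Eqd.refine hF.lc he.lc hH.lc he.lc h
  -- truncate
  let A' : Bool → Bool → E n → ℕ := fun a b x => min (A a b x) (if a then e x else F x)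
  let B' : Bool → Bool → E n → ℕ := fun a b x => min (B a b x) (if b then e x else H x)
  have hA' : ∀ a b, JN (A' a b) := by
    intro a b
    cases a
    · exact hF.of_le (LC.comp₂ min (hA _ _) hF.lc) fun x => min_le_right _ _
    · exact he.of_le (LC.comp₂ min (hA _ _) he.lc) fun x => min_le_right _ _
  have hB' : ∀ a b, JN (B' a b) := by
    intro a b
    cases b
    · exact hH.of_le (LC.comp₂ min (hB _ _) hH.lc) fun x => min_le_right _ _
    · exact he.of_le (LC.comp₂ min (hB _ _) he.lc) fun x => min_le_right _ _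
  have hAeq : ∀ᵐ x, ∀ a b, A' a b x = A a b x := by
    filter_upwards [h1, h2] with x hx hx'
    intro a b
    cases a <;> cases b <;> simp only [A'] <;> first | (simp; omega)
  have hBeq : ∀ᵐ x, ∀ a b, B' a b x = B a b x := by
    filter_upwards [h3, h4] with x hx hx'
    intro a b
    cases a <;> cases b <;> simp only [B'] <;> first | (simp; omega)
  have hAB' : ∀ a b, Eqd (T n) (A' a b) (B' a b) := fun a b =>
    (hAB a b).congr (hAeq.mono fun x hx => hx a b) (hBeq.mono fun x hx => hx a b)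
  have g1 : ∀ᵐ x, F x = A' false false x + A' false true x := by
    filter_upwards [h1, hAeq] with x hx hx'; rw [hx, hx', hx']
  have g2 : ∀ᵐ x, e x = A' true false x + A' true true x := by
    filter_upwards [h2, hAeq] with x hx hx'; rw [hx, hx', hx']
  have g3 : ∀ᵐ x, H x = B' false false x + B' true false x := by
    filter_upwards [h3, hBeq] with x hx hx'; rw [hx, hx', hx']
  have g4 : ∀ᵐ x, e x = B' false true x + B' true true x := by
    filter_upwards [h4, hBeq] with x hx hx'; rw [hx, hx', hx']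
  -- masses
  have m1 : massN F = massN (A' false false) + massN (A' false true) := by
    rw [massN_congr g1, massN_add (hA' _ _) (hA' _ _)]
  have m2 : massN e = massN (A' true false) + massN (A' true true) := by
    rw [massN_congr g2, massN_add (hA' _ _) (hA' _ _)]
  have m4 : massN e = massN (B' false true) + massN (B' true true) := by
    rw [massN_congr g4, massN_add (hB' _ _) (hB' _ _)]
  have m5 : massN (B' false true) = massN (A' false true) := (hAB' _ _).massN_eq (hA' _ _)
  have p1 := massN_nonneg (A' true false)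
  have p2 := massN_nonneg (B' true true)
  have hlt : massN (A' true true) < massN (A' false false) := by linarith
  obtain ⟨r, hr, hr'⟩ := exists_compl (hA' true true) (hA' false false) hlt
  -- F ~ (A11 + r) + B01 ~ (B11 + r) + B01 = e + r = A10 + A11 + r ~ B10 + A00 ~ B10 + B00 = H
  have s1 : Eqd (T n) F (fun x => (A' true true x + r x) + B' false true x) :=
    (hr'.add (hAB' false true)).congr g1 (Eventually.of_forall fun _ => rfl)
  have s2 : Eqd (T n) (fun x => (A' true true x + r x) + B' false true x)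
      (fun x => e x + r x) := by
    refine (((hAB' true true).add (Eqd.refl hr.lc)).add (Eqd.refl (hB' false true).lc)).congr
      (Eventually.of_forall fun _ => rfl) ?_
    filter_upwards [g4] with x hx
    rw [hx]; ring
  have s3 : Eqd (T n) (fun x => e x + r x) (fun x => B' true false x + A' false false x) := by
    refine ((hAB' true false).add hr'.symm).congr ?_ (Eventually.of_forall fun _ => rfl)
    filter_upwards [g2] with x hx
    rw [hx]; ring
  have s4 : Eqd (T n) (fun x => B' true false x + A' false false x) H := by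
    refine ((Eqd.refl (hB' true false).lc).add (hAB' false false)).congr
      (Eventually.of_forall fun _ => rfl) ?_
    filter_upwards [g3] with x hx
    rw [hx]; ring
  exact ((s1.trans s2).trans s3).trans s4

/-- Step B: functions differing by a coboundary are equivalent under translations. -/
theorem Eqd.of_cob {F H : E n → ℕ} (hF : JN F) (hH : JN H)
    (h : Cob (fun x => (F x : ℤ) - H x)) : Eqd (T n) F H := by
  have hm : massN F = massN H := by
    have h1 := h.mass_eq
    rw [mass_sub hF.jc hH.jc] at h1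
    exact sub_eq_zero.mp h1
  rcases (massN_nonneg F).eq_or_lt with h0 | hpos
  · have hF0 := eq_zero_of_massN hF h0.symm
    have hH0 := eq_zero_of_massN hH (by rw [← hm]; exact h0.symm)
    refine (Eqd.refl (LC.const 0)).congr hF0 hH0
  · obtain ⟨e, he, hme, hE⟩ := exists_small_stable hF hH h (show 0 < massN F / 2 by positivity)
    exact hE.cancel_small hF hH he (by linarith)

end Pool.Agent.Lib.MP_28492a_gt
end
end
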